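import Mathlib

/-!
# Families of subgroups that detect all simple modules
-/

set_option autoImplicit false

open Module

namespace Pool.Agent.Q60.MU

universe u

section rep

variable {k : Type} [Field k] {G : Type} [Group G]

/-- the span of the `h v - v`, `h ∈ H` -/
def coinv {V : Type u} [AddCommGroup V] [Module k V] (ρ : Representation k G V) (H : Subgroup G) :
    Submodule k V :=
  Submodule.span k {x | ∃ h ∈ H, ∃ v, x = ρ h v - v}

/-- `U` is stable under the group -/
def Stable {V : Type u} [AddCommGroup V] [Module k V] (ρ : Representation k G V)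
    (U : Submodule k V) : Prop := ∀ g, ∀ x ∈ U, ρ g x ∈ U

/-- the representation is simple -/
def IsSimple {V : Type u} [AddCommGroup V] [Module k V] (ρ : Representation k G V) : Prop :=
  Nontrivial V ∧ ∀ U : Submodule k V, Stable ρ U → U = ⊥ ∨ U = ⊤

/-- Every simple finite-dimensional representation of `G` over `k` on which `K₀` acts trivially has
nonzero coinvariants for some subgroup in the family. -/
def Detects (k : Type) [Field k] {G : Type} [Group G] (K₀ : Subgroup G) {ι : Type} (s : Finset ι)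
    (H : ι → Subgroup G) : Prop :=
  ∀ (S : Type) [AddCommGroup S] [Module k S] [Module.Finite k S] (σ : Representation k G S),
    (∀ g ∈ K₀, ∀ x, σ g x = x) → IsSimple σ → ∃ i ∈ s, coinv σ (H i) ≠ ⊤

variable {V : Type} [AddCommGroup V] [Module k V] (ρ : Representation k G V)

theorem Stable.sup {ρ : Representation k G V} {U W : Submodule k V} (hU : Stable ρ U)
    (hW : Stable ρ W) : Stable ρ (U ⊔ W) := by
  intro g x hx
  obtain ⟨a, ha, b, hb, rfl⟩ := Submodule.mem_sup.1 hx
  rw [map_add]
  exact Submodule.add_mem_sup (hU g a ha) (hW g b hb)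

/-- the quotient representation -/
def quo {U : Submodule k V} (hU : Stable ρ U) : Representation k G (V ⧸ U) where
  toFun g := U.mapQ U (ρ g) (fun x hx => hU g x hx)
  map_one' := by
    ext x
    simp
  map_mul' g h := by
    ext x
    simp

theorem quo_mk {U : Submodule k V} (hU : Stable ρ U) (g : G) (x : V) :
    quo ρ hU g (U.mkQ x) = U.mkQ (ρ g x) := rfl

/-- the subrepresentation generated by a vector -/
def gen (v : V) : Submodule k V := Submodule.span k (Set.range fun g => ρ g v)

theorem gen_stable (v : V) : Stable ρ (gen ρ v) := by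
  intro g x hx
  have h1 : gen ρ v ≤ (gen ρ v).comap (ρ g) := by
    refine Submodule.span_le.2 ?_
    rintro _ ⟨h, rfl⟩
    show ρ g (ρ h v) ∈ gen ρ v
    rw [← Module.End.mul_apply, ← map_mul]
    exact Submodule.subset_span ⟨g * h, rfl⟩
  exact h1 hx

theorem mem_gen (v : V) : v ∈ gen ρ v := by
  refine Submodule.subset_span ⟨1, ?_⟩
  show ρ 1 v = v
  rw [map_one]
  rfl

theorem finrank_gen_le {K₀ : Subgroup G} (hn : K₀.index ≠ 0) (h0 : ∀ g ∈ K₀, ∀ x, ρ g x = x)
    (v : V) : finrank k (gen ρ v) ≤ K₀.index := by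
  have h1 : K₀.FiniteIndex := ⟨hn⟩
  have h2 : Fintype (G ⧸ K₀) := Fintype.ofFinite _
  have h3 : (Set.range fun g => ρ g v) = Set.range fun q : G ⧸ K₀ => ρ q.out v := by
    ext x
    constructor
    · rintro ⟨g, rfl⟩
      refine ⟨(g : G ⧸ K₀), ?_⟩
      obtain ⟨c, hc⟩ := QuotientGroup.mk_out_eq_mul K₀ g
      show ρ ((g : G ⧸ K₀)).out v = ρ g v
      rw [hc, map_mul, Module.End.mul_apply, h0 c c.2]
    · rintro ⟨q, rfl⟩
      exact ⟨_, rfl⟩
  rw [gen, h3, Subgroup.index, Nat.card_eq_fintype_card]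
  exact finrank_range_le_card fun q : G ⧸ K₀ => ρ q.out v

variable {K₀ : Subgroup G} {ι : Type} {s : Finset ι} {H : ι → Subgroup G}

/-- A maximal stable subspace and a detecting subgroup. -/
theorem exists_detect [Module.Finite k V] (h0 : ∀ g ∈ K₀, ∀ x, ρ g x = x)
    (hdet : Detects k K₀ s H)
    {W : Submodule k V} (hW : Stable ρ W) (hWt : W ≠ ⊤) :
    ∃ U : Submodule k V, W ≤ U ∧ Stable ρ U ∧ ∃ i ∈ s, U ⊔ coinv ρ (H i) ≠ ⊤ := by
  classical
  have hex : ∃ n, ∃ U : Submodule k V, Stable ρ U ∧ U ≠ ⊤ ∧ W ≤ U ∧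
      finrank k V - finrank k U = n := ⟨_, W, hW, hWt, le_rfl, rfl⟩
  obtain ⟨U, hU, hUt, hWU, hn⟩ := Nat.find_spec hex
  have hmin := fun m hm => Nat.find_min hex (m := m) hm
  refine ⟨U, hWU, hU, ?_⟩
  have hsimple : IsSimple (quo ρ hU) := by
    refine ⟨Submodule.Quotient.nontrivial_iff.2 hUt, fun Q hQ => ?_⟩
    by_cases hQt : Q = ⊤
    · exact Or.inr hQt
    left
    have h1 : Stable ρ (Q.comap U.mkQ) := by
      intro g x hx
      have h2 := hQ g (U.mkQ x) hx
      rw [quo_mk] at h2
      exact h2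
    have h2 : Q.comap U.mkQ ≠ ⊤ := by
      intro h
      apply hQt
      rw [← Submodule.map_comap_eq_of_surjective (Submodule.mkQ_surjective U) Q, h,
        Submodule.map_top, Submodule.range_mkQ]
    have h3 : U ≤ Q.comap U.mkQ := by
      intro x hx
      show U.mkQ x ∈ Q
      rw [Submodule.mkQ_apply, (Submodule.Quotient.mk_eq_zero U).2 hx]
      exact Q.zero_mem
    by_contra hQb
    have h4 : U < Q.comap U.mkQ := by
      refine lt_of_le_of_ne h3 fun h => hQb ?_
      rw [← Submodule.map_comap_eq_of_surjective (Submodule.mkQ_surjective U) Q, ← h,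
        Submodule.mkQ_map_self]
    have h5 := Submodule.finrank_lt_finrank_of_lt h4
    have h6 : finrank k (Q.comap U.mkQ : Submodule k V) ≤ finrank k V := Submodule.finrank_le _
    refine hmin (finrank k V - finrank k (Q.comap U.mkQ : Submodule k V)) ?_
      ⟨_, h1, h2, hWU.trans h3, rfl⟩
    rw [← hn]
    omega
  obtain ⟨i, hi, hc⟩ := hdet (V ⧸ U) (quo ρ hU) (by
    intro g hg x
    obtain ⟨y, rfl⟩ := Submodule.mkQ_surjective U x
    rw [quo_mk, h0 g hg]) hsimple
  refine ⟨i, hi, fun h => hc ?_⟩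
  rw [eq_top_iff]
  have h1 : (⊤ : Submodule k (V ⧸ U)) = (U ⊔ coinv ρ (H i)).map U.mkQ := by
    rw [h, Submodule.map_top, Submodule.range_mkQ]
  rw [h1, Submodule.map_sup, Submodule.mkQ_map_self, bot_sup_eq, coinv, Submodule.map_span,
    Submodule.span_le]
  rintro _ ⟨_, ⟨h, hh, v, rfl⟩, rfl⟩
  rw [map_sub, ← quo_mk ρ hU]
  exact Submodule.subset_span ⟨h, hh, U.mkQ v, rfl⟩

/-- **The inequality for representations.** -/
theorem finrank_le [Module.Finite k V] (hidx : K₀.index ≠ 0) (h0 : ∀ g ∈ K₀, ∀ x, ρ g x = x)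
    (hdet : Detects k K₀ s H) :
    finrank k V ≤ K₀.index * ∑ i ∈ s, finrank k (V ⧸ coinv ρ (H i)) := by
  classical
  have key : ∀ (n : ℕ) (W : Submodule k V), Stable ρ W →
      ∑ i ∈ s, finrank k (V ⧸ (W ⊔ coinv ρ (H i))) = n →
      finrank k V ≤ finrank k W + K₀.index * n := by
    intro n
    induction n using Nat.strong_induction_on with
    | _ n ih =>
      intro W hW hn
      by_cases hWt : W = ⊤
      · rw [hWt, finrank_top]
        exact Nat.le_add_right _ _
      obtain ⟨U, hWU, hU, i, hi, hne⟩ := exists_detect ρ h0 hdet hW hWt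
      obtain ⟨v, hv⟩ : ∃ v, v ∉ U ⊔ coinv ρ (H i) := by
        by_contra hcon
        push Not at hcon
        exact hne (eq_top_iff.2 fun x _ => hcon x)
      have hle : ∀ H' : Subgroup G, W ⊔ coinv ρ H' ≤ (W ⊔ gen ρ v) ⊔ coinv ρ H' :=
        fun H' => sup_le_sup_right le_sup_left _
      have hq : ∀ X : Submodule k V, finrank k (V ⧸ X) = finrank k V - finrank k X := by
        intro X
        have := X.finrank_quotient_add_finrank
        omega
      have h1 : ∀ j ∈ s, finrank k (V ⧸ ((W ⊔ gen ρ v) ⊔ coinv ρ (H j))) ≤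
          finrank k (V ⧸ (W ⊔ coinv ρ (H j))) := by
        intro j _
        rw [hq, hq]
        have := Submodule.finrank_mono (hle (H j))
        omega
      have h2 : finrank k (V ⧸ ((W ⊔ gen ρ v) ⊔ coinv ρ (H i))) <
          finrank k (V ⧸ (W ⊔ coinv ρ (H i))) := by
        have h3 : W ⊔ coinv ρ (H i) < (W ⊔ gen ρ v) ⊔ coinv ρ (H i) := by
          refine lt_of_le_of_ne (hle (H i)) fun h => hv ?_
          have h4 : v ∈ (W ⊔ gen ρ v) ⊔ coinv ρ (H i) :=
            Submodule.mem_sup_left (Submodule.mem_sup_right (mem_gen ρ v))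
          rw [← h] at h4
          exact (sup_le_sup_right hWU _) h4
        have h5 := Submodule.finrank_lt_finrank_of_lt h3
        have h6 : finrank k ((W ⊔ gen ρ v) ⊔ coinv ρ (H i) : Submodule k V) ≤ finrank k V :=
          Submodule.finrank_le _
        rw [hq, hq]
        omega
      have h3 : ∑ j ∈ s, finrank k (V ⧸ ((W ⊔ gen ρ v) ⊔ coinv ρ (H j))) < n := by
        rw [← hn]
        exact Finset.sum_lt_sum h1 ⟨i, hi, h2⟩
      have h4 := ih _ h3 (W ⊔ gen ρ v) (hW.sup (gen_stable ρ v)) rfl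
      have h5 : finrank k (W ⊔ gen ρ v : Submodule k V) ≤ finrank k W + K₀.index :=
        (Submodule.finrank_add_le_finrank_add_finrank _ _).trans
          (Nat.add_le_add_left (finrank_gen_le ρ hidx h0 v) _)
      calc finrank k V ≤ finrank k (W ⊔ gen ρ v : Submodule k V) +
            K₀.index * ∑ j ∈ s, finrank k (V ⧸ ((W ⊔ gen ρ v) ⊔ coinv ρ (H j))) := h4
        _ ≤ (finrank k W + K₀.index) +
            K₀.index * ∑ j ∈ s, finrank k (V ⧸ ((W ⊔ gen ρ v) ⊔ coinv ρ (H j))) :=
            Nat.add_le_add_right h5 _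
        _ = finrank k W +
            K₀.index * (∑ j ∈ s, finrank k (V ⧸ ((W ⊔ gen ρ v) ⊔ coinv ρ (H j))) + 1) := by
            ring
        _ ≤ finrank k W + K₀.index * n := by
            apply Nat.add_le_add_left
            exact Nat.mul_le_mul_left _ h3
  have h := key _ ⊥ (fun g x hx => by
    rw [Submodule.mem_bot] at hx ⊢
    rw [hx, map_zero]) rfl
  rw [finrank_bot, zero_add] at h
  have h2 : ∀ H : Subgroup G, finrank k (V ⧸ ((⊥ : Submodule k V) ⊔ coinv ρ H)) =
      finrank k (V ⧸ coinv ρ H) := by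
    intro H
    have h3 := ((⊥ : Submodule k V) ⊔ coinv ρ H).finrank_quotient_add_finrank
    have h4 := (coinv ρ H).finrank_quotient_add_finrank
    have h5 : finrank k ((⊥ : Submodule k V) ⊔ coinv ρ H : Submodule k V) =
        finrank k (coinv ρ H) := by
      rw [bot_sup_eq]
    omega
  refine h.trans (le_of_eq ?_)
  congr 1
  exact Finset.sum_congr rfl fun j _ => h2 (H j)

end rep

end Pool.Agent.Q60.MU
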