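import Pool.Agent.Q60.MU.Alg

/-!
# Coinduction: simple modules of a subgroup inside simple modules of the group
-/

set_option autoImplicit false

open Module

namespace Pool.Agent.Q60.MU

/-- the stabilizer of a vector -/
def stab {k : Type} [Field k] {G : Type} [Group G] {V : Type} [AddCommGroup V] [Module k V]
    (ρ : Representation k G V) (v : V) : Subgroup G where
  carrier := {g | ρ g v = v}
  mul_mem' := by
    intro a b ha hb
    show ρ (a * b) v = v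
    rw [map_mul, Module.End.mul_apply]
    rw [Set.mem_ofPred_eq] at ha hb
    rw [hb, ha]
  one_mem' := by
    show ρ 1 v = v
    rw [map_one]
    rfl
  inv_mem' := by
    intro a ha
    show ρ a⁻¹ v = v
    rw [Set.mem_ofPred_eq] at ha
    calc ρ a⁻¹ v = ρ a⁻¹ (ρ a v) := by rw [ha]
      _ = ρ (a⁻¹ * a) v := by rw [map_mul, Module.End.mul_apply]
      _ = v := by
        rw [inv_mul_cancel, map_one]
        rfl

theorem mem_stab {k : Type} [Field k] {G : Type} [Group G] {V : Type} [AddCommGroup V]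
    [Module k V] {ρ : Representation k G V} {v : V} {g : G} : g ∈ stab ρ v ↔ ρ g v = v := Iff.rfl

section sub

variable {k : Type} [Field k] {G : Type} [Group G] {V : Type} [AddCommGroup V] [Module k V]
  (ρ : Representation k G V)

/-- the subrepresentation -/
def sub {U : Submodule k V} (hU : Stable ρ U) : Representation k G U where
  toFun g := (ρ g).restrict (fun x hx => hU g x hx)
  map_one' := by
    ext x
    simp
  map_mul' g h := by
    ext x
    simp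

theorem sub_coe {U : Submodule k V} (hU : Stable ρ U) (g : G) (x : U) :
    ((sub ρ hU g x : U) : V) = ρ g x := rfl

theorem exists_simple_sub [Module.Finite k V] [Nontrivial V] :
    ∃ (U : Submodule k V) (hU : Stable ρ U), U ≠ ⊥ ∧ IsSimple (sub ρ hU) := by
  classical
  have hex : ∃ n, ∃ U : Submodule k V, Stable ρ U ∧ U ≠ ⊥ ∧ finrank k U = n :=
    ⟨_, ⊤, fun _ _ _ => Submodule.mem_top, top_ne_bot, rfl⟩
  obtain ⟨U, hU, hU0, hn⟩ := Nat.find_spec hex
  have hmin := fun m hm => Nat.find_min hex (m := m) hm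
  refine ⟨U, hU, hU0, (Submodule.nontrivial_iff_ne_bot).2 hU0, fun Q hQ => ?_⟩
  by_cases hQ0 : Q = ⊥
  · exact Or.inl hQ0
  right
  have h1 : Stable ρ (Q.map U.subtype) := by
    rintro g _ ⟨x, hx, rfl⟩
    exact ⟨_, hQ g x hx, rfl⟩
  have h2 : Q.map U.subtype ≠ ⊥ := by
    intro h
    apply hQ0
    rw [eq_bot_iff]
    intro x hx
    have h2 : (x : V) ∈ Q.map U.subtype := ⟨x, hx, rfl⟩
    rw [h, Submodule.mem_bot] at h2
    exact (Submodule.mem_bot k).2 (Subtype.ext h2)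
  have h3 : Q.map U.subtype ≤ U := Submodule.map_subtype_le U Q
  by_contra hQt
  have h4 : Q.map U.subtype < U := by
    refine lt_of_le_of_ne h3 fun h => hQt ?_
    rw [eq_top_iff]
    intro x _
    have h5 : (x : V) ∈ Q.map U.subtype := by
      rw [h]
      exact x.2
    obtain ⟨y, hy, hyx⟩ := h5
    rwa [Subtype.ext hyx] at hy
  have h5 := Submodule.finrank_lt_finrank_of_lt h4
  exact hmin _ (hn ▸ h5) ⟨_, h1, h2, rfl⟩

end sub

section coind

variable {k : Type} [Field k] {𝔾 : Type} [Group 𝔾] {K D : Subgroup 𝔾}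
  {S : Type} [AddCommGroup S] [Module k S] (σ : Representation k D S)

/-- coinduced functions with values in the dual, invariant under `K` -/
def Y (K : Subgroup 𝔾) : Submodule k (𝔾 → (S →ₗ[k] k)) where
  carrier := {φ | (∀ (d : D) (g : 𝔾), φ (d * g) = (φ g) ∘ₗ σ d⁻¹) ∧
    ∀ κ ∈ K, ∀ g, φ (κ * g) = φ g}
  add_mem' := by
    rintro a b ⟨h1, h2⟩ ⟨h3, h4⟩
    refine ⟨fun d g => ?_, fun κ hκ g => ?_⟩
    · rw [Pi.add_apply, Pi.add_apply, h1, h3, LinearMap.add_comp]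
    · rw [Pi.add_apply, Pi.add_apply, h2 κ hκ, h4 κ hκ]
  zero_mem' := ⟨fun d g => by simp, fun κ hκ g => rfl⟩
  smul_mem' := by
    rintro c a ⟨h1, h2⟩
    refine ⟨fun d g => ?_, fun κ hκ g => ?_⟩
    · rw [Pi.smul_apply, Pi.smul_apply, h1, LinearMap.smul_comp]
    · rw [Pi.smul_apply, Pi.smul_apply, h2 κ hκ]

/-- right translation -/
def τY (K : Subgroup 𝔾) : Representation k 𝔾 (Y σ K) where
  toFun h :=
    { toFun := fun φ => ⟨fun g => φ.1 (g * h), fun d g => by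
        show φ.1 (d * g * h) = (φ.1 (g * h)) ∘ₗ σ d⁻¹
        rw [mul_assoc]
        exact φ.2.1 d _, fun κ hκ g => by
        show φ.1 (κ * g * h) = φ.1 (g * h)
        rw [mul_assoc]
        exact φ.2.2 κ hκ _⟩
      map_add' := fun φ ψ => rfl
      map_smul' := fun c φ => rfl }
  map_one' := by
    apply LinearMap.ext
    intro φ
    apply Subtype.ext
    funext g
    show φ.1 (g * 1) = φ.1 g
    rw [mul_one]
  map_mul' a b := by
    apply LinearMap.ext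
    intro φ
    apply Subtype.ext
    funext g
    show φ.1 (g * (a * b)) = φ.1 (g * a * b)
    rw [mul_assoc]

theorem τY_apply (K : Subgroup 𝔾) (h g : 𝔾) (φ : Y σ K) : (τY σ K h φ).1 g = φ.1 (g * h) := rfl

theorem Y_finite [Module.Finite k S] (hD : D.index ≠ 0) : Module.Finite k (Y σ K) := by
  classical
  have hfi : D.FiniteIndex := ⟨hD⟩
  have hfin : Finite (𝔾 ⧸ D) := inferInstance
  let F : Y σ K →ₗ[k] ((𝔾 ⧸ D) → (S →ₗ[k] k)) :=
    { toFun := fun φ q => φ.1 (q.out)⁻¹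
      map_add' := fun φ ψ => rfl
      map_smul' := fun c φ => rfl }
  refine Module.Finite.of_injective F ?_
  have key : ∀ φ : Y σ K, F φ = 0 → φ = 0 := by
    intro φ hφ
    apply Subtype.ext
    funext g
    obtain ⟨d, hd⟩ := QuotientGroup.mk_out_eq_mul D g⁻¹
    have h1 : φ.1 (((g⁻¹ : 𝔾) : 𝔾 ⧸ D).out)⁻¹ = 0 := congrFun hφ ((g⁻¹ : 𝔾) : 𝔾 ⧸ D)
    rw [hd] at h1
    have h2 : (g⁻¹ * (d : 𝔾))⁻¹ = ((d⁻¹ : D) : 𝔾) * g := by
      push_cast
      group
    rw [h2, φ.2.1 d⁻¹ g] at h1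
    apply LinearMap.ext
    intro s
    have h3 := LinearMap.congr_fun h1 (σ d⁻¹ s)
    rw [LinearMap.comp_apply, inv_inv, ← Module.End.mul_apply, ← map_mul, mul_inv_cancel,
      map_one] at h3
    exact h3
  intro φ ψ h
  rw [← sub_eq_zero]
  apply key
  rw [map_sub, h, sub_self]

theorem Y_exists (hK : K.Normal) (htriv : ∀ g ∈ K.subgroupOf D, ∀ x, σ g x = x)
    (f₀ : S →ₗ[k] k) : ∃ φ : Y σ K, φ.1 1 = f₀ := by
  classical
  let φ₀ : 𝔾 → (S →ₗ[k] k) := fun x =>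
    if h : ∃ d : D, (d : 𝔾)⁻¹ * x ∈ K then f₀ ∘ₗ σ (h.choose)⁻¹ else 0
  have hA : ∀ (x : 𝔾) (d : D), (d : 𝔾)⁻¹ * x ∈ K → φ₀ x = f₀ ∘ₗ σ d⁻¹ := by
    intro x d hd
    have h : ∃ d : D, (d : 𝔾)⁻¹ * x ∈ K := ⟨d, hd⟩
    have h1 : φ₀ x = f₀ ∘ₗ σ (h.choose)⁻¹ := dif_pos h
    rw [h1]
    have h2 : (h.choose)⁻¹ = ((h.choose)⁻¹ * d) * d⁻¹ := by group
    have h3 : (h.choose)⁻¹ * d ∈ K.subgroupOf D := by
      show (((h.choose)⁻¹ * d : D) : 𝔾) ∈ K
      have h4 : (((h.choose)⁻¹ * d : D) : 𝔾) =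
          ((h.choose : 𝔾)⁻¹ * x) * ((d : 𝔾)⁻¹ * x)⁻¹ := by
        push_cast
        group
      rw [h4]
      exact K.mul_mem h.choose_spec (K.inv_mem hd)
    have h5 : σ (h.choose)⁻¹ = σ d⁻¹ := by
      rw [h2, map_mul]
      apply LinearMap.ext
      intro s
      rw [Module.End.mul_apply, htriv _ h3]
    rw [h5]
  have hB : ∀ x : 𝔾, (¬ ∃ d : D, (d : 𝔾)⁻¹ * x ∈ K) → φ₀ x = 0 := fun x h => dif_neg h
  refine ⟨⟨φ₀, fun d₁ x => ?_, fun κ hκ x => ?_⟩, ?_⟩
  · by_cases h : ∃ d : D, (d : 𝔾)⁻¹ * x ∈ K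
    · obtain ⟨d, hd⟩ := h
      rw [hA x d hd, hA (d₁ * x) (d₁ * d) (by
        have h1 : ((d₁ * d : D) : 𝔾)⁻¹ * (d₁ * x) = (d : 𝔾)⁻¹ * x := by
          push_cast
          group
        rw [h1]
        exact hd), mul_inv_rev, map_mul]
      rfl
    · rw [hB x h, hB (d₁ * x) (by
        rintro ⟨d, hd⟩
        apply h
        refine ⟨d₁⁻¹ * d, ?_⟩
        have h1 : ((d₁⁻¹ * d : D) : 𝔾)⁻¹ * x = (d : 𝔾)⁻¹ * (d₁ * x) := by
          push_cast
          group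
        rw [h1]
        exact hd), LinearMap.zero_comp]
  · by_cases h : ∃ d : D, (d : 𝔾)⁻¹ * x ∈ K
    · obtain ⟨d, hd⟩ := h
      rw [hA x d hd, hA (κ * x) d (by
        have h1 : (d : 𝔾)⁻¹ * (κ * x) = ((d : 𝔾)⁻¹ * κ * ((d : 𝔾)⁻¹)⁻¹) * ((d : 𝔾)⁻¹ * x) := by
          group
        rw [h1]
        exact K.mul_mem (hK.conj_mem κ hκ _) hd)]
    · rw [hB x h, hB (κ * x) (by
        rintro ⟨d, hd⟩
        apply h
        refine ⟨d, ?_⟩
        have h1 : (d : 𝔾)⁻¹ * x =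
            ((d : 𝔾)⁻¹ * κ⁻¹ * ((d : 𝔾)⁻¹)⁻¹) * ((d : 𝔾)⁻¹ * (κ * x)) := by
          group
        rw [h1]
        exact K.mul_mem (hK.conj_mem _ (K.inv_mem hκ) _) hd)]
  · show φ₀ 1 = f₀
    rw [hA 1 1 (by
      push_cast
      rw [inv_one, one_mul]
      exact K.one_mem), inv_one, map_one]
    rfl

theorem Y_pack [Module.Finite k S] (hD : D.index ≠ 0) (hK : K.Normal)
    (htriv : ∀ g ∈ K.subgroupOf D, ∀ x, σ g x = x) :
    ∃ (V : Type) (_ : AddCommGroup V) (_ : Module k V) (_ : Module.Finite k V)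
      (τ : Representation k 𝔾 V) (ev : V → 𝔾 → (S →ₗ[k] k)),
      (∀ φ ψ, (∀ g, ev φ g = ev ψ g) → φ = ψ) ∧ (∀ g, ev 0 g = 0) ∧
      (∀ h g φ, ev (τ h φ) g = ev φ (g * h)) ∧
      (∀ φ (d : D) g, ev φ (d * g) = (ev φ g) ∘ₗ σ d⁻¹) ∧
      (∀ φ, ∀ κ ∈ K, ∀ g, ev φ (κ * g) = ev φ g) ∧
      (∀ f₀, ∃ φ, ev φ 1 = f₀) := by
  exact ⟨Y σ K, inferInstance, inferInstance, Y_finite σ hD, τY σ K, fun φ => φ.1,
    fun φ ψ h => Subtype.ext (funext h), fun _ => rfl, fun h g φ => rfl, fun φ d g => φ.2.1 d g,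
    fun φ κ hκ g => φ.2.2 κ hκ g, fun f₀ => Y_exists σ hK htriv f₀⟩

theorem exists_fixed {p : ℕ} [Fact p.Prime] {G : Type} [Group G] (hG : IsPGroup p G)
    {V : Type} [AddCommGroup V] [Module (ZMod p) V] [Module.Finite (ZMod p) V] [Nontrivial V]
    (ρ : Representation (ZMod p) G V) : ∃ v : V, v ≠ 0 ∧ ∀ g, ρ g v = v := by
  classical
  have hfin : Finite V := Module.finite_of_finite (ZMod p)
  let act : MulAction G V :=
    { smul := fun g v => ρ g v
      one_smul := fun v => by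
        show ρ 1 v = v
        rw [map_one]
        rfl
      mul_smul := fun g h v => by
        show ρ (g * h) v = ρ g (ρ h v)
        rw [map_mul]
        rfl }
  have hcard : p ∣ Nat.card V := by
    have h1 := Module.natCard_eq_pow_finrank (K := ZMod p) (V := V)
    rw [Nat.card_zmod] at h1
    rw [h1]
    exact dvd_pow_self p (finrank_pos (R := ZMod p) (M := V)).ne'
  have h0 : (0 : V) ∈ MulAction.fixedPoints G V := fun g => map_zero (ρ g)
  obtain ⟨b, hb, hb0⟩ := hG.exists_fixed_point_of_prime_dvd_card_of_fixed_point V hcard h0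
  exact ⟨b, hb0.symm, hb⟩

theorem exists_vec_P {p : ℕ} [Fact p.Prime] {𝔾 : Type} [Group 𝔾] {K : Subgroup 𝔾}
    (hK : K.Normal) (hKf : K.index ≠ 0) {V : Type} [AddCommGroup V] [Module (ZMod p) V]
    [Module.Finite (ZMod p) V] [Nontrivial V] (τ : Representation (ZMod p) 𝔾 V)
    (hτ : ∀ g ∈ K, ∀ x, τ g x = x) :
    ∃ v : V, v ≠ 0 ∧ ∃ P : Subgroup 𝔾, P ≤ stab τ v ∧ ¬ p ∣ P.index := by
  classical
  have hfi : K.FiniteIndex := ⟨hKf⟩
  have hfin : Finite (𝔾 ⧸ K) := inferInstance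
  let P : Sylow p (𝔾 ⧸ K) := default
  let τ' : (𝔾 ⧸ K) →* Module.End (ZMod p) V := QuotientGroup.lift K τ (fun g hg => by
    apply LinearMap.ext
    intro x
    exact hτ g hg x)
  let ρ : Representation (ZMod p) P V := τ'.comp (P : Subgroup (𝔾 ⧸ K)).subtype
  obtain ⟨v, hv, hfix⟩ := exists_fixed P.isPGroup' ρ
  refine ⟨v, hv, (P : Subgroup (𝔾 ⧸ K)).comap (QuotientGroup.mk' K), ?_, ?_⟩
  · intro g hg
    exact hfix ⟨QuotientGroup.mk' K g, hg⟩
  · rw [Subgroup.index_comap_of_surjective _ (QuotientGroup.mk'_surjective K)]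
    exact P.not_dvd_index

/-- **Detection by vectors in simple modules of the big group.** -/
theorem exists_vector {k : Type} [Field k] {𝔾 : Type} [Group 𝔾] {K D : Subgroup 𝔾}
    {S : Type} [AddCommGroup S] [Module k S] (σ : Representation k D S)
    [Module.Finite k S] (hD : D.index ≠ 0) (hK : K.Normal)
    (htriv : ∀ g ∈ K.subgroupOf D, ∀ x, σ g x = x) [Nontrivial S] (Pr : Subgroup 𝔾 → Prop)
    (hPr : ∀ (Q : Type) [AddCommGroup Q] [Module k Q] [Module.Finite k Q]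
      (τ : Representation k 𝔾 Q), (∀ g ∈ K, ∀ x, τ g x = x) → IsSimple τ →
      ∃ L, Pr L ∧ ∃ v : Q, v ≠ 0 ∧ L ≤ stab τ v) :
    ∃ (L : Subgroup 𝔾) (g : 𝔾), Pr L ∧
      coinv σ ((L.map (MulAut.conj g).toMonoidHom).subgroupOf D) ≠ ⊤ := by
  classical
  obtain ⟨s, hs⟩ := exists_ne (0 : S)
  obtain ⟨f₀, hf₀⟩ : ∃ f : S →ₗ[k] k, f s ≠ 0 := by
    by_contra h
    push Not at h
    exact hs ((Module.forall_dual_apply_eq_zero_iff k s).1 h)
  obtain ⟨V, i1, i2, i3, τ, ev, hev0, hev00, hτ, hev1, hev2, hev3⟩ := Y_pack σ hD hK htriv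
  obtain ⟨φ₀, hφ₀⟩ := hev3 f₀
  have hnt : Nontrivial V := by
    refine ⟨φ₀, 0, fun h => hf₀ ?_⟩
    rw [← hφ₀, h, hev00]
    rfl
  obtain ⟨U, hU, hU0, hsim⟩ := exists_simple_sub τ
  have hKU : ∀ κ ∈ K, ∀ x, sub τ hU κ x = x := by
    intro κ hκ x
    apply Subtype.ext
    rw [sub_coe]
    apply hev0
    intro y
    rw [hτ]
    have h1 : y * κ = (y * κ * y⁻¹) * y := by group
    rw [h1]
    exact hev2 _ _ (hK.conj_mem κ hκ y) y
  obtain ⟨L, hL, ψ, hψ0, hP⟩ := hPr U (sub τ hU) hKU hsim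
  obtain ⟨g, hg⟩ : ∃ g, ev ψ g ≠ 0 := by
    by_contra h
    push Not at h
    exact hψ0 (Subtype.ext (hev0 ψ 0 fun g => (h g).trans (hev00 g).symm))
  refine ⟨L, g, hL, fun htop => ?_⟩
  have hq1 : ev (τ g ψ) 1 ≠ 0 := by
    rw [hτ, one_mul]
    exact hg
  apply hq1
  have h1 : coinv σ ((L.map (MulAut.conj g).toMonoidHom).subgroupOf D) ≤
      LinearMap.ker (ev (τ g ψ) 1) := by
    rw [coinv, Submodule.span_le]
    rintro _ ⟨d, ⟨x, hx, hxd⟩, v, rfl⟩
    have h2 : τ (d : 𝔾) (τ g ψ) = τ g ψ := by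
      have h3 : τ x (ψ : V) = ψ := congrArg Subtype.val (hP hx)
      have h4 : (d : 𝔾) = g * x * g⁻¹ := hxd.symm
      rw [h4, ← Module.End.mul_apply, ← map_mul, inv_mul_cancel_right, map_mul,
        Module.End.mul_apply, h3]
    have h3 : ev (τ (d : 𝔾) (τ g ψ)) 1 = ev (τ g ψ) 1 := by rw [h2]
    rw [hτ, one_mul] at h3
    have h4 := hev1 (τ g ψ) d 1
    rw [mul_one, h3] at h4
    have h5 := LinearMap.congr_fun h4 (σ d v)
    rw [LinearMap.comp_apply, ← Module.End.mul_apply, ← map_mul, inv_mul_cancel, map_one] at h5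
    rw [SetLike.mem_coe, LinearMap.mem_ker, map_sub, sub_eq_zero]
    exact h5
  rw [htop, top_le_iff, LinearMap.ker_eq_top] at h1
  exact h1

end coind

end Pool.Agent.Q60.MU
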