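import Pool.Agent.Q60.MU.Grp

/-!
# The genus bound in Galois-theoretic form
-/

set_option autoImplicit false

namespace Pool.Agent.Q60.MU

open Subgroup
open scoped commutatorElement

variable {𝔾 : Type} [Group 𝔾]

/-- The `p`-th powers and commutators of elements of `K`, and the elements of `K` which lie in one
of the inertia groups. -/
def gens (p : ℕ) {Ω : Type} (I : Ω → Subgroup 𝔾) (K : Subgroup 𝔾) : Set 𝔾 :=
  {x | ∃ a ∈ K, x = a ^ p} ∪ {x | ∃ a ∈ K, ∃ b ∈ K, x = ⁅a, b⁆} ∪ {x | x ∈ K ∧ ∃ w, x ∈ I w}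

/-- Every open subgroup of finite index of `K` which contains the `p`-th powers, the commutators
and the elements of the inertia groups has index at most `C`. -/
def RankLe [TopologicalSpace 𝔾] (p : ℕ) {Ω : Type} (I : Ω → Subgroup 𝔾) (K : Subgroup 𝔾)
    (C : ℕ) : Prop :=
  ∀ W : Subgroup 𝔾, W ≤ K → IsOpen (W : Set 𝔾) → W.relIndex K ≠ 0 → gens p I K ⊆ W →
    W.relIndex K ≤ C

theorem genus [TopologicalSpace 𝔾] [ContinuousMul 𝔾] {p : ℕ} {Ω : Type} [MulAction 𝔾 Ω]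
    {I : Ω → Subgroup 𝔾} (hI : ∀ (g : 𝔾) (w : Ω), ∀ x ∈ I w, g * x * g⁻¹ ∈ I (g • w))
    {K L Q : Subgroup 𝔾} (hKL : K ≤ L) (hn : K.relIndex L ≠ 0)
    (hQK : Q ≤ K) (hQo : IsOpen (Q : Set 𝔾)) (hQf : Q.relIndex K ≠ 0)
    (hg : gens p I K ⊆ Q) (hc : ∀ l ∈ L, ∀ k ∈ K, ⁅l, k⁆ ∈ Q)
    (T : Finset Ω) (hT : ∀ w, I w ⊓ L ≤ K ∨ ∃ u ∈ T, ∃ l ∈ L, w = l • u)
    {C : ℕ} (hC : RankLe p I L C) : Q.relIndex K ≤ cst (K.relIndex L) T.card * C := by
  classical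
  have hQL : Q ≤ L := hQK.trans hKL
  have hN : (Q.subgroupOf L).Normal := by
    refine ⟨fun q hq l => ?_⟩
    rw [mem_subgroupOf] at hq ⊢
    have h1 : ((l * q * l⁻¹ : L) : 𝔾) = ⁅(l : 𝔾), (q : 𝔾)⁆ * q := by
      rw [commutatorElement_def]
      push_cast
      group
    rw [h1]
    exact Q.mul_mem (hc l l.2 q (hQK hq)) hq
  have hidx : (Q.subgroupOf L).index = Q.relIndex K * K.relIndex L :=
    (relIndex_mul_relIndex Q K L hQK hKL).symm
  have hfi : (Q.subgroupOf L).FiniteIndex := ⟨by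
    rw [hidx]
    exact mul_ne_zero hQf hn⟩
  have hfin : Finite (L ⧸ Q.subgroupOf L) := inferInstance
  let mk : L →* L ⧸ Q.subgroupOf L := QuotientGroup.mk' (Q.subgroupOf L)
  have hmk : Function.Surjective mk := QuotientGroup.mk'_surjective _
  have hker : mk.ker = Q.subgroupOf L := QuotientGroup.ker_mk' _
  have hmk1 : ∀ x : L, (x : 𝔾) ∈ Q → mk x = 1 := by
    intro x hx
    have h1 : x ∈ mk.ker := by
      rw [hker]
      exact hx
    exact h1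
  have hmk2 : ∀ x : L, mk x = 1 → (x : 𝔾) ∈ Q := by
    intro x hx
    have h1 : x ∈ mk.ker := hx
    rw [hker] at h1
    exact h1
  let E : Subgroup (L ⧸ Q.subgroupOf L) := (K.subgroupOf L).map mk
  let J : Ω → Subgroup (L ⧸ Q.subgroupOf L) := fun w => ((I w).subgroupOf L).map mk
  have hIK : ∀ w, ∀ x : L, (x : 𝔾) ∈ I w → (x : 𝔾) ∈ K → mk x = 1 := by
    intro w x hx hxK
    exact hmk1 x (hg (Or.inr ⟨hxK, w, hx⟩))
  have hE : E ≤ center _ := by
    rintro _ ⟨k, hk, rfl⟩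
    rw [mem_center_iff]
    intro g
    obtain ⟨l, rfl⟩ := hmk g
    rw [← map_mul, ← map_mul]
    have h1 : mk ((l * k) * (k * l)⁻¹) = 1 := by
      apply hmk1
      have h2 : (((l * k) * (k * l)⁻¹ : L) : 𝔾) = ⁅(l : 𝔾), (k : 𝔾)⁆ := by
        rw [commutatorElement_def]
        push_cast
        group
      rw [h2]
      exact hc l l.2 k hk
    rw [map_mul, map_inv] at h1
    exact mul_inv_eq_one.1 h1
  have hEp : ∀ e ∈ E, e ^ p = 1 := by
    rintro _ ⟨k, hk, rfl⟩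
    rw [← map_pow]
    apply hmk1
    exact hg (Or.inl (Or.inl ⟨k, hk, by push_cast; rfl⟩))
  have hJ : ∀ w, J w ⊓ E = ⊥ := by
    intro w
    rw [eq_bot_iff]
    rintro _ ⟨⟨a, ha, rfl⟩, k, hk, hak⟩
    rw [mem_bot]
    apply hIK w a ha
    have h1 : mk (a * k⁻¹) = 1 := by
      rw [map_mul, map_inv, hak, mul_inv_cancel]
    have h2 := hQK (hmk2 _ h1)
    have h3 : (a : 𝔾) = ((a * k⁻¹ : L) : 𝔾) * k := by
      push_cast
      group
    rw [h3]
    exact K.mul_mem h2 hk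
  have hT' : ∀ w, J w = ⊥ ∨ ∃ u ∈ T, ∃ g, ∀ x ∈ J w, g * x * g⁻¹ ∈ J u := by
    intro w
    rcases hT w with h | ⟨u, hu, l, hl, rfl⟩
    · left
      rw [eq_bot_iff]
      rintro _ ⟨a, ha, rfl⟩
      rw [mem_bot]
      exact hIK w a ha (h ⟨ha, a.2⟩)
    · right
      refine ⟨u, hu, mk (⟨l, hl⟩ : L)⁻¹, ?_⟩
      rintro _ ⟨a, ha, rfl⟩
      refine ⟨(⟨l, hl⟩ : L)⁻¹ * a * ((⟨l, hl⟩ : L)⁻¹)⁻¹, ?_, ?_⟩
      · have h1 := hI l⁻¹ (l • u) a ha
        rw [inv_smul_smul] at h1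
        show (((⟨l, hl⟩ : L)⁻¹ * a * ((⟨l, hl⟩ : L)⁻¹)⁻¹ : L) : 𝔾) ∈ I u
        push_cast
        exact h1
      · simp only [map_mul, map_inv]
  have hEi : E.index = K.relIndex L := by
    show ((K.subgroupOf L).map mk).index = (K.subgroupOf L).index
    have h1 : mk.ker ≤ K.subgroupOf L := by
      rw [hker]
      intro x hx
      exact hQK hx
    rw [index_map, sup_eq_left.2 h1, MonoidHom.range_eq_top.2 hmk, index_top, mul_one]
  have hR := card_R_le p E hE hEp J hJ T hT'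
  set R : Subgroup (L ⧸ Q.subgroupOf L) := Subgroup.closure
    ({x | ∃ a, x = a ^ p} ∪ {x | ∃ a b : L ⧸ Q.subgroupOf L, x = ⁅a, b⁆} ∪
      {x | ∃ w, x ∈ J w}) with hRdef
  rw [hEi] at hR
  have hsub : ∀ x : L, mk x ∈ R → (x : 𝔾) ∈ (R.comap mk).map L.subtype :=
    fun x hx => ⟨x, hx, rfl⟩
  have h1 : (R.comap mk).map L.subtype ≤ L := by
    rintro _ ⟨x, _, rfl⟩
    exact x.2
  have h2 : Q ≤ (R.comap mk).map L.subtype := by
    intro q hq
    refine hsub ⟨q, hQL hq⟩ ?_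
    rw [hmk1 ⟨q, hQL hq⟩ hq]
    exact R.one_mem
  have h3 : ((R.comap mk).map L.subtype).relIndex L = R.index := by
    show (((R.comap mk).map L.subtype).comap L.subtype).index = R.index
    rw [comap_map_eq_self_of_injective L.subtype_injective, index_comap_of_surjective R hmk]
  have h4 : gens p I L ⊆ (R.comap mk).map L.subtype := by
    rintro x ((⟨a, ha, rfl⟩ | ⟨a, ha, b, hb, rfl⟩) | ⟨hx, w, hw⟩)
    · refine hsub (⟨a, ha⟩ ^ p) (Subgroup.subset_closure (Or.inl (Or.inl ⟨mk ⟨a, ha⟩, ?_⟩)))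
      rw [map_pow]
    · refine hsub ⁅(⟨a, ha⟩ : L), (⟨b, hb⟩ : L)⁆
        (Subgroup.subset_closure (Or.inl (Or.inr ⟨mk ⟨a, ha⟩, mk ⟨b, hb⟩, ?_⟩)))
      rw [map_commutatorElement]
    · exact hsub ⟨x, hx⟩ (Subgroup.subset_closure (Or.inr ⟨w, ⟨x, hx⟩, hw, rfl⟩))
  have h5 := hC _ h1 (Subgroup.isOpen_mono h2 hQo) (by
    rw [h3]
    exact R.index_ne_zero_of_finite) h4
  rw [h3] at h5
  have h6 : Nat.card (L ⧸ Q.subgroupOf L) = Q.relIndex K * K.relIndex L := hidx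
  have h7 := R.card_mul_index
  calc Q.relIndex K ≤ Q.relIndex K * K.relIndex L :=
        Nat.le_mul_of_pos_right _ (Nat.pos_of_ne_zero hn)
    _ = Nat.card R * R.index := by rw [h7, h6]
    _ ≤ cst (K.relIndex L) T.card * C := Nat.mul_le_mul hR h5

end Pool.Agent.Q60.MU
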