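import Pool.Agent.Q60.MU.Alg
import Pool.Agent.Q60.MU.Genus

/-!
# Stable cores and the representation on an elementary abelian quotient
-/

set_option autoImplicit false

namespace Pool.Agent.Q60.MU

open Subgroup Module
open scoped commutatorElement

variable {𝔾 : Type} [Group 𝔾]

theorem gens_conj {p : ℕ} {Ω : Type} [MulAction 𝔾 Ω] {I : Ω → Subgroup 𝔾}
    (hI : ∀ (g : 𝔾) (w : Ω), ∀ x ∈ I w, g * x * g⁻¹ ∈ I (g • w)) {K : Subgroup 𝔾} {d : 𝔾}
    (hd : ∀ x ∈ K, d * x * d⁻¹ ∈ K) {y : 𝔾} (hy : y ∈ gens p I K) :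
    d * y * d⁻¹ ∈ gens p I K := by
  rcases hy with (⟨a, ha, rfl⟩ | ⟨a, ha, b, hb, rfl⟩) | ⟨hx, w, hw⟩
  · refine Or.inl (Or.inl ⟨d * a * d⁻¹, hd a ha, ?_⟩)
    rw [conj_pow]
  · refine Or.inl (Or.inr ⟨d * a * d⁻¹, hd a ha, d * b * d⁻¹, hd b hb, ?_⟩)
    rw [commutatorElement_def, commutatorElement_def]
    group
  · exact Or.inr ⟨hd y hx, d • w, hI d w y hw⟩

/-- A stable subgroup below a given one. -/
theorem exists_core [TopologicalSpace 𝔾] [ContinuousMul 𝔾] {p : ℕ} {Ω : Type} [MulAction 𝔾 Ω]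
    {I : Ω → Subgroup 𝔾} (hI : ∀ (g : 𝔾) (w : Ω), ∀ x ∈ I w, g * x * g⁻¹ ∈ I (g • w))
    {K D W : Subgroup 𝔾} (hKn : ∀ d ∈ D, ∀ x ∈ K, d * x * d⁻¹ ∈ K)
    (hn : K.relIndex D ≠ 0) (hWK : W ≤ K) (hWo : IsOpen (W : Set 𝔾)) (hWf : W.relIndex K ≠ 0)
    (hg : gens p I K ⊆ W) :
    ∃ W' : Subgroup 𝔾, W' ≤ W ∧ IsOpen (W' : Set 𝔾) ∧ W'.relIndex K ≠ 0 ∧ gens p I K ⊆ W' ∧
      ∀ d ∈ D, ∀ x ∈ W', d * x * d⁻¹ ∈ W' := by
  classical
  have hfi : (K.subgroupOf D).FiniteIndex := ⟨hn⟩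
  have hfin : Finite (D ⧸ K.subgroupOf D) := inferInstance
  let r : D ⧸ K.subgroupOf D → 𝔾 := fun q => ((q.out : D) : 𝔾)⁻¹
  have hrD : ∀ q, r q ∈ D := fun q => D.inv_mem q.out.2
  let f : D ⧸ K.subgroupOf D → (𝔾 →* 𝔾) := fun q => (MulAut.conj (r q)).toMonoidHom
  have hf : ∀ q x, f q x = r q * x * (r q)⁻¹ := fun q x => rfl
  let W' : Subgroup 𝔾 := ⨅ q, W.comap (f q)
  have hmem : ∀ x, x ∈ W' ↔ ∀ q, r q * x * (r q)⁻¹ ∈ W := by
    intro x
    show x ∈ (⨅ q, W.comap (f q)) ↔ _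
    rw [mem_iInf]
    rfl
  have key : ∀ x ∈ W', ∀ d ∈ D, d * x * d⁻¹ ∈ W := by
    intro x hx d hd
    obtain ⟨κ, hκ⟩ := QuotientGroup.mk_out_eq_mul (K.subgroupOf D) (⟨d, hd⟩ : D)⁻¹
    set q : D ⧸ K.subgroupOf D := (((⟨d, hd⟩ : D)⁻¹ : D) : D ⧸ K.subgroupOf D) with hq
    have h1 := (hmem x).1 hx q
    have h2 : r q = (((κ : D) : 𝔾))⁻¹ * d := by
      show ((q.out : D) : 𝔾)⁻¹ = _
      rw [hκ]
      push_cast
      group
    have h3 : (((κ : D) : 𝔾)) ∈ K := κ.2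
    have h4 : d * x * d⁻¹ = ⁅((κ : D) : 𝔾), r q * x * (r q)⁻¹⁆ * (r q * x * (r q)⁻¹) := by
      rw [commutatorElement_def, h2]
      group
    rw [h4]
    exact W.mul_mem (hg (Or.inl (Or.inr ⟨_, h3, _, hWK h1, rfl⟩))) h1
  refine ⟨W', ?_, ?_, ?_, ?_, ?_⟩
  · intro x hx
    have h1 := key x hx 1 D.one_mem
    rwa [one_mul, inv_one, mul_one] at h1
  · have h1 : (W' : Set 𝔾) = ⋂ q, {x | r q * x * (r q)⁻¹ ∈ W} := by
      ext x
      rw [SetLike.mem_coe, hmem, Set.mem_iInter]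
      rfl
    rw [h1]
    refine isOpen_iInter_of_finite fun q => ?_
    exact hWo.preimage ((continuous_const.mul continuous_id).mul continuous_const)
  · refine relIndex_iInf_ne_zero fun q => ?_
    rw [relIndex_comap]
    have h1 : K.map (f q) = K := by
      apply le_antisymm
      · rintro _ ⟨x, hx, rfl⟩
        exact hKn _ (hrD q) x hx
      · intro x hx
        refine ⟨(r q)⁻¹ * x * ((r q)⁻¹)⁻¹, hKn _ (D.inv_mem (hrD q)) x hx, ?_⟩
        rw [hf]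
        group
    rw [h1]
    exact hWf
  · intro y hy
    rw [SetLike.mem_coe, hmem]
    intro q
    exact hg (gens_conj hI (hKn _ (hrD q)) hy)
  · intro d hd x hx
    rw [hmem]
    intro q
    have h1 : r q * (d * x * d⁻¹) * (r q)⁻¹ = (r q * d) * x * (r q * d)⁻¹ := by group
    rw [h1]
    exact key x hx _ (D.mul_mem (hrD q) hd)

theorem rep_aux {k : Type} [Field k] {Q : Type} [AddCommGroup Q] [Module k Q] {D : Type} [Group D]
    (act : D → (Q →ₗ[k] Q)) (h1 : ∀ x, act 1 x = x)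
    (hm : ∀ d e x, act (d * e) x = act d (act e x)) :
    ∃ ρ : Representation k D Q, ∀ (d : D) (x : Q), ρ d x = act d x :=
  ⟨{ toFun := act
     map_one' := LinearMap.ext h1
     map_mul' := fun d e => LinearMap.ext (hm d e) }, fun _ _ => rfl⟩

theorem rep_of_comm {p : ℕ} [Fact p.Prime] {Q : Type} [AddCommGroup Q] [Finite Q]
    (hp : ∀ x : Q, p • x = 0) {D : Type} [Group D] (act : D → (Q →+ Q))
    (h1 : ∀ x, act 1 x = x) (hm : ∀ d e x, act (d * e) x = act d (act e x)) :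
    ∃ (_ : Module (ZMod p) Q) (_ : Module.Finite (ZMod p) Q)
      (ρ : Representation (ZMod p) D Q), ∀ (d : D) (x : Q), ρ d x = act d x := by
  let md : Module (ZMod p) Q := AddCommGroup.zmodModule hp
  have hmf : Module.Finite (ZMod p) Q := Module.Finite.of_finite
  obtain ⟨ρ, hρ⟩ := rep_aux (k := ZMod p) (Q := Q) (D := D) (fun d => (act d).toZModLinearMap p)
    (fun x => h1 x) (fun d e x => hm d e x)
  exact ⟨md, hmf, ρ, fun d x => hρ d x⟩

/-- The representation on `K/W`. -/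
theorem exists_rep {p : ℕ} [Fact p.Prime] {Ω : Type} {I : Ω → Subgroup 𝔾}
    {K D W : Subgroup 𝔾} (hKD : K ≤ D) (hKn : ∀ d ∈ D, ∀ x ∈ K, d * x * d⁻¹ ∈ K)
    (hWf : W.relIndex K ≠ 0) (hg : gens p I K ⊆ W)
    (hWn : ∀ d ∈ D, ∀ x ∈ W, d * x * d⁻¹ ∈ W) :
    ∃ (V : Type) (_ : AddCommGroup V) (_ : Module (ZMod p) V) (_ : Module.Finite (ZMod p) V)
      (ρ : Representation (ZMod p) D V) (π : K → V), Function.Surjective π ∧
      (∀ x y, π (x * y) = π x + π y) ∧ (∀ x, π x = 0 ↔ (x : 𝔾) ∈ W) ∧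
      ∀ (d : D) (x : K), ρ d (π x) = π ⟨d * x * (d : 𝔾)⁻¹, hKn d d.2 x x.2⟩ := by
  classical
  have hN : (W.subgroupOf K).Normal := ⟨fun q hq l => hWn l (hKD l.2) q hq⟩
  have hfi : (W.subgroupOf K).FiniteIndex := ⟨hWf⟩
  let cg : CommGroup (K ⧸ W.subgroupOf K) :=
    { (inferInstance : Group (K ⧸ W.subgroupOf K)) with
      mul_comm := by
        intro a b
        obtain ⟨x, rfl⟩ := QuotientGroup.mk_surjective a
        obtain ⟨y, rfl⟩ := QuotientGroup.mk_surjective b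
        refine QuotientGroup.eq.2 ?_
        have h1 : (((x * y)⁻¹ * (y * x) : K) : 𝔾) = ⁅((y⁻¹ : K) : 𝔾), ((x⁻¹ : K) : 𝔾)⁆ := by
          rw [commutatorElement_def]
          push_cast
          group
        show (((x * y)⁻¹ * (y * x) : K) : 𝔾) ∈ W
        rw [h1]
        exact hg (Or.inl (Or.inr ⟨_, (y⁻¹).2, _, (x⁻¹).2, rfl⟩)) }
  have hp : ∀ x : K ⧸ W.subgroupOf K, x ^ p = 1 := by
    intro x
    obtain ⟨y, rfl⟩ := QuotientGroup.mk_surjective x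
    show ((y ^ p : K) : K ⧸ W.subgroupOf K) = 1
    rw [QuotientGroup.eq_one_iff]
    show ((y ^ p : K) : 𝔾) ∈ W
    exact hg (Or.inl (Or.inl ⟨y, y.2, by push_cast; rfl⟩))
  let cj : D → (K →* K) := fun d =>
    { toFun := fun x => ⟨d * x * (d : 𝔾)⁻¹, hKn d d.2 x x.2⟩
      map_one' := Subtype.ext (by simp)
      map_mul' := fun x y => Subtype.ext (by
        show (d : 𝔾) * (x * y) * (d : 𝔾)⁻¹ = (d * x * (d : 𝔾)⁻¹) * (d * y * (d : 𝔾)⁻¹)
        group) }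
  have hcj : ∀ d, W.subgroupOf K ≤ (W.subgroupOf K).comap (cj d) :=
    fun d x hx => hWn d d.2 x hx
  let act : D → (K ⧸ W.subgroupOf K →* K ⧸ W.subgroupOf K) := fun d =>
    QuotientGroup.map _ _ (cj d) (hcj d)
  have h1 : ∀ x, act 1 x = x := by
    intro x
    obtain ⟨y, rfl⟩ := QuotientGroup.mk_surjective x
    show (((cj 1 y : K) : K ⧸ W.subgroupOf K)) = y
    have h1 : cj 1 y = y := Subtype.ext (by
      show ((1 : D) : 𝔾) * y * ((1 : D) : 𝔾)⁻¹ = y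
      push_cast
      group)
    rw [h1]
  have hm : ∀ d e x, act (d * e) x = act d (act e x) := by
    intro d e x
    obtain ⟨y, rfl⟩ := QuotientGroup.mk_surjective x
    show (((cj (d * e) y : K) : K ⧸ W.subgroupOf K)) =
      (((cj d (cj e y) : K) : K ⧸ W.subgroupOf K))
    have h1 : cj (d * e) y = cj d (cj e y) := Subtype.ext (by
      show ((d * e : D) : 𝔾) * y * ((d * e : D) : 𝔾)⁻¹ =
        (d : 𝔾) * (e * y * (e : 𝔾)⁻¹) * (d : 𝔾)⁻¹
      push_cast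
      group)
    rw [h1]
  let ag : AddCommGroup (Additive (K ⧸ W.subgroupOf K)) := Additive.addCommGroup
  have hfin : Finite (Additive (K ⧸ W.subgroupOf K)) :=
    inferInstanceAs (Finite (K ⧸ W.subgroupOf K))
  obtain ⟨i2, i3, ρ, hρ⟩ := rep_of_comm (Q := Additive (K ⧸ W.subgroupOf K)) (p := p) hp
    (fun d => MonoidHom.toAdditive (act d)) h1 hm
  refine ⟨Additive (K ⧸ W.subgroupOf K), ag, i2, i3, ρ,
    fun x => Additive.ofMul (x : K ⧸ W.subgroupOf K), ?_, ?_, ?_, ?_⟩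
  · exact QuotientGroup.mk_surjective
  · intro x y
    rfl
  · intro x
    exact QuotientGroup.eq_one_iff x
  · intro d x
    exact hρ d _

end Pool.Agent.Q60.MU
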