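import Pool.Agent.Q60.MU.Fields

/-!
# The explicit relative bound
-/

set_option autoImplicit false

namespace Pool.Agent.Q60.MU

open Subgroup Module IntermediateField
open scoped Pointwise

section

variable {k : Type} [Field k] {G : Type} [Group G] {S : Type} [AddCommGroup S] [Module k S]

/-- The subgroup `H` acts trivially. -/
def TrivialOn (H : Subgroup G) (σ : Representation k G S) : Prop := ∀ g ∈ H, ∀ x, σ g x = x

/-- There is a nonzero linear form which is invariant under the subgroup `H`. -/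
def HasForm (H : Subgroup G) (σ : Representation k G S) : Prop :=
  ∃ f : S →ₗ[k] k, f ≠ 0 ∧ ∀ g ∈ H, ∀ x, f (σ g x) = f x

end

/-- Every simple representation of `D` over `k` on which `H` acts trivially has a nonzero linear
form which is invariant under `K ∩ D`, for some `K` in the finite set `𝓗`. -/
def FormsFor (k : Type) [Field k] {G : Type} [Group G] (D H : Subgroup G)
    (𝓗 : Set (Subgroup G)) : Prop :=
  ∀ (S : Type) [AddCommGroup S] [Module k S] [Module.Finite k S] (σ : Representation k D S),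
    TrivialOn (H.subgroupOf D) σ → IsSimple σ → ∃ K ∈ 𝓗, HasForm (K.subgroupOf D) σ

/-- Every simple representation of `Gal(N/F)` over `𝔽_p` has a nonzero linear form which is
invariant under `Gal(N/E)`, for some `E` in the finite set `𝓔` of intermediate fields. -/
def DetectingForms (p : ℕ) [Fact p.Prime] (F N : IntermediateField ℚ Qb)
    (𝓔 : Finset (IntermediateField ℚ Qb)) : Prop :=
  (∀ E ∈ 𝓔, F ≤ E ∧ E ≤ N) ∧
    FormsFor (ZMod p) F.fixingSubgroup N.fixingSubgroup {K | ∃ E ∈ 𝓔, K = E.fixingSubgroup}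

/-- At most `t` primes of `F` are ramified in `N`. -/
def RamLe (F N : IntermediateField ℚ Qb) (t : ℕ) : Prop :=
  ∃ T : Finset (ValuationSubring Qb), T.card ≤ t ∧ ∀ A,
    (∀ σ ∈ inertia A, σ ∈ F.fixingSubgroup → σ ∈ N.fixingSubgroup) ∨
      ∃ B ∈ T, ∃ σ ∈ F.fixingSubgroup, A = σ • B

/-- `N` is a number field which is a Galois extension of `F` of degree `n`. -/
def GaloisOfDegree (F N : IntermediateField ℚ Qb) (n : ℕ) : Prop :=
  FiniteDimensional ℚ N ∧ F ≤ N ∧ (∀ σ ∈ F.fixingSubgroup, ∀ x ∈ N, σ x ∈ N) ∧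
    finrank ℚ N = n * finrank ℚ F

theorem explicit (p : ℕ) [Fact p.Prime] (F N : IntermediateField ℚ Qb)
    (hF : FiniteDimensional ℚ F) (hN : FiniteDimensional ℚ N) (hFN : F ≤ N)
    (hNn : ∀ σ ∈ F.fixingSubgroup, ∀ x ∈ N, σ x ∈ N)
    {n : ℕ} (hn : finrank ℚ N = n * finrank ℚ F)
    (𝓔 : Finset (IntermediateField ℚ Qb)) (hdet : DetectingForms p F N 𝓔)
    {t : ℕ} (ht : RamLe F N t) {C : ℕ} (hC : ∀ E ∈ 𝓔, DegLe p E C) :
    DegLe p N ((cst n (n * t) * C) ^ (n * 𝓔.card)) := by
  classical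
  obtain ⟨T, hTt, hT⟩ := ht
  have hfd : ∀ E : IntermediateField ℚ Qb, E ≤ N → FiniteDimensional ℚ E := fun E hE =>
    Submodule.finiteDimensional_of_le (S₁ := Subalgebra.toSubmodule E.toSubalgebra)
      (S₂ := Subalgebra.toSubmodule N.toSubalgebra) hE
  have hle : N.fixingSubgroup ≤ F.fixingSubgroup := fixingSubgroup_le hFN
  have hmul := relIndex_mul_index hle
  have hidx : N.fixingSubgroup.relIndex F.fixingSubgroup = n := by
    rw [finrank_eq_fixingSubgroup_index, finrank_eq_fixingSubgroup_index, ← hmul] at hn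
    exact Nat.eq_of_mul_eq_mul_right (Nat.pos_of_ne_zero (index_ne_zero' F)) hn
  have hidx0 : N.fixingSubgroup.relIndex F.fixingSubgroup ≠ 0 := by
    intro h
    rw [h, zero_mul] at hmul
    exact index_ne_zero' N hmul.symm
  rw [← rankLe_iff]
  have hinj : Set.InjOn (fun E : IntermediateField ℚ Qb => E.fixingSubgroup)
      (𝓔 : Set (IntermediateField ℚ Qb)) := by
    intro E _ E' _ h
    have h1 : E.fixingSubgroup = E'.fixingSubgroup := h
    rw [← InfiniteGalois.fixedField_fixingSubgroup E, h1,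
      InfiniteGalois.fixedField_fixingSubgroup]
  have hcard : (𝓔.image fun E : IntermediateField ℚ Qb => E.fixingSubgroup).card = 𝓔.card :=
    Finset.card_image_of_injOn hinj
  have h := main_ineq (p := p) (I := inertia) inertia_conj (K := N.fixingSubgroup)
    (D := F.fixingSubgroup) hle (by
      intro d hd x hx
      refine (mem_fixingSubgroup_iff _ _).2 fun y hy => ?_
      have h1 : d⁻¹ y ∈ N := hNn _ (inv_mem hd) y hy
      have h2 : x (d⁻¹ y) = d⁻¹ y := (mem_fixingSubgroup_iff _ _).1 hx _ h1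
      show d (x (d⁻¹ y)) = y
      rw [h2, ← AlgEquiv.mul_apply, mul_inv_cancel, AlgEquiv.one_apply]) hidx0 hidx.le
    (𝓔.image fun E : IntermediateField ℚ Qb => E.fixingSubgroup) (by
      intro L hL
      obtain ⟨E, hE, rfl⟩ := Finset.mem_image.1 hL
      exact ⟨fixingSubgroup_le (hdet.1 E hE).2, fixingSubgroup_le (hdet.1 E hE).1⟩) (by
      intro S _ _ _ σ htriv hs
      obtain ⟨_, ⟨E, hE, rfl⟩, f, hf, hinv⟩ := hdet.2 S σ (fun g hg => htriv g hg) hs
      refine ⟨E.fixingSubgroup, Finset.mem_image.2 ⟨E, hE, rfl⟩, fun htop => hf ?_⟩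
      have h1 : coinv σ (E.fixingSubgroup.subgroupOf F.fixingSubgroup) ≤ LinearMap.ker f := by
        rw [coinv, Submodule.span_le]
        rintro _ ⟨g, hg, v, rfl⟩
        rw [SetLike.mem_coe, LinearMap.mem_ker, map_sub, hinv g hg v, sub_self]
      rw [htop, top_le_iff, LinearMap.ker_eq_top] at h1
      exact h1) T hTt (by
      intro A
      refine (hT A).imp (fun h => ?_) id
      rintro σ ⟨h1, h2⟩
      exact h σ h1 h2) (C := C) (by
      intro L hL
      obtain ⟨E, hE, rfl⟩ := Finset.mem_image.1 hL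
      have := hfd E (hdet.1 E hE).2
      exact (rankLe_iff E C).2 (hC E hE))
  rwa [hcard] at h

end Pool.Agent.Q60.MU
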