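import Pool.Agent.Q60.MU.Fields2

/-!
# Primes above `p` split completely, or are allowed to ramify; totally real fields
-/

set_option autoImplicit false

namespace Pool.Agent.Q60.MU

open Subgroup Module IntermediateField
open scoped Pointwise

open Classical in
/-- the decomposition group of a valuation ring above `p`, and the inertia group of the other
valuation rings -/
noncomputable def splitGroup (p : ℕ) (A : ValuationSubring Qb) : Subgroup Gal(Qb/ℚ) :=
  if (p : Qb) ∈ A.nonunits then MulAction.stabilizer Gal(Qb/ℚ) A else inertia A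

open Classical in
/-- the trivial group for a valuation ring above `p`, and the inertia group of the other
valuation rings -/
noncomputable def awayGroup (p : ℕ) (A : ValuationSubring Qb) : Subgroup Gal(Qb/ℚ) :=
  if (p : Qb) ∈ A.nonunits then ⊥ else inertia A

theorem smul_nonunits (p : ℕ) (g : Gal(Qb/ℚ)) (A : ValuationSubring Qb) :
    (p : Qb) ∈ (g • A).nonunits ↔ (p : Qb) ∈ A.nonunits := by
  rw [ValuationSubring.mem_nonunits_iff_or, ValuationSubring.mem_nonunits_iff_or]
  have h1 : ((p : Qb))⁻¹ = g • ((p : Qb))⁻¹ := by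
    show ((p : Qb))⁻¹ = g ((p : Qb))⁻¹
    rw [map_inv₀, map_natCast]
  have h2 : ((p : Qb))⁻¹ ∈ g • A ↔ ((p : Qb))⁻¹ ∈ A := by
    conv_lhs => rw [h1]
    exact ValuationSubring.smul_mem_pointwise_smul_iff
  rw [h2]

theorem split_conj (p : ℕ) (g : Gal(Qb/ℚ)) (A : ValuationSubring Qb) :
    ∀ σ ∈ splitGroup p A, g * σ * g⁻¹ ∈ splitGroup p (g • A) := by
  classical
  intro σ hσ
  unfold splitGroup at hσ ⊢
  by_cases h : (p : Qb) ∈ A.nonunits
  · rw [if_pos h] at hσ
    rw [if_pos ((smul_nonunits p g A).2 h), MulAction.mem_stabilizer_iff, mul_smul, mul_smul,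
      inv_smul_smul, MulAction.mem_stabilizer_iff.1 hσ]
  · rw [if_neg h] at hσ
    rw [if_neg (fun h' => h ((smul_nonunits p g A).1 h'))]
    exact inertia_conj g A σ hσ

theorem away_conj (p : ℕ) (g : Gal(Qb/ℚ)) (A : ValuationSubring Qb) :
    ∀ σ ∈ awayGroup p A, g * σ * g⁻¹ ∈ awayGroup p (g • A) := by
  classical
  intro σ hσ
  unfold awayGroup at hσ ⊢
  by_cases h : (p : Qb) ∈ A.nonunits
  · rw [if_pos h, Subgroup.mem_bot] at hσ
    rw [if_pos ((smul_nonunits p g A).2 h), Subgroup.mem_bot, hσ, mul_one, mul_inv_cancel]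
  · rw [if_neg h] at hσ
    rw [if_neg (fun h' => h ((smul_nonunits p g A).1 h'))]
    exact inertia_conj g A σ hσ

theorem split_tame (p : ℕ) : Tame (splitGroup p) p := by
  classical
  intro A h
  unfold splitGroup
  rw [if_neg h]

theorem away_tame (p : ℕ) : Tame (awayGroup p) p := by
  classical
  intro A h
  unfold awayGroup
  rw [if_neg h]

/-- the field of totally real algebraic numbers -/
def Qtr : IntermediateField ℚ Qb where
  carrier := {x | ∀ φ : Qb →+* ℂ, (φ x).im = 0}
  mul_mem' := by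
    intro a b ha hb φ
    rw [map_mul, Complex.mul_im, ha φ, hb φ, mul_zero, zero_mul, add_zero]
  add_mem' := by
    intro a b ha hb φ
    rw [map_add, Complex.add_im, ha φ, hb φ, add_zero]
  algebraMap_mem' := by
    intro r φ
    have h1 : φ (algebraMap ℚ Qb r) = ((r : ℝ) : ℂ) := by
      rw [← RingHom.comp_apply, eq_ratCast]
      push_cast
      rfl
    rw [h1, Complex.ofReal_im]
  inv_mem' := by
    intro a ha φ
    rw [map_inv₀, Complex.inv_im, ha φ, neg_zero, zero_div]

theorem mem_Qtr {x : Qb} : x ∈ Qtr ↔ ∀ φ : Qb →+* ℂ, (φ x).im = 0 := Iff.rfl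

theorem Qtr_normal : Qtr.fixingSubgroup.Normal := by
  refine ⟨fun g hg σ => ?_⟩
  refine (mem_fixingSubgroup_iff _ _).2 fun x hx => ?_
  have h1 : σ⁻¹ x ∈ Qtr := by
    rw [mem_Qtr]
    intro φ
    exact hx (φ.comp ((σ⁻¹ : Gal(Qb/ℚ)) : Qb →+* Qb))
  have h2 : g (σ⁻¹ x) = σ⁻¹ x := (mem_fixingSubgroup_iff _ _).1 hg _ h1
  show σ (g (σ⁻¹ x)) = x
  rw [h2, ← AlgEquiv.mul_apply, mul_inv_cancel, AlgEquiv.one_apply]

end Pool.Agent.Q60.MU
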