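import Pool.Agent.Q60.MU.Explicit
import Pool.Agent.Q60.MU.Fams

/-!
# The explicit relative bound with other local conditions
-/

set_option autoImplicit false

namespace Pool.Agent.Q60.MU

open Subgroup Module IntermediateField
open scoped Pointwise

variable {I : ValuationSubring Qb → Subgroup Gal(Qb/ℚ)}

/-- The valuation rings `A` for which `I A ∩ Gal(ℚ̄/F)` is not trivial on `N` form at most `t`
orbits under `Gal(ℚ̄/F)`. -/
def RamLeFor (I : ValuationSubring Qb → Subgroup Gal(Qb/ℚ)) (F N : IntermediateField ℚ Qb)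
    (t : ℕ) : Prop :=
  ∃ T : Finset (ValuationSubring Qb), T.card ≤ t ∧ ∀ A,
    (∀ σ ∈ I A, σ ∈ F.fixingSubgroup → σ ∈ N.fixingSubgroup) ∨
      ∃ B ∈ T, ∃ σ ∈ F.fixingSubgroup, A = σ • B

theorem explicitFor (p : ℕ) [Fact p.Prime]
    (hI : ∀ (g : Gal(Qb/ℚ)) (A : ValuationSubring Qb), ∀ σ ∈ I A, g * σ * g⁻¹ ∈ I (g • A))
    (F N : IntermediateField ℚ Qb) {n : ℕ} (hG : GaloisOfDegree F N n)
    (𝓔 : Finset (IntermediateField ℚ Qb)) (hdet : DetectingForms p F N 𝓔)
    {t : ℕ} (ht : RamLeFor I F N t) (C : ℕ) :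
    ((∀ E ∈ 𝓔, DegLeFor I p E C) →
      DegLeFor I p N ((n ^ (n ^ 3 + n * t + 2) * C) ^ (n * 𝓔.card))) ∧
    (DegLeFor I p N C → ∀ E : IntermediateField ℚ Qb, F ≤ E → E ≤ N →
      DegLeFor I p E (C * n)) := by
  classical
  obtain ⟨hN, hFN, hNn, hn⟩ := hG
  have hc : n ^ (n ^ 3 + n * t + 2) = cst n (n * t) := by
    unfold cst
    ring
  obtain ⟨T, hTt, hT⟩ := ht
  have hfd : ∀ E : IntermediateField ℚ Qb, E ≤ N → FiniteDimensional ℚ E := fun E hE =>
    Submodule.finiteDimensional_of_le (S₁ := Subalgebra.toSubmodule E.toSubalgebra)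
      (S₂ := Subalgebra.toSubmodule N.toSubalgebra) hE
  have hF := hfd F hFN
  have hle : N.fixingSubgroup ≤ F.fixingSubgroup := fixingSubgroup_le hFN
  have hmul := relIndex_mul_index hle
  have hidx : N.fixingSubgroup.relIndex F.fixingSubgroup = n := by
    rw [finrank_eq_fixingSubgroup_index, finrank_eq_fixingSubgroup_index, ← hmul] at hn
    exact Nat.eq_of_mul_eq_mul_right (Nat.pos_of_ne_zero (index_ne_zero' F)) hn
  have hidx0 : N.fixingSubgroup.relIndex F.fixingSubgroup ≠ 0 := by
    intro h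
    rw [h, zero_mul] at hmul
    exact index_ne_zero' N hmul.symm
  refine ⟨fun hC => ?_, fun hC E hFE hEN => ?_⟩
  · rw [hc, ← rankLeFor_iff]
    have hinj : Set.InjOn (fun E : IntermediateField ℚ Qb => E.fixingSubgroup)
        (𝓔 : Set (IntermediateField ℚ Qb)) := by
      intro E _ E' _ h
      have h1 : E.fixingSubgroup = E'.fixingSubgroup := h
      rw [← InfiniteGalois.fixedField_fixingSubgroup E, h1,
        InfiniteGalois.fixedField_fixingSubgroup]
    have hcard : (𝓔.image fun E : IntermediateField ℚ Qb => E.fixingSubgroup).card = 𝓔.card :=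
      Finset.card_image_of_injOn hinj
    have h := main_ineq (p := p) (I := I) hI (K := N.fixingSubgroup)
      (D := F.fixingSubgroup) hle (by
        intro d hd x hx
        refine (mem_fixingSubgroup_iff _ _).2 fun y hy => ?_
        have h1 : d⁻¹ y ∈ N := hNn _ (inv_mem hd) y hy
        have h2 : x (d⁻¹ y) = d⁻¹ y := (mem_fixingSubgroup_iff _ _).1 hx _ h1
        show d (x (d⁻¹ y)) = y
        rw [h2, ← AlgEquiv.mul_apply, mul_inv_cancel, AlgEquiv.one_apply]) hidx0 hidx.le
      (𝓔.image fun E : IntermediateField ℚ Qb => E.fixingSubgroup) (by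
        intro L hL
        obtain ⟨E, hE, rfl⟩ := Finset.mem_image.1 hL
        exact ⟨fixingSubgroup_le (hdet.1 E hE).2, fixingSubgroup_le (hdet.1 E hE).1⟩) (by
        intro S _ _ _ σ htriv hs
        obtain ⟨_, ⟨E, hE, rfl⟩, f, hf, hinv⟩ := hdet.2 S σ (fun g hg => htriv g hg) hs
        refine ⟨E.fixingSubgroup, Finset.mem_image.2 ⟨E, hE, rfl⟩, fun htop => hf ?_⟩
        have h1 : coinv σ (E.fixingSubgroup.subgroupOf F.fixingSubgroup) ≤ LinearMap.ker f := by
          rw [coinv, Submodule.span_le]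
          rintro _ ⟨g, hg, v, rfl⟩
          rw [SetLike.mem_coe, LinearMap.mem_ker, map_sub, hinv g hg v, sub_self]
        rw [htop, top_le_iff, LinearMap.ker_eq_top] at h1
        exact h1) T hTt (by
        intro A
        refine (hT A).imp (fun h => ?_) id
        rintro σ ⟨h1, h2⟩
        exact h σ h1 h2) (C := C) (by
        intro L hL
        obtain ⟨E, hE, rfl⟩ := Finset.mem_image.1 hL
        have := hfd E (hdet.1 E hE).2
        exact (rankLeFor_iff E C).2 (hC E hE))
    rwa [hcard] at h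
  · have hEd := hfd E hEN
    have hle1 : N.fixingSubgroup ≤ E.fixingSubgroup := fixingSubgroup_le hEN
    have hle2 : E.fixingSubgroup ≤ F.fixingSubgroup := fixingSubgroup_le hFE
    have h1 := relIndex_mul_relIndex _ _ _ hle1 hle2
    rw [hidx] at h1
    rw [hidx] at hidx0
    have h3 : N.fixingSubgroup.relIndex E.fixingSubgroup ≠ 0 := by
      intro h
      rw [h, zero_mul] at h1
      exact hidx0 h1.symm
    have h4 : E.fixingSubgroup.relIndex F.fixingSubgroup ≠ 0 := by
      intro h
      rw [h, mul_zero] at h1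
      exact hidx0 h1.symm
    rw [← rankLeFor_iff] at hC ⊢
    refine (RankLe.of_le hle1 N.fixingSubgroup_isOpen h3 hC).mono (Nat.mul_le_mul_left _ ?_)
    rw [← h1]
    exact Nat.le_mul_of_pos_right _ (Nat.pos_of_ne_zero h4)

end Pool.Agent.Q60.MU
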