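import Mathlib

/-!
# Inertia groups of the absolute Galois group of the rational numbers
-/

set_option autoImplicit false

namespace Pool.Agent.Q60.MU

open Pointwise Polynomial

/-- the algebraic numbers -/
abbrev Qb := AlgebraicClosure ℚ

/-- the inertia group of a valuation ring of the field of algebraic numbers -/
def inertia (A : ValuationSubring Qb) : Subgroup Gal(Qb/ℚ) where
  carrier := {σ | σ • A = A ∧ ∀ x ∈ A, σ x - x ∈ A.nonunits}
  mul_mem' := by
    rintro σ τ ⟨h1, h2⟩ ⟨h3, h4⟩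
    refine ⟨by rw [mul_smul, h3, h1], fun x hx => ?_⟩
    have h5 : τ x ∈ A := by
      have h6 := ValuationSubring.smul_mem_pointwise_smul τ x A hx
      rwa [h3] at h6
    have h6 : (σ * τ) x - x = (σ (τ x) - τ x) + (τ x - x) := by
      rw [AlgEquiv.mul_apply]
      ring
    rw [h6]
    exact add_mem (h2 _ h5) (h4 _ hx)
  one_mem' := by
    refine ⟨one_smul _ _, fun x hx => ?_⟩
    rw [AlgEquiv.one_apply, sub_self]
    exact zero_mem _
  inv_mem' := by
    rintro σ ⟨h1, h2⟩
    have h3 : σ⁻¹ • A = A := by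
      rw [inv_smul_eq_iff, h1]
    refine ⟨h3, fun x hx => ?_⟩
    have h5 : σ⁻¹ x ∈ A := by
      have h6 := ValuationSubring.smul_mem_pointwise_smul σ⁻¹ x A hx
      rwa [h3] at h6
    have h6 := h2 _ h5
    have h7 : σ (σ⁻¹ x) = x := by
      rw [← AlgEquiv.mul_apply, mul_inv_cancel, AlgEquiv.one_apply]
    rw [h7] at h6
    have h8 : σ⁻¹ x - x = -(x - σ⁻¹ x) := by ring
    rw [h8]
    exact neg_mem h6

theorem mem_inertia {A : ValuationSubring Qb} {σ : Gal(Qb/ℚ)} :
    σ ∈ inertia A ↔ σ • A = A ∧ ∀ x ∈ A, σ x - x ∈ A.nonunits := Iff.rfl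

theorem inertia_conj (g : Gal(Qb/ℚ)) (A : ValuationSubring Qb) :
    ∀ σ ∈ inertia A, g * σ * g⁻¹ ∈ inertia (g • A) := by
  rintro σ ⟨h1, h2⟩
  refine ⟨?_, fun x hx => ?_⟩
  · rw [mul_smul, mul_smul, inv_smul_smul, h1]
  · have h3 : g⁻¹ x ∈ A := by
      have h4 := ValuationSubring.mem_pointwise_smul_iff_inv_smul_mem.1 hx
      exact h4
    have h4 := h2 _ h3
    have h5 : (g * σ * g⁻¹) x - x = g (σ (g⁻¹ x) - g⁻¹ x) := by
      have h6 : g (g⁻¹ x) = x := by
        rw [← AlgEquiv.mul_apply, mul_inv_cancel, AlgEquiv.one_apply]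
      rw [map_sub, h6, AlgEquiv.mul_apply, AlgEquiv.mul_apply]
    rw [h5]
    generalize σ (g⁻¹ x) - g⁻¹ x = z at h4
    rw [ValuationSubring.mem_nonunits_iff_or] at h4 ⊢
    rcases h4 with h | h
    · left
      rw [h, map_zero]
    · right
      intro h7
      apply h
      have h8 : (g z)⁻¹ = g • z⁻¹ := by
        show (g z)⁻¹ = g z⁻¹
        rw [map_inv₀]
      rw [h8] at h7
      exact ValuationSubring.smul_mem_pointwise_smul_iff.1 h7

theorem integral_mem (A : ValuationSubring Qb) {x : Qb} (hx : IsIntegral ℤ x) : x ∈ A := by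
  have h1 : IsIntegral A x := hx.tower_top
  obtain ⟨y, hy⟩ := (IsIntegrallyClosed.isIntegral_iff (R := A) (K := Qb)).1 h1
  rw [← hy]
  exact y.2

theorem mul_nonunits {A : ValuationSubring Qb} {x z : Qb} (hx : x ∈ A.nonunits) (hz : z ∈ A) :
    x * z ∈ A.nonunits := by
  rw [ValuationSubring.mem_nonunits_iff] at hx ⊢
  rw [map_mul]
  exact mul_lt_one_of_lt_of_le hx ((A.valuation_le_one_iff z).2 hz)

/-- **Only finitely many primes ramify.** -/
theorem exists_bad (N : IntermediateField ℚ Qb) [FiniteDimensional ℚ N] :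
    ∃ c : ℕ, c ≠ 0 ∧ ∀ A, ∀ σ ∈ inertia A, σ ∉ N.fixingSubgroup → (c : Qb) ∈ A.nonunits := by
  have halg : ∀ x : Qb, IsAlgebraic ℤ x := fun x =>
    (IsFractionRing.isAlgebraic_iff ℤ ℚ Qb).2 ((AlgebraicClosure.isAlgebraic ℚ).isAlgebraic x)
  obtain ⟨α, hα⟩ := Field.exists_primitive_element ℚ N
  obtain ⟨y, hy0, hyi⟩ := (halg (α : Qb)).exists_integral_multiple
  set β : Qb := y • (α : Qb) with hβ
  have hσ : ∀ σ : Gal(Qb/ℚ), σ β = β → σ ∈ N.fixingSubgroup := by
    intro σ h
    have h1 : σ (α : Qb) = α := by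
      rw [hβ, map_zsmul] at h
      exact smul_right_injective _ hy0 h
    rw [IntermediateField.mem_fixingSubgroup_iff]
    intro x hx
    have h2 : (⟨x, hx⟩ : N) ∈ IntermediateField.adjoin ℚ {α} := by
      rw [hα]
      exact IntermediateField.mem_top
    obtain ⟨r, s, hrs⟩ := (IntermediateField.mem_adjoin_simple_iff ℚ _).1 h2
    have h3 : x = aeval (α : Qb) r / aeval (α : Qb) s := by
      have h4 := congrArg N.val hrs
      rw [map_div₀, ← aeval_algHom_apply, ← aeval_algHom_apply] at h4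
      exact h4
    have h4 : ∀ q : ℚ[X], σ (aeval (α : Qb) q) = aeval (α : Qb) q := by
      intro q
      have h5 := aeval_algHom_apply (σ : Qb →ₐ[ℚ] Qb) (α : Qb) q
      have h6 : (σ : Qb →ₐ[ℚ] Qb) (α : Qb) = α := h1
      rw [h6] at h5
      exact h5.symm
    rw [h3, map_div₀, h4, h4]
  set P := minpoly ℤ β with hPdef
  have hP : P.map (algebraMap ℤ ℚ) = minpoly ℚ β :=
    (minpoly.isIntegrallyClosed_eq_field_fractions' ℚ hyi).symm
  set D : Qb := aeval β (derivative P) with hD
  have hD0 : D ≠ 0 := by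
    have h1 : D = aeval β (derivative (minpoly ℚ β)) := by
      rw [← hP, derivative_map, aeval_map_algebraMap]
    rw [h1]
    have h2 : IsIntegral ℚ β := hyi.tower_top
    exact (minpoly.irreducible h2).separable.aeval_derivative_ne_zero (minpoly.aeval _ _)
  obtain ⟨c, hc0, hci⟩ := (halg D⁻¹).exists_integral_multiple
  refine ⟨c.natAbs, Int.natAbs_ne_zero.2 hc0, fun A σ hσA hσN => ?_⟩
  have hβA : β ∈ A := integral_mem A hyi
  have hh := hσA.2 β hβA
  have hh0 : σ β - β ≠ 0 := by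
    intro h
    exact hσN (hσ σ (sub_eq_zero.1 h))
  have hhA : σ β - β ∈ A := ValuationSubring.nonunits_subset hh
  -- the derivative is in the maximal ideal
  have hcoe : ∀ (q : ℤ[X]) (x : A), (((q.map (Int.castRingHom A)).eval x : A) : Qb) =
      aeval (x : Qb) q := by
    intro q x
    rw [eval_map, aeval_def]
    show A.subtype (eval₂ _ x q) = _
    rw [hom_eval₂]
    congr 1
  have hDA : D ∈ A.nonunits := by
    obtain ⟨k, hk⟩ := binomExpansion (P.map (Int.castRingHom A)) ⟨β, hβA⟩ ⟨σ β - β, hhA⟩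
    have h1 : (P.map (Int.castRingHom A)).eval (⟨β, hβA⟩ : A) = 0 := by
      apply Subtype.ext
      rw [hcoe]
      exact minpoly.aeval ℤ β
    have h2 : (P.map (Int.castRingHom A)).eval ((⟨β, hβA⟩ : A) + ⟨σ β - β, hhA⟩) = 0 := by
      apply Subtype.ext
      rw [hcoe]
      show aeval (β + (σ β - β)) P = 0
      rw [add_sub_cancel]
      have h3 := aeval_algHom_apply ((σ : Qb →ₐ[ℚ] Qb).restrictScalars ℤ) β P
      have h4 : aeval β P = 0 := minpoly.aeval ℤ β
      rw [h4, map_zero] at h3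
      exact h3
    rw [h1, h2, zero_add] at hk
    have h3 := congrArg (fun z : A => (z : Qb)) hk
    have h4 : (0 : Qb) = D * (σ β - β) + k * (σ β - β) ^ 2 := by
      have h5 : (((derivative (P.map (Int.castRingHom A))).eval (⟨β, hβA⟩ : A) : A) : Qb) = D := by
        rw [derivative_map, hcoe]
      rw [← h5]
      exact h3
    have h5 : D = (σ β - β) * (-(k : Qb)) := by
      have h6 : (σ β - β) * (D + k * (σ β - β)) = 0 := by
        rw [h4]
        ring
      have h7 := (mul_eq_zero.1 h6).resolve_left hh0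
      linear_combination h7
    rw [h5]
    exact mul_nonunits hh (neg_mem k.2)
  have hcA : (c : Qb) ∈ A.nonunits := by
    have h1 : (c : Qb) = D * (c • D⁻¹) := by
      rw [zsmul_eq_mul]
      field_simp
    rw [h1]
    exact mul_nonunits hDA (integral_mem A hci)
  rcases Int.natAbs_eq c with h | h
  · have h1 : (c : Qb) = ((c.natAbs : ℕ) : Qb) := by
      have h2 := congrArg (Int.cast : ℤ → Qb) h
      rwa [Int.cast_natCast] at h2
    rw [← h1]
    exact hcA
  · have h1 : (c : Qb) = -((c.natAbs : ℕ) : Qb) := by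
      have h2 := congrArg (Int.cast : ℤ → Qb) h
      rwa [Int.cast_neg, Int.cast_natCast] at h2
    have h2 : ((c.natAbs : ℕ) : Qb) = -(c : Qb) := by
      rw [h1, neg_neg]
    rw [h2]
    exact neg_mem hcA

theorem exists_prime {A : ValuationSubring Qb} {c : ℕ} (hc : c ≠ 0) (h : (c : Qb) ∈ A.nonunits) :
    ∃ ℓ ∈ c.primeFactors, (ℓ : Qb) ∈ A.nonunits := by
  induction c using Nat.strong_induction_on with
  | _ c ih =>
    by_cases h1 : c = 1
    · exfalso
      rw [h1, ValuationSubring.mem_nonunits_iff, Nat.cast_one, map_one] at h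
      exact lt_irrefl _ h
    have hp := Nat.minFac_prime h1
    obtain ⟨d, hd⟩ := Nat.minFac_dvd c
    have hd0 : d ≠ 0 := by
      rintro rfl
      rw [mul_zero] at hd
      exact hc hd
    have hdc : d < c := by
      conv_rhs => rw [hd]
      exact lt_mul_of_one_lt_left (Nat.pos_of_ne_zero hd0) hp.one_lt
    by_cases h2 : ((c.minFac : ℕ) : Qb) ∈ A.nonunits
    · exact ⟨c.minFac, Nat.mem_primeFactors.2 ⟨hp, Nat.minFac_dvd c, hc⟩, h2⟩
    · have h3 : (d : Qb) ∈ A.nonunits := by
        rw [ValuationSubring.mem_nonunits_iff] at h h2 ⊢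
        by_contra h4
        rw [not_lt] at h2 h4
        rw [hd, Nat.cast_mul, map_mul] at h
        exact absurd h (not_lt.2 (one_le_mul h2 h4))
      obtain ⟨ℓ, hℓ, hℓA⟩ := ih d hdc hd0 h3
      refine ⟨ℓ, Nat.mem_primeFactors.2 ⟨Nat.prime_of_mem_primeFactors hℓ, ?_, hc⟩, hℓA⟩
      exact (Nat.dvd_of_mem_primeFactors hℓ).trans ⟨_, by rw [mul_comm]; exact hd⟩

end Pool.Agent.Q60.MU
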