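import Pool.Agent.Q60.MU.Reduction
import Pool.Agent.Q60.MU.Ram

/-!
# Translation to number fields
-/

set_option autoImplicit false

namespace Pool.Agent.Q60.MU

open Subgroup Module IntermediateField
open scoped Pointwise commutatorElement

instance isAlg_Qb : Algebra.IsAlgebraic ℚ Qb := AlgebraicClosure.isAlgebraic ℚ

instance isGalois_Qb : IsGalois ℚ Qb := by
  have h1 : IsAlgClosed Qb := AlgebraicClosure.isAlgClosed ℚ
  have h2 : IsAlgClosure ℚ Qb := ⟨h1, isAlg_Qb⟩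
  have h3 : Normal ℚ Qb := inferInstance
  exact ⟨⟩

/-- Every finite extension `M` of `E` which is Galois over `E` with abelian Galois group of
exponent `p` and unramified at all finite primes has degree at most `C` over `E`. -/
def DegLe (p : ℕ) (E : IntermediateField ℚ Qb) (C : ℕ) : Prop :=
  ∀ M : IntermediateField ℚ Qb, E ≤ M → FiniteDimensional ℚ M →
    (∀ σ ∈ E.fixingSubgroup, ∀ x ∈ M, σ x ∈ M) →
    (∀ σ ∈ E.fixingSubgroup, ∀ τ ∈ E.fixingSubgroup, ∀ x ∈ M, σ (τ x) = τ (σ x)) →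
    (∀ σ ∈ E.fixingSubgroup, ∀ x ∈ M, (σ ^ p) x = x) →
    (∀ A, ∀ σ ∈ inertia A, σ ∈ E.fixingSubgroup → ∀ x ∈ M, σ x = x) →
    finrank ℚ M ≤ C * finrank ℚ E

/-- The degrees in the tower `F R₀, F R₁, …` are bounded. -/
def MuZero (p : ℕ) (R : ℕ → IntermediateField ℚ Qb) (F : IntermediateField ℚ Qb) : Prop :=
  ∃ C, ∀ m, DegLe p (F ⊔ R m) C

/-- Every prime number has a bounded number of primes above it in the fields `R₀, R₁, …`. -/
def FinDec (R : ℕ → IntermediateField ℚ Qb) : Prop :=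
  ∀ ℓ : ℕ, ℓ.Prime → ∃ t, ∀ m, ∃ T : Finset (ValuationSubring Qb), T.card ≤ t ∧
    ∀ A : ValuationSubring Qb, (ℓ : Qb) ∈ A.nonunits →
      ∃ B ∈ T, ∃ σ ∈ (R m).fixingSubgroup, A = σ • B

/-- Every simple representation of `Gal(N/ℚ)` over `𝔽_p` has a nonzero vector fixed by `Gal(N/E)`
for some `E` in the set `𝓔` of subfields of `N`. -/
def Detecting (p : ℕ) [Fact p.Prime] (N : IntermediateField ℚ Qb)
    (𝓔 : Set (IntermediateField ℚ Qb)) : Prop :=
  (∀ E ∈ 𝓔, E ≤ N) ∧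
  ∀ (S : Type) [AddCommGroup S] [Module (ZMod p) S] [Module.Finite (ZMod p) S]
    (τ : Representation (ZMod p) Gal(Qb/ℚ) S), (∀ g ∈ N.fixingSubgroup, ∀ x, τ g x = x) →
    IsSimple τ → ∃ E ∈ 𝓔, ∃ v : S, v ≠ 0 ∧ ∀ g ∈ E.fixingSubgroup, τ g v = v

/-- `F = ℚ(v)` for a nonzero vector `v` in a simple representation of `Gal(N/ℚ)` over `𝔽_p`, for
some number field `N`. -/
def IsVectorField (p : ℕ) [Fact p.Prime] (F : IntermediateField ℚ Qb) : Prop :=
  ∃ (S : Type) (_ : AddCommGroup S) (_ : Module (ZMod p) S) (_ : Module.Finite (ZMod p) S)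
    (τ : Representation (ZMod p) Gal(Qb/ℚ) S) (v : S), IsSimple τ ∧
    (∃ N : IntermediateField ℚ Qb, FiniteDimensional ℚ N ∧
      ∀ g ∈ N.fixingSubgroup, ∀ x, τ g x = x) ∧ v ≠ 0 ∧ F = fixedField (stab τ v)

theorem fix_fixed {W : Subgroup Gal(Qb/ℚ)} (hW : IsOpen (W : Set Gal(Qb/ℚ))) :
    (fixedField W).fixingSubgroup = W :=
  InfiniteGalois.fixingSubgroup_fixedField ⟨W, W.isClosed_of_isOpen hW⟩

theorem finite_fixed {W : Subgroup Gal(Qb/ℚ)} (hW : IsOpen (W : Set Gal(Qb/ℚ)))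
    (hf : W.index ≠ 0) : FiniteDimensional ℚ (fixedField W) := by
  apply FiniteDimensional.of_finrank_pos
  rw [finrank_eq_fixingSubgroup_index, fix_fixed hW]
  exact Nat.pos_of_ne_zero hf

theorem index_ne_zero' (E : IntermediateField ℚ Qb) [FiniteDimensional ℚ E] :
    E.fixingSubgroup.index ≠ 0 := by
  rw [← finrank_eq_fixingSubgroup_index]
  exact (finrank_pos (R := ℚ) (M := E)).ne'

theorem rankLe_iff {p : ℕ} (E : IntermediateField ℚ Qb) [FiniteDimensional ℚ E] (C : ℕ) :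
    RankLe p inertia E.fixingSubgroup C ↔ DegLe p E C := by
  have hK0 := index_ne_zero' E
  constructor
  · intro h M hEM hM h1 h2 h3 h4
    have hWK : M.fixingSubgroup ≤ E.fixingSubgroup := fixingSubgroup_le hEM
    have hmul := relIndex_mul_index hWK
    have hW0 := index_ne_zero' M
    have h5 := h M.fixingSubgroup hWK M.fixingSubgroup_isOpen (by
      intro h0
      rw [h0, zero_mul] at hmul
      exact hW0 hmul.symm) (by
      rintro x ((⟨a, ha, rfl⟩ | ⟨a, ha, b, hb, rfl⟩) | ⟨hx, w, hw⟩)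
      · exact (mem_fixingSubgroup_iff _ _).2 fun x hx => h3 a ha x hx
      · refine (mem_fixingSubgroup_iff _ _).2 fun x hx => ?_
        have hb' : b⁻¹ x ∈ M := h1 _ (inv_mem hb) x hx
        have ha' : a⁻¹ (b⁻¹ x) ∈ M := h1 _ (inv_mem ha) _ hb'
        have h6 := h2 a ha b hb _ ha'
        show ⁅a, b⁆ x = x
        have h7 : ⁅a, b⁆ x = a (b (a⁻¹ (b⁻¹ x))) := rfl
        have h8 : a (a⁻¹ (b⁻¹ x)) = b⁻¹ x := by
          rw [← AlgEquiv.mul_apply, mul_inv_cancel, AlgEquiv.one_apply]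
        have h9 : b (b⁻¹ x) = x := by
          rw [← AlgEquiv.mul_apply, mul_inv_cancel, AlgEquiv.one_apply]
        rw [h7, h6, h8, h9]
      · exact (mem_fixingSubgroup_iff _ _).2 fun y hy => h4 w x hw hx y hy)
    rw [finrank_eq_fixingSubgroup_index, finrank_eq_fixingSubgroup_index, ← hmul]
    exact Nat.mul_le_mul_right _ h5
  · intro h W hWK hWo hWf hg
    have hmul := relIndex_mul_index hWK
    have hW0 : W.index ≠ 0 := by
      rw [← hmul]
      exact mul_ne_zero hWf hK0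
    have hfix := fix_fixed hWo
    have hEM : E ≤ fixedField W := (le_iff_le _ _).2 hWK
    have hfd := finite_fixed hWo hW0
    have hmem : ∀ x, x ∈ fixedField W ↔ ∀ w ∈ W, w x = x := fun x => mem_fixedField_iff _ _
    have h5 := h (fixedField W) hEM hfd (by
      intro σ hσ x hx
      rw [hmem] at hx ⊢
      intro w hw
      have h1 : ⁅σ⁻¹, w⁆ ∈ W := hg (Or.inl (Or.inr ⟨σ⁻¹, inv_mem hσ, w, hWK hw, rfl⟩))
      have h2 : w (σ x) = σ ((⁅σ⁻¹, w⁆ * w) x) := by
        rw [← AlgEquiv.mul_apply, ← AlgEquiv.mul_apply]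
        congr 1
        rw [commutatorElement_def]
        group
      rw [h2, hx _ (W.mul_mem h1 hw)]) (by
      intro σ hσ τ hτ x hx
      rw [hmem] at hx
      have h1 : ⁅σ⁻¹, τ⁻¹⁆ ∈ W := hg (Or.inl (Or.inr ⟨σ⁻¹, inv_mem hσ, τ⁻¹, inv_mem hτ, rfl⟩))
      have h2 : σ (τ x) = τ (σ (⁅σ⁻¹, τ⁻¹⁆ x)) := by
        rw [← AlgEquiv.mul_apply, ← AlgEquiv.mul_apply, ← AlgEquiv.mul_apply]
        congr 1
        rw [commutatorElement_def]
        group
      rw [h2, hx _ h1]) (by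
      intro σ hσ x hx
      rw [hmem] at hx
      exact hx _ (hg (Or.inl (Or.inl ⟨σ, hσ, rfl⟩)))) (by
      intro A σ hσA hσ x hx
      rw [hmem] at hx
      exact hx _ (hg (Or.inr ⟨hσ, A, hσA⟩)))
    rw [finrank_eq_fixingSubgroup_index, finrank_eq_fixingSubgroup_index, hfix, ← hmul] at h5
    exact Nat.le_of_mul_le_mul_right h5 (Nat.pos_of_ne_zero hK0)

theorem mu_iff {p : ℕ} {R : ℕ → IntermediateField ℚ Qb} (hR : ∀ m, FiniteDimensional ℚ (R m))
    (F : IntermediateField ℚ Qb) [FiniteDimensional ℚ F] :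
    Mu0 p inertia (fun m => (R m).fixingSubgroup) F.fixingSubgroup ↔ MuZero p R F := by
  refine exists_congr fun C => forall_congr' fun m => ?_
  have := hR m
  rw [← rankLe_iff, fixingSubgroup_sup]

theorem ramified_of_finDec {R : ℕ → IntermediateField ℚ Qb} (hd : FinDec R)
    {K : Subgroup Gal(Qb/ℚ)} (hKo : IsOpen (K : Set Gal(Qb/ℚ))) (hKf : K.index ≠ 0) :
    ∃ t, ∀ m, ∃ T : Finset (ValuationSubring Qb), T.card ≤ t ∧
        ∀ w, inertia w ⊓ (R m).fixingSubgroup ≤ K ∨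
          ∃ u ∈ T, ∃ d ∈ (R m).fixingSubgroup, w = d • u := by
  classical
  have hfd := finite_fixed hKo hKf
  have hfix := fix_fixed hKo
  obtain ⟨c, hc0, hc⟩ := exists_bad (fixedField K)
  rw [hfix] at hc
  choose! t T hTt hT using hd
  refine ⟨∑ ℓ ∈ c.primeFactors, t ℓ, fun m => ⟨c.primeFactors.biUnion fun ℓ => T ℓ m, ?_, ?_⟩⟩
  · refine Finset.card_biUnion_le.trans (Finset.sum_le_sum fun ℓ hℓ => ?_)
    exact hTt ℓ (Nat.prime_of_mem_primeFactors hℓ) m
  · intro A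
    by_cases h : inertia A ≤ K
    · exact Or.inl (inf_le_left.trans h)
    · right
      obtain ⟨σ, hσ, hσK⟩ := SetLike.not_le_iff_exists.1 h
      obtain ⟨ℓ, hℓ, hℓA⟩ := exists_prime hc0 (hc A σ hσ hσK)
      obtain ⟨B, hB, σ', hσ', h3⟩ := hT ℓ (Nat.prime_of_mem_primeFactors hℓ) m A hℓA
      exact ⟨B, Finset.mem_biUnion.2 ⟨ℓ, hℓ, hB⟩, σ', hσ', h3⟩

/-- **Detecting subfields.** -/
theorem field_detect (p : ℕ) [Fact p.Prime] (R : ℕ → IntermediateField ℚ Qb)
    (hR : ∀ m, FiniteDimensional ℚ (R m)) (hRn : ∀ m, IsGalois ℚ (R m)) (hd : FinDec R)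
    (N : IntermediateField ℚ Qb) (hN : FiniteDimensional ℚ N) (hNn : IsGalois ℚ N)
    (𝓔 : Set (IntermediateField ℚ Qb)) (h𝓔 : ∀ E ∈ 𝓔, E ≤ N)
    (hdet : ∀ (S : Type) [AddCommGroup S] [Module (ZMod p) S] [Module.Finite (ZMod p) S]
      (τ : Representation (ZMod p) Gal(Qb/ℚ) S), (∀ g ∈ N.fixingSubgroup, ∀ x, τ g x = x) →
      IsSimple τ → ∃ E ∈ 𝓔, ∃ v : S, v ≠ 0 ∧ ∀ g ∈ E.fixingSubgroup, τ g v = v)
    (hmu : ∀ E ∈ 𝓔, MuZero p R E) (F : IntermediateField ℚ Qb) (hF : F ≤ N) :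
    MuZero p R F := by
  have hfd : ∀ E : IntermediateField ℚ Qb, E ≤ N → FiniteDimensional ℚ E := fun E hE =>
    Submodule.finiteDimensional_of_le (S₁ := Subalgebra.toSubmodule E.toSubalgebra)
      (S₂ := Subalgebra.toSubmodule N.toSubalgebra) hE
  have hFd := hfd F hF
  rw [← mu_iff hR]
  have hKn : N.fixingSubgroup.Normal := (InfiniteGalois.normal_iff_isGalois N).2 hNn
  have hKo := N.fixingSubgroup_isOpen
  have hDo : ∀ m, IsOpen ((R m).fixingSubgroup : Set Gal(Qb/ℚ)) := fun m => by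
    have := hR m
    exact (R m).fixingSubgroup_isOpen
  refine Mu0.of_le hDo hKn (fixingSubgroup_le hF) hKo (index_ne_zero' N) ?_
  refine reduction (p := p) (I := inertia) inertia_conj
    (fun m => (InfiniteGalois.normal_iff_isGalois (R m)).2 (hRn m)) hDo
    (fun m => by
      have := hR m
      exact index_ne_zero' (R m)) hKn hKo (index_ne_zero' N)
    (ramified_of_finDec hd hKo (index_ne_zero' N)) ?_
  intro S _ _ _ τ hτ hs
  obtain ⟨E, hE, v, hv, hfix⟩ := hdet S τ hτ hs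
  have hEd := hfd E (h𝓔 E hE)
  exact ⟨E.fixingSubgroup, ⟨fixingSubgroup_le (h𝓔 E hE), (mu_iff hR E).2 (hmu E hE)⟩, v, hv, hfix⟩

/-- **The reduction theorem for number fields.** -/
theorem field_reduction (p : ℕ) [Fact p.Prime] (R : ℕ → IntermediateField ℚ Qb)
    (hR : ∀ m, FiniteDimensional ℚ (R m)) (hRn : ∀ m, IsGalois ℚ (R m)) (hd : FinDec R) :
    (∀ F : IntermediateField ℚ Qb, FiniteDimensional ℚ F → MuZero p R F) ↔
    (∀ (S : Type) [AddCommGroup S] [Module (ZMod p) S] [Module.Finite (ZMod p) S]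
      (τ : Representation (ZMod p) Gal(Qb/ℚ) S), IsSimple τ →
      (∃ N : IntermediateField ℚ Qb, FiniteDimensional ℚ N ∧
        ∀ g ∈ N.fixingSubgroup, ∀ x, τ g x = x) →
      ∀ v : S, v ≠ 0 → ¬ p ∣ finrank ℚ (fixedField (stab τ v)) →
      MuZero p R (fixedField (stab τ v))) := by
  constructor
  · rintro h S _ _ _ τ - ⟨N, hN, hτ⟩ v - -
    apply h
    have h1 : N.fixingSubgroup ≤ stab τ v := fun g hg => hτ g hg v
    have h2 : fixedField (stab τ v) ≤ N := by
      rw [← InfiniteGalois.fixedField_fixingSubgroup N]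
      exact fixedField_antitone h1
    exact Submodule.finiteDimensional_of_le (S₁ := Subalgebra.toSubmodule
      (fixedField (stab τ v)).toSubalgebra) (S₂ := Subalgebra.toSubmodule N.toSubalgebra) h2
  · intro h F hF
    -- the normal core
    have hUf : F.fixingSubgroup.FiniteIndex := ⟨index_ne_zero' F⟩
    set K := F.fixingSubgroup.normalCore with hKdef
    have hKn : K.Normal := normalCore_normal _
    have hKo : IsOpen (K : Set Gal(Qb/ℚ)) :=
      isOpen_normalCore F.fixingSubgroup_isOpen (index_ne_zero' F)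
    have hKf : K.index ≠ 0 := by
      have : K.FiniteIndex := F.fixingSubgroup.finiteIndex_normalCore
      exact FiniteIndex.index_ne_zero
    have hfix := fix_fixed hKo
    have hNd := finite_fixed hKo hKf
    have hFN : F ≤ fixedField K := (le_iff_le _ _).2 (normalCore_le _)
    have hNn : IsGalois ℚ (fixedField K) :=
      (InfiniteGalois.normal_iff_isGalois (fixedField K)).1 (by rw [hfix]; exact hKn)
    refine field_detect p R hR hRn hd (fixedField K) hNd hNn
      {E | E ≤ fixedField K ∧ MuZero p R E} (fun E hE => hE.1) ?_ (fun E hE => hE.2) F hFN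
    intro S _ _ _ τ hτ hs
    rw [hfix] at hτ
    have hnt : Nontrivial S := hs.1
    obtain ⟨v, hv, P, hP, hPp⟩ := exists_vec_P hKn hKf τ hτ
    have hle : K ≤ stab τ v := fun g hg => hτ g hg v
    have hso : IsOpen (stab τ v : Set Gal(Qb/ℚ)) := Subgroup.isOpen_mono hle hKo
    have hsf : (fixedField (stab τ v)).fixingSubgroup = stab τ v := fix_fixed hso
    refine ⟨fixedField (stab τ v), ⟨fixedField_antitone hle, ?_⟩, v, hv, ?_⟩
    · refine h S τ hs ⟨fixedField K, hNd, by rw [hfix]; exact hτ⟩ v hv ?_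
      rw [finrank_eq_fixingSubgroup_index, hsf]
      exact fun h1 => hPp (h1.trans (index_dvd_of_le hP))
    · rw [hsf]
      exact fun g hg => hg

end Pool.Agent.Q60.MU
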