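import Pool.Agent.Q60.MU.Fields

/-!
# Split primes and restricted ramification
-/

set_option autoImplicit false

namespace Pool.Agent.Q60.MU

open Subgroup Module IntermediateField
open scoped Pointwise commutatorElement

/-- Every finite extension `M` of `E` which is Galois over `E` with abelian Galois group of
exponent `p` and on which the groups `I A ∩ Gal(ℚ̄/E)` act trivially has degree at most `C`
over `E`. -/
def DegLeFor (I : ValuationSubring Qb → Subgroup Gal(Qb/ℚ)) (p : ℕ)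
    (E : IntermediateField ℚ Qb) (C : ℕ) : Prop :=
  ∀ M : IntermediateField ℚ Qb, E ≤ M → FiniteDimensional ℚ M →
    (∀ σ ∈ E.fixingSubgroup, ∀ x ∈ M, σ x ∈ M) →
    (∀ σ ∈ E.fixingSubgroup, ∀ τ ∈ E.fixingSubgroup, ∀ x ∈ M, σ (τ x) = τ (σ x)) →
    (∀ σ ∈ E.fixingSubgroup, ∀ x ∈ M, (σ ^ p) x = x) →
    (∀ A, ∀ σ ∈ I A, σ ∈ E.fixingSubgroup → ∀ x ∈ M, σ x = x) →
    finrank ℚ M ≤ C * finrank ℚ E

/-- The degrees in the tower `F R₀, F R₁, …` are bounded. -/
def MuZeroFor (I : ValuationSubring Qb → Subgroup Gal(Qb/ℚ)) (p : ℕ)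
    (R : ℕ → IntermediateField ℚ Qb) (F : IntermediateField ℚ Qb) : Prop :=
  ∃ C, ∀ m, DegLeFor I p (F ⊔ R m) C

variable {I : ValuationSubring Qb → Subgroup Gal(Qb/ℚ)}

theorem rankLeFor_iff {p : ℕ} (E : IntermediateField ℚ Qb) [FiniteDimensional ℚ E] (C : ℕ) :
    RankLe p I E.fixingSubgroup C ↔ DegLeFor I p E C := by
  have hK0 := index_ne_zero' E
  constructor
  · intro h M hEM hM h1 h2 h3 h4
    have hWK : M.fixingSubgroup ≤ E.fixingSubgroup := fixingSubgroup_le hEM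
    have hmul := relIndex_mul_index hWK
    have hW0 := index_ne_zero' M
    have h5 := h M.fixingSubgroup hWK M.fixingSubgroup_isOpen (by
      intro h0
      rw [h0, zero_mul] at hmul
      exact hW0 hmul.symm) (by
      rintro x ((⟨a, ha, rfl⟩ | ⟨a, ha, b, hb, rfl⟩) | ⟨hx, w, hw⟩)
      · exact (mem_fixingSubgroup_iff _ _).2 fun x hx => h3 a ha x hx
      · refine (mem_fixingSubgroup_iff _ _).2 fun x hx => ?_
        have hb' : b⁻¹ x ∈ M := h1 _ (inv_mem hb) x hx
        have ha' : a⁻¹ (b⁻¹ x) ∈ M := h1 _ (inv_mem ha) _ hb'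
        have h6 := h2 a ha b hb _ ha'
        show ⁅a, b⁆ x = x
        have h7 : ⁅a, b⁆ x = a (b (a⁻¹ (b⁻¹ x))) := rfl
        have h8 : a (a⁻¹ (b⁻¹ x)) = b⁻¹ x := by
          rw [← AlgEquiv.mul_apply, mul_inv_cancel, AlgEquiv.one_apply]
        have h9 : b (b⁻¹ x) = x := by
          rw [← AlgEquiv.mul_apply, mul_inv_cancel, AlgEquiv.one_apply]
        rw [h7, h6, h8, h9]
      · exact (mem_fixingSubgroup_iff _ _).2 fun y hy => h4 w x hw hx y hy)
    rw [finrank_eq_fixingSubgroup_index, finrank_eq_fixingSubgroup_index, ← hmul]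
    exact Nat.mul_le_mul_right _ h5
  · intro h W hWK hWo hWf hg
    have hmul := relIndex_mul_index hWK
    have hW0 : W.index ≠ 0 := by
      rw [← hmul]
      exact mul_ne_zero hWf hK0
    have hfix := fix_fixed hWo
    have hEM : E ≤ fixedField W := (le_iff_le _ _).2 hWK
    have hfd := finite_fixed hWo hW0
    have hmem : ∀ x, x ∈ fixedField W ↔ ∀ w ∈ W, w x = x := fun x => mem_fixedField_iff _ _
    have h5 := h (fixedField W) hEM hfd (by
      intro σ hσ x hx
      rw [hmem] at hx ⊢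
      intro w hw
      have h1 : ⁅σ⁻¹, w⁆ ∈ W := hg (Or.inl (Or.inr ⟨σ⁻¹, inv_mem hσ, w, hWK hw, rfl⟩))
      have h2 : w (σ x) = σ ((⁅σ⁻¹, w⁆ * w) x) := by
        rw [← AlgEquiv.mul_apply, ← AlgEquiv.mul_apply]
        congr 1
        rw [commutatorElement_def]
        group
      rw [h2, hx _ (W.mul_mem h1 hw)]) (by
      intro σ hσ τ hτ x hx
      rw [hmem] at hx
      have h1 : ⁅σ⁻¹, τ⁻¹⁆ ∈ W := hg (Or.inl (Or.inr ⟨σ⁻¹, inv_mem hσ, τ⁻¹, inv_mem hτ, rfl⟩))
      have h2 : σ (τ x) = τ (σ (⁅σ⁻¹, τ⁻¹⁆ x)) := by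
        rw [← AlgEquiv.mul_apply, ← AlgEquiv.mul_apply, ← AlgEquiv.mul_apply]
        congr 1
        rw [commutatorElement_def]
        group
      rw [h2, hx _ h1]) (by
      intro σ hσ x hx
      rw [hmem] at hx
      exact hx _ (hg (Or.inl (Or.inl ⟨σ, hσ, rfl⟩)))) (by
      intro A σ hσA hσ x hx
      rw [hmem] at hx
      exact hx _ (hg (Or.inr ⟨hσ, A, hσA⟩)))
    rw [finrank_eq_fixingSubgroup_index, finrank_eq_fixingSubgroup_index, hfix, ← hmul] at h5
    exact Nat.le_of_mul_le_mul_right h5 (Nat.pos_of_ne_zero hK0)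

theorem muFor_iff {p : ℕ} {R : ℕ → IntermediateField ℚ Qb} (hR : ∀ m, FiniteDimensional ℚ (R m))
    (F : IntermediateField ℚ Qb) [FiniteDimensional ℚ F] :
    Mu0 p I (fun m => (R m).fixingSubgroup) F.fixingSubgroup ↔ MuZeroFor I p R F := by
  refine exists_congr fun C => forall_congr' fun m => ?_
  have := hR m
  rw [← rankLeFor_iff, fixingSubgroup_sup]

/-- outside the primes above `p` the groups `I A` are contained in the inertia groups -/
def Tame (I : ValuationSubring Qb → Subgroup Gal(Qb/ℚ)) (p : ℕ) : Prop :=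
  ∀ A : ValuationSubring Qb, (p : Qb) ∉ A.nonunits → I A ≤ inertia A

theorem ramifiedFor {p : ℕ} [Fact p.Prime] (hIt : Tame I p) {R : ℕ → IntermediateField ℚ Qb}
    (hd : FinDec R) {K : Subgroup Gal(Qb/ℚ)} (hKo : IsOpen (K : Set Gal(Qb/ℚ)))
    (hKf : K.index ≠ 0) :
    ∃ t, ∀ m, ∃ T : Finset (ValuationSubring Qb), T.card ≤ t ∧
        ∀ w, I w ⊓ (R m).fixingSubgroup ≤ K ∨
          ∃ u ∈ T, ∃ d ∈ (R m).fixingSubgroup, w = d • u := by
  classical
  have hfd := finite_fixed hKo hKf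
  have hfix := fix_fixed hKo
  obtain ⟨c, hc0, hc⟩ := exists_bad (fixedField K)
  rw [hfix] at hc
  choose! t T hTt hT using hd
  have hp : p.Prime := Fact.out
  have hpr : ∀ ℓ ∈ insert p c.primeFactors, ℓ.Prime := by
    intro ℓ hℓ
    rcases Finset.mem_insert.1 hℓ with rfl | h
    · exact hp
    · exact Nat.prime_of_mem_primeFactors h
  refine ⟨∑ ℓ ∈ insert p c.primeFactors, t ℓ,
    fun m => ⟨(insert p c.primeFactors).biUnion fun ℓ => T ℓ m, ?_, ?_⟩⟩
  · refine Finset.card_biUnion_le.trans (Finset.sum_le_sum fun ℓ hℓ => ?_)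
    exact hTt ℓ (hpr ℓ hℓ) m
  · intro A
    by_cases h : I A ≤ K
    · exact Or.inl (inf_le_left.trans h)
    · right
      by_cases hpA : (p : Qb) ∈ A.nonunits
      · obtain ⟨B, hB, σ', hσ', h3⟩ := hT p hp m A hpA
        exact ⟨B, Finset.mem_biUnion.2 ⟨p, Finset.mem_insert_self _ _, hB⟩, σ', hσ', h3⟩
      · obtain ⟨σ, hσ, hσK⟩ := SetLike.not_le_iff_exists.1 h
        obtain ⟨ℓ, hℓ, hℓA⟩ := exists_prime hc0 (hc A σ (hIt A hpA hσ) hσK)
        obtain ⟨B, hB, σ', hσ', h3⟩ := hT ℓ (Nat.prime_of_mem_primeFactors hℓ) m A hℓA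
        exact ⟨B, Finset.mem_biUnion.2 ⟨ℓ, Finset.mem_insert_of_mem hℓ, hB⟩, σ', hσ', h3⟩

/-- **Detecting subfields.** -/
theorem field_detectFor (p : ℕ) [Fact p.Prime]
    (hI : ∀ (g : Gal(Qb/ℚ)) (A : ValuationSubring Qb), ∀ σ ∈ I A, g * σ * g⁻¹ ∈ I (g • A))
    (hIt : Tame I p) (R : ℕ → IntermediateField ℚ Qb)
    (hR : ∀ m, FiniteDimensional ℚ (R m)) (hRn : ∀ m, IsGalois ℚ (R m)) (hd : FinDec R)
    (N : IntermediateField ℚ Qb) (hN : FiniteDimensional ℚ N) (hNn : IsGalois ℚ N)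
    (𝓔 : Set (IntermediateField ℚ Qb)) (hdet : Detecting p N 𝓔)
    (hmu : ∀ E ∈ 𝓔, MuZeroFor I p R E) (F : IntermediateField ℚ Qb) (hF : F ≤ N) :
    MuZeroFor I p R F := by
  have hfd : ∀ E : IntermediateField ℚ Qb, E ≤ N → FiniteDimensional ℚ E := fun E hE =>
    Submodule.finiteDimensional_of_le (S₁ := Subalgebra.toSubmodule E.toSubalgebra)
      (S₂ := Subalgebra.toSubmodule N.toSubalgebra) hE
  have hFd := hfd F hF
  rw [← muFor_iff hR]
  have hKn : N.fixingSubgroup.Normal := (InfiniteGalois.normal_iff_isGalois N).2 hNn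
  have hKo := N.fixingSubgroup_isOpen
  have hDo : ∀ m, IsOpen ((R m).fixingSubgroup : Set Gal(Qb/ℚ)) := fun m => by
    have := hR m
    exact (R m).fixingSubgroup_isOpen
  refine Mu0.of_le hDo hKn (fixingSubgroup_le hF) hKo (index_ne_zero' N) ?_
  refine reduction (p := p) (I := I) hI
    (fun m => (InfiniteGalois.normal_iff_isGalois (R m)).2 (hRn m)) hDo
    (fun m => by
      have := hR m
      exact index_ne_zero' (R m)) hKn hKo (index_ne_zero' N)
    (ramifiedFor (p := p) hIt hd hKo (index_ne_zero' N)) ?_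
  intro S _ _ _ τ hτ hs
  obtain ⟨E, hE, v, hv, hfix⟩ := hdet.2 S τ hτ hs
  have hEd := hfd E (hdet.1 E hE)
  exact ⟨E.fixingSubgroup, ⟨fixingSubgroup_le (hdet.1 E hE), (muFor_iff hR E).2 (hmu E hE)⟩,
    v, hv, hfix⟩

/-- `F = ℚ(v)` for a nonzero vector `v` in a simple representation of `Gal(N/ℚ)` over `𝔽_p`, for
some number field `N` with the property `P`. -/
def IsVectorFieldIn (p : ℕ) [Fact p.Prime] (P : IntermediateField ℚ Qb → Prop)
    (F : IntermediateField ℚ Qb) : Prop :=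
  ∃ (S : Type) (_ : AddCommGroup S) (_ : Module (ZMod p) S) (_ : Module.Finite (ZMod p) S)
    (τ : Representation (ZMod p) Gal(Qb/ℚ) S) (v : S), IsSimple τ ∧
    (∃ N : IntermediateField ℚ Qb, FiniteDimensional ℚ N ∧ P N ∧
      ∀ g ∈ N.fixingSubgroup, ∀ x, τ g x = x) ∧ v ≠ 0 ∧ F = fixedField (stab τ v)

/-- **The reduction theorem**, for the subfields of a Galois extension `Z` of `ℚ` -/
theorem field_reductionFor (p : ℕ) [Fact p.Prime]
    (hI : ∀ (g : Gal(Qb/ℚ)) (A : ValuationSubring Qb), ∀ σ ∈ I A, g * σ * g⁻¹ ∈ I (g • A))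
    (hIt : Tame I p) (R : ℕ → IntermediateField ℚ Qb)
    (hR : ∀ m, FiniteDimensional ℚ (R m)) (hRn : ∀ m, IsGalois ℚ (R m)) (hd : FinDec R)
    (Z : IntermediateField ℚ Qb) (hZ : Z.fixingSubgroup.Normal) :
    (∀ F : IntermediateField ℚ Qb, FiniteDimensional ℚ F → F ≤ Z → MuZeroFor I p R F) ↔
    ∀ F : IntermediateField ℚ Qb, IsVectorFieldIn p (fun N => N ≤ Z) F → ¬ p ∣ finrank ℚ F →
      MuZeroFor I p R F := by
  constructor
  · rintro h F ⟨S, i1, i2, i3, τ, v, -, ⟨N, hN, hNZ, hτ⟩, -, rfl⟩ -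
    have h1 : N.fixingSubgroup ≤ stab τ v := fun g hg => hτ g hg v
    have h2 : fixedField (stab τ v) ≤ N := by
      rw [← InfiniteGalois.fixedField_fixingSubgroup N]
      exact fixedField_antitone h1
    exact h _ (Submodule.finiteDimensional_of_le (S₁ := Subalgebra.toSubmodule
      (fixedField (stab τ v)).toSubalgebra) (S₂ := Subalgebra.toSubmodule N.toSubalgebra) h2)
      (h2.trans hNZ)
  · intro h F hF hFZ
    have hUf : F.fixingSubgroup.FiniteIndex := ⟨index_ne_zero' F⟩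
    set K := F.fixingSubgroup.normalCore with hKdef
    have hKn : K.Normal := normalCore_normal _
    have hKo : IsOpen (K : Set Gal(Qb/ℚ)) :=
      isOpen_normalCore F.fixingSubgroup_isOpen (index_ne_zero' F)
    have hKf : K.index ≠ 0 := by
      have : K.FiniteIndex := F.fixingSubgroup.finiteIndex_normalCore
      exact FiniteIndex.index_ne_zero
    have hZK : Z.fixingSubgroup ≤ K :=
      (normal_le_normalCore (hN := hZ)).2 (fixingSubgroup_le hFZ)
    have hKZ : fixedField K ≤ Z := by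
      rw [← InfiniteGalois.fixedField_fixingSubgroup Z]
      exact fixedField_antitone hZK
    have hfix := fix_fixed hKo
    have hNd := finite_fixed hKo hKf
    have hFN : F ≤ fixedField K := (le_iff_le _ _).2 (normalCore_le _)
    have hNn : IsGalois ℚ (fixedField K) :=
      (InfiniteGalois.normal_iff_isGalois (fixedField K)).1 (by rw [hfix]; exact hKn)
    refine field_detectFor p hI hIt R hR hRn hd (fixedField K) hNd hNn
      {E | E ≤ fixedField K ∧ MuZeroFor I p R E} ⟨fun E hE => hE.1, ?_⟩ (fun E hE => hE.2) F hFN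
    intro S _ _ _ τ hτ hs
    rw [hfix] at hτ
    have hnt : Nontrivial S := hs.1
    obtain ⟨v, hv, P, hP, hPp⟩ := exists_vec_P hKn hKf τ hτ
    have hle : K ≤ stab τ v := fun g hg => hτ g hg v
    have hso : IsOpen (stab τ v : Set Gal(Qb/ℚ)) := Subgroup.isOpen_mono hle hKo
    have hsf : (fixedField (stab τ v)).fixingSubgroup = stab τ v := fix_fixed hso
    refine ⟨fixedField (stab τ v), ⟨fixedField_antitone hle, ?_⟩, v, hv, ?_⟩
    · refine h _ ⟨S, inferInstance, inferInstance, inferInstance, τ, v, hs,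
        ⟨fixedField K, hNd, hKZ, by rw [hfix]; exact hτ⟩, hv, rfl⟩ ?_
      rw [finrank_eq_fixingSubgroup_index, hsf]
      exact fun h1 => hPp (h1.trans (index_dvd_of_le hP))
    · rw [hsf]
      exact fun g hg => hg

end Pool.Agent.Q60.MU
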