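import Mathlib

/-!
# A bound for central extensions with inertia subgroups
-/

set_option autoImplicit false

namespace Pool.Agent.Q60.MU

open Subgroup
open scoped commutatorElement

/-- the constant of the genus bound -/
def cst (n t : ℕ) : ℕ := n ^ (n * n ^ 2 + 1) * (n * n ^ t)

theorem comm_central_left {Γ : Type} [Group Γ] {a e y : Γ} (he : e ∈ center Γ) :
    ⁅a * e, y⁆ = ⁅a, y⁆ := by
  have h1 : e * y * e⁻¹ = y := by
    rw [← mem_center_iff.1 he y]
    group
  rw [commutatorElement_def, commutatorElement_def, mul_inv_rev]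
  calc a * e * y * (e⁻¹ * a⁻¹) * y⁻¹ = a * (e * y * e⁻¹) * a⁻¹ * y⁻¹ := by group
    _ = a * y * a⁻¹ * y⁻¹ := by rw [h1]

theorem comm_central_right {Γ : Type} [Group Γ] {x b f : Γ} (hf : f ∈ center Γ) :
    ⁅x, b * f⁆ = ⁅x, b⁆ := by
  have h1 : f * x⁻¹ * f⁻¹ = x⁻¹ := by
    rw [← mem_center_iff.1 hf x⁻¹]
    group
  rw [commutatorElement_def, commutatorElement_def, mul_inv_rev]
  calc x * (b * f) * x⁻¹ * (f⁻¹ * b⁻¹) = x * b * (f * x⁻¹ * f⁻¹) * b⁻¹ := by group
    _ = x * b * x⁻¹ * b⁻¹ := by rw [h1]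

theorem card_commutatorSet_le' {Γ : Type} [Group Γ] [Finite Γ] (E : Subgroup Γ)
    (hE : E ≤ center Γ) : Nat.card (commutatorSet Γ) ≤ E.index ^ 2 := by
  classical
  have h1 : Function.Surjective (fun x : (Γ ⧸ E) × (Γ ⧸ E) =>
      (⟨⁅x.1.out, x.2.out⁆, commutator_mem_commutatorSet _ _⟩ : commutatorSet Γ)) := by
    rintro ⟨_, g₁, g₂, rfl⟩
    refine ⟨((g₁ : Γ ⧸ E), (g₂ : Γ ⧸ E)), Subtype.ext ?_⟩
    obtain ⟨e, he⟩ := QuotientGroup.mk_out_eq_mul E g₁
    obtain ⟨f, hf⟩ := QuotientGroup.mk_out_eq_mul E g₂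
    show ⁅((g₁ : Γ ⧸ E)).out, ((g₂ : Γ ⧸ E)).out⁆ = ⁅g₁, g₂⁆
    rw [he, hf, comm_central_left (hE e.2), comm_central_right (hE f.2)]
  have h2 := Nat.card_le_card_of_surjective _ h1
  rwa [Nat.card_prod, ← sq] at h2

theorem card_sup_le' {A : Type} [CommGroup A] [Finite A] (B C : Subgroup A) :
    Nat.card (B ⊔ C : Subgroup A) ≤ Nat.card B * Nat.card C := by
  rw [← Nat.card_prod]
  refine Nat.card_le_card_of_surjective (fun x : B × C => (⟨x.1.1 * x.2.1,
    mul_mem_sup x.1.2 x.2.2⟩ : (B ⊔ C : Subgroup A))) ?_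
  rintro ⟨x, hx⟩
  obtain ⟨b, hb, c, hc, rfl⟩ := mem_sup.1 hx
  exact ⟨(⟨b, hb⟩, ⟨c, hc⟩), rfl⟩

theorem card_finset_sup_le {A : Type} [CommGroup A] [Finite A] {Ω : Type} (J : Ω → Subgroup A)
    (n : ℕ) (hn : ∀ w, Nat.card (J w) ≤ n) (T : Finset Ω) :
    Nat.card (T.sup J : Subgroup A) ≤ n ^ T.card := by
  classical
  induction T using Finset.induction_on with
  | empty => simp
  | insert a s ha ih =>
    rw [Finset.sup_insert, Finset.card_insert_of_notMem ha, pow_succ']
    exact (card_sup_le' _ _).trans (Nat.mul_le_mul (hn a) ih)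

/-- **Central extensions with inertia groups.** -/
theorem card_R_le {Γ : Type} [Group Γ] [Finite Γ] (p : ℕ) (E : Subgroup Γ)
    (hE : E ≤ center Γ) (hEp : ∀ e ∈ E, e ^ p = 1) {Ω : Type} (J : Ω → Subgroup Γ)
    (hJ : ∀ w, J w ⊓ E = ⊥) (T : Finset Ω)
    (hT : ∀ w, J w = ⊥ ∨ ∃ u ∈ T, ∃ g : Γ, ∀ x ∈ J w, g * x * g⁻¹ ∈ J u) :
    Nat.card (Subgroup.closure ({x : Γ | ∃ a, x = a ^ p} ∪ {x | ∃ a b : Γ, x = ⁅a, b⁆} ∪
      {x | ∃ w, x ∈ J w})) ≤ cst E.index T.card := by
  classical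
  have hn0 : 0 < E.index := Nat.pos_of_ne_zero E.index_ne_zero_of_finite
  let π : Γ →* Abelianization Γ := Abelianization.of
  have hπ : Function.Surjective π := QuotientGroup.mk_surjective
  let P : Subgroup (Abelianization Γ) := (powMonoidHom p : Abelianization Γ →* _).range
  let B : Subgroup (Abelianization Γ) := P ⊔ T.sup fun u => (J u).map π
  have h1 : Subgroup.closure ({x : Γ | ∃ a, x = a ^ p} ∪ {x | ∃ a b : Γ, x = ⁅a, b⁆} ∪
      {x | ∃ w, x ∈ J w}) ≤ B.comap π := by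
    rw [closure_le]
    rintro x ((⟨a, rfl⟩ | ⟨a, b, rfl⟩) | ⟨w, hw⟩)
    · refine mem_comap.2 (mem_sup_left ⟨π a, ?_⟩)
      rw [map_pow]
      rfl
    · refine mem_comap.2 ?_
      rw [map_commutatorElement, commutatorElement_eq_one_iff_mul_comm.2 (mul_comm _ _)]
      exact B.one_mem
    · refine mem_comap.2 ?_
      rcases hT w with h | ⟨u, hu, g, hg⟩
      · rw [h, mem_bot] at hw
        rw [hw, map_one]
        exact B.one_mem
      · have h2 : π x = π (g * x * g⁻¹) := by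
          rw [map_mul, map_mul, map_inv, mul_comm (π g) (π x), mul_inv_cancel_right]
        rw [h2]
        refine mem_sup_right ?_
        have h3 : (J u).map π ≤ T.sup fun u => (J u).map π :=
          Finset.le_sup (f := fun u => (J u).map π) hu
        exact h3 ⟨_, hg x hw, rfl⟩
  have h2 : Nat.card (B.comap π) = Nat.card π.ker * Nat.card B := by
    have e1 := (B.comap π).card_mul_index
    have e2 := B.card_mul_index
    have e3 := π.ker.card_mul_index
    rw [index_comap_of_surjective B hπ] at e1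
    rw [index_ker, MonoidHom.range_eq_top.2 hπ, card_top] at e3
    have e4 : 0 < B.index := Nat.pos_of_ne_zero B.index_ne_zero_of_finite
    apply Nat.eq_of_mul_eq_mul_right e4
    rw [e1, mul_assoc, e2, e3]
  have h3 : Nat.card π.ker ≤ E.index ^ (E.index * E.index ^ 2 + 1) := by
    have e1 : π.ker = _root_.commutator Γ := Abelianization.ker_of Γ
    rw [e1]
    have e2 := card_commutator_dvd_index_center_pow Γ
    have e3 : (center Γ).index ≤ E.index := Nat.le_of_dvd hn0 (index_dvd_of_le hE)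
    have e4 : 0 < (center Γ).index := Nat.pos_of_ne_zero (center Γ).index_ne_zero_of_finite
    refine (Nat.le_of_dvd (pow_pos e4 _) e2).trans ?_
    refine (Nat.pow_le_pow_left e3 _).trans ?_
    refine Nat.pow_le_pow_right hn0 ?_
    exact Nat.succ_le_succ (Nat.mul_le_mul e3 (card_commutatorSet_le' E hE))
  have h4 : Nat.card P ≤ E.index := by
    show Nat.card (powMonoidHom p : Abelianization Γ →* _).range ≤ _
    rw [← index_ker]
    have e1 : E.map π ≤ (powMonoidHom p : Abelianization Γ →* _).ker := by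
      rintro _ ⟨e, he, rfl⟩
      show (π e) ^ p = 1
      rw [← map_pow, hEp e he, map_one]
    have e2 := index_dvd_of_le e1
    have e3 := index_map_dvd E hπ
    exact Nat.le_of_dvd hn0 (e2.trans e3)
  have h5 : ∀ u, Nat.card ((J u).map π) ≤ E.index := by
    intro u
    have e1 : Nat.card ((J u).map π) ≤ Nat.card (J u) := by
      refine Nat.card_le_card_of_surjective (fun x : J u => (⟨π x, x, x.2, rfl⟩ : (J u).map π)) ?_
      rintro ⟨_, x, hx, rfl⟩
      exact ⟨⟨x, hx⟩, rfl⟩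
    have e2 : Nat.card (J u) ≤ E.index := by
      rw [index]
      refine Nat.card_le_card_of_injective (fun x : J u => (x.1 : Γ ⧸ E)) ?_
      intro x y hxy
      have h6 : x.1⁻¹ * y.1 ∈ E := QuotientGroup.eq.1 hxy
      have h7 : x.1⁻¹ * y.1 ∈ J u ⊓ E := ⟨(J u).mul_mem ((J u).inv_mem x.2) y.2, h6⟩
      rw [hJ, mem_bot] at h7
      exact Subtype.ext (inv_mul_eq_one.1 h7)
    exact e1.trans e2
  calc Nat.card (Subgroup.closure ({x : Γ | ∃ a, x = a ^ p} ∪ {x | ∃ a b : Γ, x = ⁅a, b⁆} ∪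
      {x | ∃ w, x ∈ J w})) ≤ Nat.card (B.comap π) := card_le_of_le h1
    _ = Nat.card π.ker * Nat.card B := h2
    _ ≤ E.index ^ (E.index * E.index ^ 2 + 1) * (E.index * E.index ^ T.card) := by
        refine Nat.mul_le_mul h3 ((card_sup_le' _ _).trans (Nat.mul_le_mul h4 ?_))
        exact card_finset_sup_le (fun u => (J u).map π) _ h5 T

end Pool.Agent.Q60.MU
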