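import Pool.Agent.Q60.MU.RealCM2

/-!
# Detection by the fixed fields of involutions
-/

set_option autoImplicit false

namespace Pool.Agent.Q60.MU

open Subgroup Module IntermediateField
open scoped commutatorElement

/-- the automorphisms whose square is trivial on `N` -/
def invSet (N : IntermediateField ℚ Qb) : Set Gal(Qb/ℚ) := {s | s * s ∈ N.fixingSubgroup}

/-- the subfield of the elements of `N` which are fixed by `s` -/
noncomputable def fixedPart (s : Gal(Qb/ℚ)) (N : IntermediateField ℚ Qb) :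
    IntermediateField ℚ Qb := N ⊓ fixedField (zpowers s)

/-- the largest subfield of `N` on which all involutions of `Gal(N/ℚ)` commute with all
automorphisms -/
noncomputable def centralPart (N : IntermediateField ℚ Qb) : IntermediateField ℚ Qb :=
  N ⊓ fixedField (normalClosure {g | ∃ s ∈ invSet N, ∃ h : Gal(Qb/ℚ), g = ⁅s, h⁆})

theorem dichotomy'' {𝔾 : Type} [Group 𝔾] {k : Type} [Field k] {c : 𝔾} {S : Type}
    [AddCommGroup S] [Module k S] (τ : Representation k 𝔾 S) (hc : ∀ x, τ (c * c) x = x) :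
    (∃ v : S, v ≠ 0 ∧ τ c v = v) ∨ ∀ x, τ c x = -x := by
  by_cases h : ∃ v : S, v ≠ 0 ∧ τ c v = v
  · exact Or.inl h
  right
  push Not at h
  intro x
  by_contra hne
  refine h (x + τ c x) (fun h0 => hne ?_) ?_
  · rw [add_comm] at h0
    exact eq_neg_of_add_eq_zero_left h0
  · have h1 : τ c (τ c x) = x := by
      have h2 : τ c (τ c x) = τ (c * c) x := by rw [map_mul]; rfl
      rw [h2, hc]
    rw [map_add, h1, add_comm]

theorem detecting_involutions (p : ℕ) [Fact p.Prime] (N : IntermediateField ℚ Qb)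
    (hN : FiniteDimensional ℚ N) (hNn : IsGalois ℚ N) :
    Detecting p N {E | (∃ s ∈ invSet N, s ∉ N.fixingSubgroup ∧ E = fixedPart s N) ∨
      E = centralPart N} := by
  refine ⟨?_, ?_⟩
  · rintro E (⟨s, _, _, rfl⟩ | rfl)
    · exact inf_le_left
    · exact inf_le_left
  intro S _ _ _ τ hτ hs
  by_cases h : ∃ s ∈ invSet N, s ∉ N.fixingSubgroup ∧ ∃ v : S, v ≠ 0 ∧ τ s v = v
  · obtain ⟨s, hs1, hs2, v, hv, hsv⟩ := h
    refine ⟨fixedPart s N, Or.inl ⟨s, hs1, hs2, rfl⟩, v, hv, ?_⟩
    have hle : (fixedPart s N).fixingSubgroup ≤ stab τ v := by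
      rw [fixedPart, fixing_inf, sup_le_iff, zpowers_le]
      exact ⟨fun g hg => hτ g hg v, hsv⟩
    exact fun g hg => hle hg
  · obtain ⟨v, hv⟩ := (@exists_ne S hs.1 0)
    refine ⟨centralPart N, Or.inr rfl, v, hv, ?_⟩
    have hn := kern_normal τ
    have hle : (centralPart N).fixingSubgroup ≤ kern τ := by
      rw [centralPart, fixing_inf, sup_le_iff]
      refine ⟨fun g hg => hτ g hg, normalClosure_le_normal ?_⟩
      rintro _ ⟨s, hs1, g, rfl⟩
      by_cases hs2 : s ∈ N.fixingSubgroup
      · have h1 : s ∈ kern τ := hτ s hs2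
        rw [commutatorElement_def]
        have h2 : s * g * s⁻¹ * g⁻¹ = s * (g * s⁻¹ * g⁻¹) := by group
        rw [h2]
        exact mul_mem h1 (hn.conj_mem _ (inv_mem h1) g)
      · rcases dichotomy'' (c := s) τ (fun x => hτ _ hs1 x) with h3 | h3
        · exact absurd ⟨s, hs1, hs2, h3⟩ h
        · exact comm_mem_kern h3 g
    exact fun g hg => hle hg v

end Pool.Agent.Q60.MU
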