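import Pool.Agent.Q60.MU.Core

/-!
# The main inequality
-/

set_option autoImplicit false

namespace Pool.Agent.Q60.MU

open Subgroup Module
open scoped commutatorElement

variable {𝔾 : Type} [Group 𝔾]

theorem cst_mono {a n s t : ℕ} (ha : 1 ≤ a) (han : a ≤ n) (hst : s ≤ t) :
    cst a s ≤ cst n t := by
  have hn : 1 ≤ n := ha.trans han
  unfold cst
  refine Nat.mul_le_mul ?_ (Nat.mul_le_mul han ?_)
  · refine (Nat.pow_le_pow_left han _).trans (Nat.pow_le_pow_right hn ?_)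
    exact Nat.succ_le_succ (Nat.mul_le_mul han (Nat.pow_le_pow_left han _))
  · exact (Nat.pow_le_pow_left han _).trans (Nat.pow_le_pow_right hn hst)

theorem exists_TL {Ω : Type} [MulAction 𝔾 Ω] {D L : Subgroup 𝔾}
    (hf : L.relIndex D ≠ 0) (T : Finset Ω) :
    ∃ T' : Finset Ω, T'.card ≤ L.relIndex D * T.card ∧
      ∀ u ∈ T, ∀ d ∈ D, ∃ u' ∈ T', ∃ l ∈ L, d • u = l • u' := by
  classical
  have hfi : (L.subgroupOf D).FiniteIndex := ⟨hf⟩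
  have ft : Fintype (D ⧸ L.subgroupOf D) := Fintype.ofFinite _
  refine ⟨((Finset.univ : Finset (D ⧸ L.subgroupOf D)) ×ˢ T).image
    (fun x => (((x.1.out : D) : 𝔾))⁻¹ • x.2), ?_, ?_⟩
  · refine Finset.card_image_le.trans ?_
    rw [Finset.card_product, Finset.card_univ, ← Nat.card_eq_fintype_card]
    exact le_rfl
  · intro u hu d hd
    obtain ⟨l, hl⟩ := QuotientGroup.mk_out_eq_mul (L.subgroupOf D) (⟨d, hd⟩ : D)⁻¹
    refine ⟨_, Finset.mem_image.2 ⟨((((⟨d, hd⟩ : D)⁻¹ : D) : D ⧸ L.subgroupOf D), u),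
      Finset.mem_product.2 ⟨Finset.mem_univ _, hu⟩, rfl⟩, ((l : D) : 𝔾), l.2, ?_⟩
    show d • u = ((l : D) : 𝔾) • ((((((⟨d, hd⟩ : D)⁻¹ : D) : D ⧸ L.subgroupOf D).out : D) : 𝔾)⁻¹ • u)
    rw [hl, smul_smul]
    congr 1
    push_cast
    group

/-- **The main inequality.** -/
theorem main_ineq [TopologicalSpace 𝔾] [ContinuousMul 𝔾] {p : ℕ} [Fact p.Prime] {Ω : Type}
    [MulAction 𝔾 Ω] {I : Ω → Subgroup 𝔾}
    (hI : ∀ (g : 𝔾) (w : Ω), ∀ x ∈ I w, g * x * g⁻¹ ∈ I (g • w))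
    {K D : Subgroup 𝔾} (hKD : K ≤ D) (hKn : ∀ d ∈ D, ∀ x ∈ K, d * x * d⁻¹ ∈ K) {n t : ℕ}
    (hn0 : K.relIndex D ≠ 0) (hn : K.relIndex D ≤ n)
    (𝓗 : Finset (Subgroup 𝔾)) (hH : ∀ L ∈ 𝓗, K ≤ L ∧ L ≤ D)
    (hdet : Detects (ZMod p) (K.subgroupOf D) 𝓗 (fun L => L.subgroupOf D))
    (T : Finset Ω) (hTt : T.card ≤ t) (hT : ∀ w, I w ⊓ D ≤ K ∨ ∃ u ∈ T, ∃ d ∈ D, w = d • u)
    {C : ℕ} (hC : ∀ L ∈ 𝓗, RankLe p I L C) :
    RankLe p I K ((cst n (n * t) * C) ^ (n * 𝓗.card)) := by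
  classical
  intro W₀ hW₀K hW₀o hW₀f hg₀
  obtain ⟨W, hWW₀, hWo, hWf, hg, hWn⟩ := exists_core hI hKn hn0 hW₀K hW₀o hW₀f hg₀
  have hWK : W ≤ K := hWW₀.trans hW₀K
  refine (relIndex_le_of_le_left hWW₀ hWf).trans ?_
  obtain ⟨V, i1, i2, i3, ρ, π, hs, ha, h0, hρ⟩ := exists_rep hKD hKn hWf hg hWn
  have hπ1 : π 1 = 0 := (h0 1).2 W.one_mem
  have htriv : ∀ g ∈ K.subgroupOf D, ∀ x, ρ g x = x := by
    intro g hgK x
    obtain ⟨y, rfl⟩ := hs x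
    rw [hρ]
    have h1 : (⟨g * y * (g : 𝔾)⁻¹, hKn g g.2 y y.2⟩ : K) =
        ⟨⁅(g : 𝔾), (y : 𝔾)⁆, hWK (hg (Or.inl (Or.inr ⟨g, hgK, y, y.2, rfl⟩)))⟩ * y := by
      apply Subtype.ext
      show (g : 𝔾) * y * (g : 𝔾)⁻¹ = ⁅(g : 𝔾), (y : 𝔾)⁆ * y
      rw [commutatorElement_def]
      group
    rw [h1, ha, (h0 _).2 (hg (Or.inl (Or.inr ⟨g, hgK, y, y.2, rfl⟩))), zero_add]
  -- the coinvariants
  have hcard : ∀ c : Submodule (ZMod p) V, ∀ Q : Subgroup 𝔾,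
      (∀ x, x ∈ Q ↔ ∃ h : x ∈ K, π ⟨x, h⟩ ∈ c) →
      Q.relIndex K = p ^ finrank (ZMod p) (V ⧸ c) := by
    intro c Q hQ
    let φ : K →* Multiplicative (V ⧸ c) :=
      { toFun := fun x => Multiplicative.ofAdd (c.mkQ (π x))
        map_one' := by
          rw [hπ1, map_zero]
          rfl
        map_mul' := fun x y => by
          rw [ha, map_add]
          rfl }
    have h1 : Q.subgroupOf K = φ.ker := by
      ext x
      rw [mem_subgroupOf, hQ, MonoidHom.mem_ker]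
      constructor
      · rintro ⟨_, h⟩
        exact (Submodule.Quotient.mk_eq_zero c).2 h
      · intro h
        exact ⟨x.2, (Submodule.Quotient.mk_eq_zero c).1 h⟩
    have h2 : Function.Surjective φ := by
      intro y
      obtain ⟨v, hv⟩ := c.mkQ_surjective (Multiplicative.toAdd y)
      obtain ⟨x, rfl⟩ := hs v
      exact ⟨x, congrArg Multiplicative.ofAdd hv⟩
    have h3 : Nat.card (V ⧸ c) = p ^ finrank (ZMod p) (V ⧸ c) := by
      have h4 := Module.natCard_eq_pow_finrank (K := ZMod p) (V := V ⧸ c)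
      rwa [Nat.card_zmod] at h4
    rw [relIndex, h1, index_ker, MonoidHom.range_eq_top.2 h2, card_top, ← h3]
    rfl
  have hmkQ : ∀ c : Submodule (ZMod p) V, ∃ Q : Subgroup 𝔾,
      ∀ x, x ∈ Q ↔ ∃ h : x ∈ K, π ⟨x, h⟩ ∈ c := by
    intro c
    refine ⟨⟨⟨⟨{x | ∃ h : x ∈ K, π ⟨x, h⟩ ∈ c}, ?_⟩, ?_⟩, ?_⟩, fun x => Iff.rfl⟩
    · rintro a b ⟨h1, h2⟩ ⟨h3, h4⟩
      refine ⟨K.mul_mem h1 h3, ?_⟩
      have h5 : π ⟨a * b, K.mul_mem h1 h3⟩ = π ⟨a, h1⟩ + π ⟨b, h3⟩ := ha ⟨a, h1⟩ ⟨b, h3⟩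
      rw [h5]
      exact c.add_mem h2 h4
    · refine ⟨K.one_mem, ?_⟩
      have h5 : π ⟨1, K.one_mem⟩ = 0 := hπ1
      rw [h5]
      exact c.zero_mem
    · rintro a ⟨h1, h2⟩
      refine ⟨K.inv_mem h1, ?_⟩
      have h5 : π ⟨a, h1⟩ + π ⟨a⁻¹, K.inv_mem h1⟩ = 0 := by
        rw [← ha, ← hπ1]
        congr 1
        exact Subtype.ext (mul_inv_cancel a)
      have h6 : π ⟨a⁻¹, K.inv_mem h1⟩ = - π ⟨a, h1⟩ := (neg_eq_of_add_eq_zero_right h5).symm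
      rw [h6]
      exact c.neg_mem h2
  have hL : ∀ L ∈ 𝓗, p ^ finrank (ZMod p) (V ⧸ coinv ρ (L.subgroupOf D)) ≤
      cst n (n * t) * C := by
    intro L hLH
    obtain ⟨hKL, hLD⟩ := hH L hLH
    obtain ⟨Q, hQ⟩ := hmkQ (coinv ρ (L.subgroupOf D))
    have hidx := hcard _ Q hQ
    have hmul : K.relIndex L * L.relIndex D = K.relIndex D := relIndex_mul_relIndex K L D hKL hLD
    have hKL0 : K.relIndex L ≠ 0 := fun h => hn0 (by rw [← hmul, h, zero_mul])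
    have hLD0 : L.relIndex D ≠ 0 := fun h => hn0 (by rw [← hmul, h, mul_zero])
    have hKLn : K.relIndex L ≤ n := by
      refine le_trans ?_ hn
      rw [← hmul]
      exact Nat.le_mul_of_pos_right _ (Nat.pos_of_ne_zero hLD0)
    have hLDn : L.relIndex D ≤ n := by
      refine le_trans ?_ hn
      rw [← hmul]
      exact Nat.le_mul_of_pos_left _ (Nat.pos_of_ne_zero hKL0)
    obtain ⟨T', hT'c, hT'⟩ := exists_TL hLD0 T
    have hWQ : W ≤ Q := by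
      intro x hx
      refine (hQ x).2 ⟨hWK hx, ?_⟩
      rw [(h0 ⟨x, hWK hx⟩).2 hx]
      exact (coinv ρ (L.subgroupOf D)).zero_mem
    have hc : ∀ l ∈ L, ∀ k ∈ K, ⁅l, k⁆ ∈ Q := by
      intro l hl k hk
      have hlk : l * k * l⁻¹ ∈ K := hKn l (hLD hl) k hk
      have hm : ⁅l, k⁆ ∈ K := by
        rw [commutatorElement_def]
        exact K.mul_mem hlk (K.inv_mem hk)
      refine (hQ _).2 ⟨hm, ?_⟩
      have h1 : π ⟨⁅l, k⁆, hm⟩ + π ⟨k, hk⟩ = ρ ⟨l, hLD hl⟩ (π ⟨k, hk⟩) := by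
        rw [hρ, ← ha]
        congr 1
        apply Subtype.ext
        show ⁅l, k⁆ * k = l * k * l⁻¹
        rw [commutatorElement_def]
        group
      have h2 : π ⟨⁅l, k⁆, hm⟩ = ρ ⟨l, hLD hl⟩ (π ⟨k, hk⟩) - π ⟨k, hk⟩ := by
        rw [← h1, add_sub_cancel_right]
      rw [h2]
      exact Submodule.subset_span ⟨⟨l, hLD hl⟩, hl, _, rfl⟩
    have h1 := genus hI hKL hKL0 (fun x hx => ((hQ x).1 hx).1) (isOpen_mono hWQ hWo)
      (by
        rw [hidx]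
        exact pow_ne_zero _ (Fact.out : p.Prime).ne_zero)
      (fun x hx => hWQ (hg hx)) hc T' (by
        intro w
        rcases hT w with h | ⟨u, hu, d, hd, rfl⟩
        · exact Or.inl ((inf_le_inf_left _ hLD).trans h)
        · exact Or.inr (hT' u hu d hd)) (hC L hLH)
    rw [hidx] at h1
    refine h1.trans (Nat.mul_le_mul_right _ ?_)
    refine cst_mono (Nat.pos_of_ne_zero hKL0) hKLn (hT'c.trans (Nat.mul_le_mul hLDn hTt))
  -- the dimension of `V`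
  have hWidx : W.relIndex K = p ^ finrank (ZMod p) V := by
    have h1 := hcard ⊥ W (by
      intro x
      constructor
      · intro hx
        exact ⟨hWK hx, (Submodule.mem_bot _).2 ((h0 _).2 hx)⟩
      · rintro ⟨h, h'⟩
        exact (h0 ⟨x, h⟩).1 ((Submodule.mem_bot _).1 h'))
    have h2 := (⊥ : Submodule (ZMod p) V).finrank_quotient_add_finrank
    rw [finrank_bot, add_zero] at h2
    rw [h1, h2]
  have hdim := finrank_le ρ (K₀ := K.subgroupOf D) hn0 htriv hdet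
  have hp1 : 1 ≤ p := (Fact.out : p.Prime).one_le
  rw [hWidx]
  calc p ^ finrank (ZMod p) V
      ≤ p ^ (n * ∑ L ∈ 𝓗, finrank (ZMod p) (V ⧸ coinv ρ (L.subgroupOf D))) :=
        Nat.pow_le_pow_right hp1 (hdim.trans (Nat.mul_le_mul_right _ hn))
    _ = (∏ L ∈ 𝓗, p ^ finrank (ZMod p) (V ⧸ coinv ρ (L.subgroupOf D))) ^ n := by
        rw [Finset.prod_pow_eq_pow_sum, ← pow_mul, mul_comm]
    _ ≤ ((cst n (n * t) * C) ^ 𝓗.card) ^ n :=
        Nat.pow_le_pow_left (Finset.prod_le_pow_card _ _ _ hL) _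
    _ = (cst n (n * t) * C) ^ (n * 𝓗.card) := by rw [← pow_mul, mul_comm 𝓗.card n]

theorem gens_mono {p : ℕ} {Ω : Type} {I : Ω → Subgroup 𝔾} {K L : Subgroup 𝔾} (h : K ≤ L) :
    gens p I K ⊆ gens p I L := by
  rintro x ((⟨a, ha, rfl⟩ | ⟨a, ha, b, hb, rfl⟩) | ⟨hx, w, hw⟩)
  · exact Or.inl (Or.inl ⟨a, h ha, rfl⟩)
  · exact Or.inl (Or.inr ⟨a, h ha, b, h hb, rfl⟩)
  · exact Or.inr ⟨h hx, w, hw⟩

theorem gens_subset {p : ℕ} {Ω : Type} {I : Ω → Subgroup 𝔾} {K : Subgroup 𝔾} :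
    gens p I K ⊆ K := by
  rintro x ((⟨a, ha, rfl⟩ | ⟨a, ha, b, hb, rfl⟩) | ⟨hx, w, hw⟩)
  · exact K.pow_mem ha p
  · rw [commutatorElement_def]
    exact K.mul_mem (K.mul_mem (K.mul_mem ha hb) (K.inv_mem ha)) (K.inv_mem hb)
  · exact hx

/-- **Subfields.** -/
theorem RankLe.of_le [TopologicalSpace 𝔾] {p : ℕ} {Ω : Type} {I : Ω → Subgroup 𝔾}
    {K L : Subgroup 𝔾} (hKL : K ≤ L) (hKo : IsOpen (K : Set 𝔾)) (hf : K.relIndex L ≠ 0) {C : ℕ}
    (hC : RankLe p I K C) : RankLe p I L (C * K.relIndex L) := by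
  intro W hWL hWo hWf hg
  have h1 : (W ⊓ K).relIndex K ≠ 0 := by
    rw [inf_relIndex_right]
    exact fun h => hWf (relIndex_eq_zero_of_le_right hKL h)
  have h2 := hC (W ⊓ K) inf_le_right (by
    rw [coe_inf]
    exact hWo.inter hKo) h1 (fun x hx => ⟨hg (gens_mono hKL hx), gens_subset hx⟩)
  have h3 := relIndex_mul_relIndex (W ⊓ K) K L inf_le_right hKL
  have h4 : (W ⊓ K).relIndex L ≠ 0 := by
    rw [← h3]
    exact mul_ne_zero h1 hf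
  calc W.relIndex L ≤ (W ⊓ K).relIndex L := relIndex_le_of_le_left inf_le_left h4
    _ = (W ⊓ K).relIndex K * K.relIndex L := h3.symm
    _ ≤ C * K.relIndex L := Nat.mul_le_mul_right _ h2

theorem RankLe.mono [TopologicalSpace 𝔾] {p : ℕ} {Ω : Type} {I : Ω → Subgroup 𝔾}
    {K : Subgroup 𝔾} {C C' : ℕ} (hC : RankLe p I K C) (h : C ≤ C') : RankLe p I K C' :=
  fun W h1 h2 h3 h4 => (hC W h1 h2 h3 h4).trans h

end Pool.Agent.Q60.MU
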