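import Pool.Agent.Q60.MU.RealFields

/-!
# Fields with a real place and CM fields
-/

set_option autoImplicit false

namespace Pool.Agent.Q60.MU

open Subgroup Module IntermediateField
open scoped commutatorElement

section group

variable {𝔾 : Type} [Group 𝔾]

/-- either `c` fixes a nonzero vector, or `c` acts as `-1` -/
theorem dichotomy' {k : Type} [Field k] {c : 𝔾} (hc : c * c = 1) {S : Type} [AddCommGroup S]
    [Module k S] (τ : Representation k 𝔾 S) :
    (∃ v : S, v ≠ 0 ∧ τ c v = v) ∨ ∀ x, τ c x = -x := by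
  by_cases h : ∃ v : S, v ≠ 0 ∧ τ c v = v
  · exact Or.inl h
  right
  push Not at h
  intro x
  by_contra hne
  refine h (x + τ c x) (fun h0 => hne ?_) ?_
  · rw [add_comm] at h0
    exact eq_neg_of_add_eq_zero_left h0
  · have h1 : τ c (τ c x) = x := by
      have h2 : τ c (τ c x) = τ (c * c) x := by rw [map_mul]; rfl
      rw [h2, hc, map_one]
      rfl
    rw [map_add, h1, add_comm]

/-- the kernel of a representation -/
def kern {k : Type} [Field k] {S : Type} [AddCommGroup S] [Module k S]
    (τ : Representation k 𝔾 S) : Subgroup 𝔾 where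
  carrier := {g | ∀ x, τ g x = x}
  one_mem' := fun x => by rw [map_one]; rfl
  mul_mem' := fun {a b} ha hb x => by rw [map_mul, Module.End.mul_apply, hb, ha]
  inv_mem' := fun {a} ha x => by
    have h1 : τ a⁻¹ (τ a x) = x := by
      rw [← Module.End.mul_apply, ← map_mul, inv_mul_cancel, map_one]
      rfl
    rwa [ha x] at h1

theorem kern_normal {k : Type} [Field k] {S : Type} [AddCommGroup S] [Module k S]
    (τ : Representation k 𝔾 S) : (kern τ).Normal := by
  refine ⟨fun w hw a x => ?_⟩
  have h1 : τ (a * w * a⁻¹) x = τ a (τ w (τ a⁻¹ x)) := by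
    rw [map_mul, map_mul]
    rfl
  rw [h1, hw, ← Module.End.mul_apply, ← map_mul, mul_inv_cancel, map_one]
  rfl

theorem comm_mem_kern {k : Type} [Field k] {c : 𝔾} {S : Type} [AddCommGroup S]
    [Module k S] {τ : Representation k 𝔾 S} (h : ∀ x, τ c x = -x) (g : 𝔾) : ⁅c, g⁆ ∈ kern τ := by
  intro x
  have h1 : τ ⁅c, g⁆ x = τ c (τ g (τ c⁻¹ (τ g⁻¹ x))) := by
    rw [commutatorElement_def, map_mul, map_mul, map_mul]
    rfl
  have h2 : ∀ y, τ c⁻¹ y = -y := by
    intro y
    have h3 : τ c⁻¹ (τ c (-y)) = -y := by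
      rw [← Module.End.mul_apply, ← map_mul, inv_mul_cancel, map_one]
      rfl
    rwa [h, neg_neg] at h3
  rw [h1, h2, h, map_neg, neg_neg, ← Module.End.mul_apply, ← map_mul, mul_inv_cancel, map_one]
  rfl

end group

/-- the subfield of the elements of `N` which are fixed by `c` -/
noncomputable def realPart (c : Gal(Qb/ℚ)) (N : IntermediateField ℚ Qb) :
    IntermediateField ℚ Qb := N ⊓ fixedField (zpowers c)

/-- the largest subfield of `N` on which `c` commutes with all automorphisms: for complex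
conjugation `c` the largest subfield which is totally real or CM -/
noncomputable def cmPart (c : Gal(Qb/ℚ)) (N : IntermediateField ℚ Qb) :
    IntermediateField ℚ Qb :=
  N ⊓ fixedField (normalClosure {g | ∃ h : Gal(Qb/ℚ), g = ⁅c, h⁆})

/-- `E` is a CM field (for complex conjugation `c`): the automorphisms of `Qb` commute with `c` on
`E`, and `c` is not trivial on `E`. -/
def CMField (c : Gal(Qb/ℚ)) (E : IntermediateField ℚ Qb) : Prop :=
  FiniteDimensional ℚ E ∧ (∀ σ : Gal(Qb/ℚ), ∀ x ∈ E, c (σ x) = σ (c x)) ∧ ∃ x ∈ E, c x ≠ x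

theorem inf_fixing {N : IntermediateField ℚ Qb} (D : Subgroup Gal(Qb/ℚ)) :
    N ⊓ fixedField D = fixedField (N.fixingSubgroup ⊔ D) := by
  apply le_antisymm
  · refine (le_iff_le _ _).2 (sup_le (fixingSubgroup_le inf_le_left) ?_)
    exact ((le_iff_le _ _).1 (le_refl (fixedField D))).trans (fixingSubgroup_le inf_le_right)
  · refine le_inf ?_ (fixedField_antitone le_sup_right)
    conv_rhs => rw [← InfiniteGalois.fixedField_fixingSubgroup N]
    exact fixedField_antitone le_sup_left

theorem fixing_inf {N : IntermediateField ℚ Qb} [FiniteDimensional ℚ N]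
    (D : Subgroup Gal(Qb/ℚ)) :
    (N ⊓ fixedField D).fixingSubgroup = N.fixingSubgroup ⊔ D := by
  rw [inf_fixing]
  exact fix_fixed (Subgroup.isOpen_mono le_sup_left N.fixingSubgroup_isOpen)

theorem mu_real_cm (p : ℕ) [Fact p.Prime] (R : ℕ → IntermediateField ℚ Qb)
    (hR : ∀ m, FiniteDimensional ℚ (R m)) (hRn : ∀ m, IsGalois ℚ (R m)) (hd : FinDec R)
    (c : Gal(Qb/ℚ)) (hc : c * c = 1) (N : IntermediateField ℚ Qb) (hN : FiniteDimensional ℚ N)
    (hNn : IsGalois ℚ N) :
    MuZero p R N ↔ MuZero p R (realPart c N) ∧ MuZero p R (cmPart c N) := by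
  constructor
  · intro h
    exact ⟨mu_le p R hR hRn hd N hN hNn h _ inf_le_left,
      mu_le p R hR hRn hd N hN hNn h _ inf_le_left⟩
  · rintro ⟨h1, h2⟩
    refine field_detect p R hR hRn hd N hN hNn {E | E ≤ N ∧ MuZero p R E} (fun E hE => hE.1) ?_
      (fun E hE => hE.2) N le_rfl
    intro S _ _ _ τ hτ hs
    rcases dichotomy' hc τ with ⟨v, hv, hcv⟩ | hneg
    · refine ⟨realPart c N, ⟨inf_le_left, h1⟩, v, hv, ?_⟩
      have hle : (realPart c N).fixingSubgroup ≤ stab τ v := by
        rw [realPart, fixing_inf, sup_le_iff, zpowers_le]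
        exact ⟨fun g hg => hτ g hg v, hcv⟩
      exact fun g hg => hle hg
    · obtain ⟨v, hv⟩ := (@exists_ne S hs.1 0)
      refine ⟨cmPart c N, ⟨inf_le_left, h2⟩, v, hv, ?_⟩
      have hle : (cmPart c N).fixingSubgroup ≤ kern τ := by
        have hn := kern_normal τ
        rw [cmPart, fixing_inf, sup_le_iff]
        refine ⟨fun g hg => hτ g hg, normalClosure_le_normal ?_⟩
        rintro _ ⟨g, rfl⟩
        exact comm_mem_kern hneg g
      exact fun g hg => hle hg v

theorem mu_all (p : ℕ) [Fact p.Prime] (hp : p ≠ 2) (R : ℕ → IntermediateField ℚ Qb)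
    (hR : ∀ m, FiniteDimensional ℚ (R m)) (hRn : ∀ m, IsGalois ℚ (R m)) (hd : FinDec R)
    (c : Gal(Qb/ℚ)) (hc : c * c = 1)
    (hreal : ∀ F : IntermediateField ℚ Qb, FiniteDimensional ℚ F → (∀ x ∈ F, c x = x) →
      MuZero p R F)
    (hcm : ∀ E : IntermediateField ℚ Qb, CMField c E → ¬ p ∣ finrank ℚ E → MuZero p R E)
    (F : IntermediateField ℚ Qb) (hF : FiniteDimensional ℚ F) : MuZero p R F := by
  classical
  have hUf : F.fixingSubgroup.FiniteIndex := ⟨index_ne_zero' F⟩
  set K := F.fixingSubgroup.normalCore with hKdef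
  have hKn : K.Normal := normalCore_normal _
  have hKo : IsOpen (K : Set Gal(Qb/ℚ)) :=
    isOpen_normalCore F.fixingSubgroup_isOpen (index_ne_zero' F)
  have hKf : K.index ≠ 0 := by
    have : K.FiniteIndex := F.fixingSubgroup.finiteIndex_normalCore
    exact FiniteIndex.index_ne_zero
  have hfix := fix_fixed hKo
  have hNd := finite_fixed hKo hKf
  have hFN : F ≤ fixedField K := (le_iff_le _ _).2 (normalCore_le _)
  have hNn : IsGalois ℚ (fixedField K) :=
    (InfiniteGalois.normal_iff_isGalois (fixedField K)).1 (by rw [hfix]; exact hKn)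
  refine field_detect p R hR hRn hd (fixedField K) hNd hNn
    {E | E ≤ fixedField K ∧ MuZero p R E} (fun E hE => hE.1) ?_ (fun E hE => hE.2) F hFN
  intro S _ _ _ τ hτ hs
  rcases dichotomy' hc τ with ⟨v, hv, hcv⟩ | hneg
  · have hle0 : realPart c (fixedField K) ≤ fixedField K := inf_le_left
    refine ⟨realPart c (fixedField K), ⟨hle0, hreal _ (finite_of_le hle0 hNd) ?_⟩, v, hv, ?_⟩
    · intro x hx
      exact (mem_fixedField_iff _ _).1 hx.2 c (mem_zpowers c)
    · have hle : (realPart c (fixedField K)).fixingSubgroup ≤ stab τ v := by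
        rw [realPart, fixing_inf, sup_le_iff, zpowers_le]
        exact ⟨fun g hg => hτ g hg v, hcv⟩
      exact fun g hg => hle hg
  · rw [hfix] at hτ
    have hnt : Nontrivial S := hs.1
    obtain ⟨v, hv, P, hP, hPp⟩ := exists_vec_P hKn hKf τ hτ
    have hle : K ≤ stab τ v := fun g hg => hτ g hg v
    have hso : IsOpen (stab τ v : Set Gal(Qb/ℚ)) := Subgroup.isOpen_mono hle hKo
    have hsf : (fixedField (stab τ v)).fixingSubgroup = stab τ v := fix_fixed hso
    have hle0 : fixedField (stab τ v) ≤ fixedField K := fixedField_antitone hle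
    refine ⟨fixedField (stab τ v), ⟨hle0, hcm _ ⟨finite_of_le hle0 hNd, ?_, ?_⟩ ?_⟩, v, hv, ?_⟩
    · intro σ x hx
      have h1 : ⁅c⁻¹, σ⁻¹⁆ ∈ stab τ v := by
        have h2 : ∀ y, τ c⁻¹ y = -y := by
          intro y
          have h3 : τ c⁻¹ (τ c (-y)) = -y := by
            rw [← Module.End.mul_apply, ← map_mul, inv_mul_cancel, map_one]
            rfl
          rwa [hneg, neg_neg] at h3
        exact comm_mem_kern h2 σ⁻¹ v
      have h4 := (mem_fixedField_iff _ _).1 hx _ h1
      have h5 : c (σ x) = σ (c (⁅c⁻¹, σ⁻¹⁆ x)) := by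
        rw [← AlgEquiv.mul_apply, ← AlgEquiv.mul_apply, ← AlgEquiv.mul_apply]
        congr 1
        rw [commutatorElement_def]
        group
      rw [h5, h4]
    · by_contra hne
      push Not at hne
      have h1 : c ∈ stab τ v := by
        rw [← hsf]
        exact (mem_fixingSubgroup_iff _ _).2 hne
      have h2 : τ c v = v := h1
      rw [hneg] at h2
      have h3 : (2 : ZMod p) • v = 0 := by
        rw [two_smul]
        nth_rewrite 1 [← h2]
        exact neg_add_cancel v
      rcases smul_eq_zero.1 h3 with h4 | h4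
      · have h5 : ((2 : ℕ) : ZMod p) = 0 := by exact_mod_cast h4
        rw [ZMod.natCast_eq_zero_iff] at h5
        exact hp ((Nat.prime_dvd_prime_iff_eq Fact.out Nat.prime_two).1 h5)
      · exact hv h4
    · rw [finrank_eq_fixingSubgroup_index, hsf]
      exact fun h1 => hPp (h1.trans (index_dvd_of_le hP))
    · rw [hsf]
      exact fun g hg => hg

end Pool.Agent.Q60.MU
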