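import Pool.Agent.Q60.MU.RealCM
import Pool.Agent.Q60.MU.Fams

/-!
# Fields with a real place and CM fields, for other families of subgroups
-/

set_option autoImplicit false

namespace Pool.Agent.Q60.MU

open Subgroup Module IntermediateField
open scoped commutatorElement

/-- every simple representation is detected by the real part or by the CM part -/
theorem detecting_real_cm (p : ℕ) [Fact p.Prime] (c : Gal(Qb/ℚ)) (hc : c * c = 1)
    (N : IntermediateField ℚ Qb) (hN : FiniteDimensional ℚ N) :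
    Detecting p N {realPart c N, cmPart c N} := by
  refine ⟨?_, ?_⟩
  · rintro E (rfl | rfl)
    · exact inf_le_left
    · exact inf_le_left
  intro S _ _ _ τ hτ hs
  rcases dichotomy' hc τ with ⟨v, hv, hcv⟩ | hneg
  · refine ⟨realPart c N, Or.inl rfl, v, hv, ?_⟩
    have hle : (realPart c N).fixingSubgroup ≤ stab τ v := by
      rw [realPart, fixing_inf, sup_le_iff, zpowers_le]
      exact ⟨fun g hg => hτ g hg v, hcv⟩
    exact fun g hg => hle hg
  · obtain ⟨v, hv⟩ := (@exists_ne S hs.1 0)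
    refine ⟨cmPart c N, Or.inr rfl, v, hv, ?_⟩
    have hle : (cmPart c N).fixingSubgroup ≤ kern τ := by
      have hn := kern_normal τ
      rw [cmPart, fixing_inf, sup_le_iff]
      refine ⟨fun g hg => hτ g hg, normalClosure_le_normal ?_⟩
      rintro _ ⟨g, rfl⟩
      exact comm_mem_kern hneg g
    exact fun g hg => hle hg v

theorem detecting_self (p : ℕ) [Fact p.Prime] (N : IntermediateField ℚ Qb) :
    Detecting p N {N} := by
  refine ⟨fun E hE => by rw [Set.mem_singleton_iff.1 hE], ?_⟩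
  intro S _ _ _ τ hτ hs
  obtain ⟨v, hv⟩ := (@exists_ne S hs.1 0)
  exact ⟨N, rfl, v, hv, fun g hg => hτ g hg v⟩

/-- real vector fields and CM vector fields of degree prime to `p` detect everything -/
theorem detecting_vector (p : ℕ) [Fact p.Prime] (c : Gal(Qb/ℚ)) (hc : c * c = 1)
    (N : IntermediateField ℚ Qb) (hNd : FiniteDimensional ℚ N) (hNn : IsGalois ℚ N) :
    Detecting p N {E | E ≤ N ∧ IsVectorField p E ∧
      ((∀ x ∈ E, c x = x) ∨ (CMField c E ∧ ¬ p ∣ finrank ℚ E))} := by
  refine ⟨fun E hE => hE.1, ?_⟩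
  intro S _ _ _ τ hτ hs
  have hnt : Nontrivial S := hs.1
  set K := N.fixingSubgroup with hKdef
  have hKn : K.Normal := (InfiniteGalois.normal_iff_isGalois N).2 hNn
  have hKo : IsOpen (K : Set Gal(Qb/ℚ)) := N.fixingSubgroup_isOpen
  have hKf : K.index ≠ 0 := index_ne_zero' N
  have hso : ∀ v : S, IsOpen (stab τ v : Set Gal(Qb/ℚ)) := fun v =>
    Subgroup.isOpen_mono (fun g hg => hτ g hg v : K ≤ stab τ v) hKo
  have hsf : ∀ v : S, (fixedField (stab τ v)).fixingSubgroup = stab τ v := fun v => fix_fixed (hso v)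
  have hleN : ∀ v : S, fixedField (stab τ v) ≤ N := fun v => by
    rw [← InfiniteGalois.fixedField_fixingSubgroup N]
    exact fixedField_antitone (fun g hg => hτ g hg v)
  have hvf : ∀ v : S, v ≠ 0 → IsVectorField p (fixedField (stab τ v)) := fun v hv =>
    ⟨S, inferInstance, inferInstance, inferInstance, τ, v, hs, ⟨N, hNd, hτ⟩, hv, rfl⟩
  have hreal : (∃ v : S, v ≠ 0 ∧ τ c v = v) → ∃ E ∈ {E | E ≤ N ∧ IsVectorField p E ∧
      ((∀ x ∈ E, c x = x) ∨ (CMField c E ∧ ¬ p ∣ finrank ℚ E))}, ∃ v : S, v ≠ 0 ∧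
      ∀ g ∈ E.fixingSubgroup, τ g v = v := by
    rintro ⟨v, hv, hcv⟩
    refine ⟨fixedField (stab τ v), ⟨hleN v, hvf v hv, Or.inl fun x hx => ?_⟩, v, hv, ?_⟩
    · exact (mem_fixedField_iff _ _).1 hx c hcv
    · rw [hsf]
      exact fun g hg => hg
  rcases dichotomy' hc τ with h | hneg
  · exact hreal h
  · by_cases hp : p = 2
    · subst hp
      obtain ⟨v, hv⟩ := exists_ne (0 : S)
      refine hreal ⟨v, hv, ?_⟩
      have h3 : (2 : ZMod 2) • v = 0 := by
        have h4 : (2 : ZMod 2) = 0 := CharTwo.two_eq_zero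
        rw [h4, zero_smul]
      rw [two_smul] at h3
      rw [hneg]
      exact neg_eq_of_add_eq_zero_left h3
    obtain ⟨v, hv, P, hP, hPp⟩ := exists_vec_P hKn hKf τ hτ
    refine ⟨fixedField (stab τ v), ⟨hleN v, hvf v hv,
      Or.inr ⟨⟨finite_of_le (hleN v) hNd, ?_, ?_⟩, ?_⟩⟩, v, hv, ?_⟩
    · intro σ x hx
      have h1 : ⁅c⁻¹, σ⁻¹⁆ ∈ stab τ v := by
        have h2 : ∀ y, τ c⁻¹ y = -y := by
          intro y
          have h3 : τ c⁻¹ (τ c (-y)) = -y := by
            rw [← Module.End.mul_apply, ← map_mul, inv_mul_cancel, map_one]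
            rfl
          rwa [hneg, neg_neg] at h3
        exact comm_mem_kern h2 σ⁻¹ v
      have h4 := (mem_fixedField_iff _ _).1 hx _ h1
      have h5 : c (σ x) = σ (c (⁅c⁻¹, σ⁻¹⁆ x)) := by
        rw [← AlgEquiv.mul_apply, ← AlgEquiv.mul_apply, ← AlgEquiv.mul_apply]
        congr 1
        rw [commutatorElement_def]
        group
      rw [h5, h4]
    · by_contra hne
      push Not at hne
      have h1 : c ∈ stab τ v := by
        rw [← hsf]
        exact (mem_fixingSubgroup_iff _ _).2 hne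
      have h2 : τ c v = v := h1
      rw [hneg] at h2
      have h3 : (2 : ZMod p) • v = 0 := by
        rw [two_smul]
        nth_rewrite 1 [← h2]
        exact neg_add_cancel v
      rcases smul_eq_zero.1 h3 with h4 | h4
      · have h5 : ((2 : ℕ) : ZMod p) = 0 := by exact_mod_cast h4
        rw [ZMod.natCast_eq_zero_iff] at h5
        exact hp ((Nat.prime_dvd_prime_iff_eq Fact.out Nat.prime_two).1 h5)
      · exact hv h4
    · rw [finrank_eq_fixingSubgroup_index, hsf]
      exact fun h1 => hPp (h1.trans (index_dvd_of_le hP))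
    · rw [hsf]
      exact fun g hg => hg

end Pool.Agent.Q60.MU
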