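import Pool.Agent.Q60.MU.Fields

/-!
# Abelian extensions of imaginary quadratic fields and real fields
-/

set_option autoImplicit false

namespace Pool.Agent.Q60.MU

open Subgroup Module IntermediateField
open scoped commutatorElement

/-- `K` is a Galois extension of `k` with abelian Galois group. -/
def AbOver (k K : IntermediateField ℚ Qb) : Prop :=
  k ≤ K ∧ (∀ σ ∈ k.fixingSubgroup, ∀ x ∈ K, σ x ∈ K) ∧
    ∀ σ ∈ k.fixingSubgroup, ∀ τ ∈ k.fixingSubgroup, ∀ x ∈ K, σ (τ x) = τ (σ x)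

section group

variable {𝔾 : Type} [Group 𝔾]

/-- the elements of `A` of `p`-power order modulo `K` -/
def pPart (p : ℕ) {A K : Subgroup 𝔾} (hK : K.Normal) (hab : ∀ a ∈ A, ∀ b ∈ A, ⁅a, b⁆ ∈ K) :
    Subgroup 𝔾 where
  carrier := {a | a ∈ A ∧ ∃ n, a ^ (p ^ n) ∈ K}
  one_mem' := ⟨A.one_mem, 0, by rw [one_pow]; exact K.one_mem⟩
  inv_mem' := by
    rintro a ⟨ha, n, hn⟩
    exact ⟨A.inv_mem ha, n, by rw [inv_pow]; exact K.inv_mem hn⟩
  mul_mem' := by
    rintro a b ⟨ha, n, hn⟩ ⟨hb, m, hm⟩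
    refine ⟨A.mul_mem ha hb, n + m, ?_⟩
    have hc : Commute (QuotientGroup.mk' K a) (QuotientGroup.mk' K b) := by
      rw [← commutatorElement_eq_one_iff_commute, ← map_commutatorElement,
        QuotientGroup.mk'_apply, QuotientGroup.eq_one_iff]
      exact hab a ha b hb
    have h1 : ∀ (x : 𝔾) (i j : ℕ), x ^ (p ^ i) ∈ K → (QuotientGroup.mk' K x) ^ (p ^ (i + j)) = 1 := by
      intro x i j hx
      rw [pow_add, pow_mul, ← map_pow]
      have h2 : QuotientGroup.mk' K (x ^ p ^ i) = 1 := by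
        rw [QuotientGroup.mk'_apply, QuotientGroup.eq_one_iff]
        exact hx
      rw [h2, one_pow]
    have h3 : QuotientGroup.mk' K ((a * b) ^ (p ^ (n + m))) = 1 := by
      rw [map_pow, map_mul, hc.mul_pow, h1 a n m hn, one_mul, add_comm n m, h1 b m n hm]
    rwa [QuotientGroup.mk'_apply, QuotientGroup.eq_one_iff] at h3

theorem pPart_normal (p : ℕ) {A K : Subgroup 𝔾} (hK : K.Normal) (hA : A.Normal)
    (hab : ∀ a ∈ A, ∀ b ∈ A, ⁅a, b⁆ ∈ K) : (pPart p hK hab).Normal := by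
  refine ⟨?_⟩
  rintro a ⟨ha, n, hn⟩ g
  refine ⟨hA.conj_mem a ha g, n, ?_⟩
  rw [conj_pow]
  exact hK.conj_mem _ hn g

theorem le_pPart (p : ℕ) {A K : Subgroup 𝔾} (hK : K.Normal) (hKA : K ≤ A)
    (hab : ∀ a ∈ A, ∀ b ∈ A, ⁅a, b⁆ ∈ K) : K ≤ pPart p hK hab := fun x hx =>
  ⟨hKA hx, 0, by rw [pow_zero, pow_one]; exact hx⟩

theorem pPart_relIndex (p : ℕ) [Fact p.Prime] {A K : Subgroup 𝔾} (hK : K.Normal) (hA : A.Normal)
    (hKA : K ≤ A) (hf : K.index ≠ 0) (hab : ∀ a ∈ A, ∀ b ∈ A, ⁅a, b⁆ ∈ K) :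
    ¬ p ∣ (pPart p hK hab).relIndex A := by
  intro h
  have hPn := pPart_normal p hK hA hab
  set P := pPart p hK hab with hP
  have hn : (P.subgroupOf A).Normal := inferInstance
  have h0 : (P.subgroupOf A).index ≠ 0 := by
    intro h0
    have h1 : P.relIndex A * A.index = P.index := relIndex_mul_index (fun x hx => hx.1)
    have h2 : P.relIndex A = 0 := h0
    rw [h2, zero_mul] at h1
    have h3 := index_dvd_of_le (le_pPart p hK hKA hab)
    rw [← hP, ← h1] at h3
    exact hf (Nat.eq_zero_of_zero_dvd h3)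
  have hfi : (P.subgroupOf A).FiniteIndex := ⟨h0⟩
  have hfin : Finite (A ⧸ P.subgroupOf A) := inferInstance
  have h4 : p ∣ Nat.card (A ⧸ P.subgroupOf A) := h
  obtain ⟨x, hx⟩ := exists_prime_orderOf_dvd_card' p h4
  obtain ⟨a, rfl⟩ := QuotientGroup.mk_surjective x
  have h5 : ((a : A) : A ⧸ P.subgroupOf A) ^ p = 1 := by
    rw [← hx]
    exact pow_orderOf_eq_one _
  rw [← QuotientGroup.mk_pow, QuotientGroup.eq_one_iff, mem_subgroupOf] at h5
  obtain ⟨_, n, h6⟩ := h5
  have h7 : (a : 𝔾) ∈ P := by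
    refine ⟨a.2, n + 1, ?_⟩
    rw [pow_succ', pow_mul]
    exact h6
  have h8 : ((a : A) : A ⧸ P.subgroupOf A) = 1 := by
    rw [QuotientGroup.eq_one_iff, mem_subgroupOf]
    exact h7
  rw [h8, orderOf_one] at hx
  exact (Fact.out : p.Prime).one_lt.ne hx

theorem pPart_trivial (p : ℕ) [Fact p.Prime] {A K : Subgroup 𝔾} (hK : K.Normal) (hA : A.Normal)
    (hab : ∀ a ∈ A, ∀ b ∈ A, ⁅a, b⁆ ∈ K) {S : Type} [AddCommGroup S]
    [Module (ZMod p) S] [Module.Finite (ZMod p) S] {τ : Representation (ZMod p) 𝔾 S}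
    (hs : IsSimple τ) (hτ : ∀ g ∈ K, ∀ x, τ g x = x) : ∀ g ∈ pPart p hK hab, ∀ x, τ g x = x := by
  have hPn := pPart_normal p hK hA hab
  set P := pPart p hK hab with hP
  have hnt : Nontrivial S := hs.1
  let σ : P →* Module.End (ZMod p) S := τ.comp P.subtype
  let ρ : Representation (ZMod p) (P ⧸ K.subgroupOf P) S := QuotientGroup.lift _ σ (fun g hg => by
    apply LinearMap.ext
    intro x
    exact hτ _ hg x)
  have hpg : IsPGroup p (P ⧸ K.subgroupOf P) := by
    intro x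
    obtain ⟨a, rfl⟩ := QuotientGroup.mk_surjective x
    obtain ⟨_, n, hn⟩ := a.2
    refine ⟨n, ?_⟩
    rw [← QuotientGroup.mk_pow, QuotientGroup.eq_one_iff, mem_subgroupOf]
    exact hn
  obtain ⟨v, hv, hfix⟩ := exists_fixed hpg ρ
  have hfix' : ∀ g ∈ P, τ g v = v := fun g hg => hfix ((⟨g, hg⟩ : P) : P ⧸ K.subgroupOf P)
  let U : Submodule (ZMod p) S :=
    { carrier := {x | ∀ g ∈ P, τ g x = x}
      add_mem' := fun {a b} ha hb g hg => by rw [map_add, ha g hg, hb g hg]
      zero_mem' := fun g _ => map_zero _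
      smul_mem' := fun r a ha g hg => by rw [map_smul, ha g hg] }
  have hU : Stable τ U := by
    intro g x hx h hh
    have h1 : h * g = g * (g⁻¹ * h * g) := by group
    have h2 : τ h (τ g x) = τ (h * g) x := by rw [map_mul]; rfl
    rw [h2, h1, map_mul, Module.End.mul_apply]
    congr 1
    apply hx
    have h3 := hPn.conj_mem h hh g⁻¹
    rwa [inv_inv] at h3
  rcases hs.2 U hU with h | h
  · exfalso
    have h1 : v ∈ U := hfix'
    rw [h, Submodule.mem_bot] at h1
    exact hv h1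
  · intro g hg x
    have h1 : x ∈ U := by
      rw [h]
      exact Submodule.mem_top
    exact h1 g hg

/-- either `c` fixes a nonzero vector, or the group acts through an abelian group -/
theorem dichotomy {k : Type} [Field k] {A K : Subgroup 𝔾} (hab : ∀ a ∈ A, ∀ b ∈ A, ⁅a, b⁆ ∈ K)
    {c : 𝔾} (hc : c * c = 1) (hgen : ∀ g, g ∈ A ∨ c * g ∈ A) {S : Type} [AddCommGroup S]
    [Module k S] {τ : Representation k 𝔾 S} (hτ : ∀ g ∈ K, ∀ x, τ g x = x) :
    (∃ v : S, v ≠ 0 ∧ τ c v = v) ∨ ∀ g h x, τ g (τ h x) = τ h (τ g x) := by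
  by_cases h : ∃ v : S, v ≠ 0 ∧ τ c v = v
  · exact Or.inl h
  right
  push Not at h
  have hneg : ∀ x, τ c x = -x := by
    intro x
    by_contra hne
    refine h (x + τ c x) (fun h0 => hne ?_) ?_
    · rw [add_comm] at h0
      exact eq_neg_of_add_eq_zero_left h0
    · have h1 : τ c (τ c x) = x := by
        have h2 : τ c (τ c x) = τ (c * c) x := by rw [map_mul]; rfl
        rw [h2, hc, map_one]
        rfl
      rw [map_add, h1, add_comm]
  have hsgn : ∀ g, ∃ a ∈ A, (∀ x, τ g x = τ a x) ∨ ∀ x, τ g x = -τ a x := by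
    intro g
    rcases hgen g with hg | hg
    · exact ⟨g, hg, Or.inl fun _ => rfl⟩
    · refine ⟨c * g, hg, Or.inr fun x => ?_⟩
      have h2 : τ (c * g) x = τ c (τ g x) := by rw [map_mul]; rfl
      rw [h2, hneg, neg_neg]
  have hcomm : ∀ a ∈ A, ∀ b ∈ A, ∀ x, τ a (τ b x) = τ b (τ a x) := by
    intro a ha b hb x
    have h1 : a * b = ⁅a, b⁆ * (b * a) := by
      rw [commutatorElement_def]
      group
    have h2 : τ a (τ b x) = τ (a * b) x := by rw [map_mul]; rfl
    have h3 : τ b (τ a x) = τ (b * a) x := by rw [map_mul]; rfl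
    rw [h2, h1, map_mul, Module.End.mul_apply, hτ _ (hab a ha b hb), h3]
  intro g h' x
  obtain ⟨a, ha, h1⟩ := hsgn g
  obtain ⟨b, hb, h2⟩ := hsgn h'
  rcases h1 with h1 | h1 <;> rcases h2 with h2 | h2 <;>
    simp only [h1, h2, map_neg, neg_neg, hcomm a ha b hb]

end group

theorem abOver_fixed {k : IntermediateField ℚ Qb} {W : Subgroup Gal(Qb/ℚ)}
    (hW : W ≤ k.fixingSubgroup)
    (hn : ∀ a ∈ k.fixingSubgroup, ∀ w ∈ W, a * w * a⁻¹ ∈ W)
    (hab : ∀ a ∈ k.fixingSubgroup, ∀ b ∈ k.fixingSubgroup, ⁅a, b⁆ ∈ W) :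
    AbOver k (fixedField W) := by
  refine ⟨(le_iff_le _ _).2 hW, ?_, ?_⟩
  · intro σ hσ x hx
    rw [mem_fixedField_iff] at hx ⊢
    intro w hw
    have h1 := hn σ⁻¹ (inv_mem hσ) w hw
    rw [inv_inv] at h1
    have h2 : w (σ x) = σ ((σ⁻¹ * w * σ) x) := by
      rw [← AlgEquiv.mul_apply, ← AlgEquiv.mul_apply]
      congr 1
      group
    rw [h2, hx _ h1]
  · intro σ hσ τ hτ x hx
    rw [mem_fixedField_iff] at hx
    have h1 := hab σ⁻¹ (inv_mem hσ) τ⁻¹ (inv_mem hτ)
    have h2 : σ (τ x) = τ (σ (⁅σ⁻¹, τ⁻¹⁆ x)) := by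
      rw [← AlgEquiv.mul_apply, ← AlgEquiv.mul_apply, ← AlgEquiv.mul_apply]
      congr 1
      rw [commutatorElement_def]
      group
    rw [h2, hx _ h1]

theorem AbOver.comm_mem {k K : IntermediateField ℚ Qb} (h : AbOver k K) :
    ∀ a ∈ k.fixingSubgroup, ∀ b ∈ k.fixingSubgroup, ⁅a, b⁆ ∈ K.fixingSubgroup := by
  intro a ha b hb
  refine (mem_fixingSubgroup_iff _ _).2 fun x hx => ?_
  have hb' : b⁻¹ x ∈ K := h.2.1 _ (inv_mem hb) x hx
  have ha' : a⁻¹ (b⁻¹ x) ∈ K := h.2.1 _ (inv_mem ha) _ hb'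
  have h6 := h.2.2 a ha b hb _ ha'
  show ⁅a, b⁆ x = x
  have h7 : ⁅a, b⁆ x = a (b (a⁻¹ (b⁻¹ x))) := rfl
  have h8 : a (a⁻¹ (b⁻¹ x)) = b⁻¹ x := by
    rw [← AlgEquiv.mul_apply, mul_inv_cancel, AlgEquiv.one_apply]
  have h9 : b (b⁻¹ x) = x := by
    rw [← AlgEquiv.mul_apply, mul_inv_cancel, AlgEquiv.one_apply]
  rw [h7, h6, h8, h9]

theorem finite_of_le {E N : IntermediateField ℚ Qb} (hE : E ≤ N) (hN : FiniteDimensional ℚ N) :
    FiniteDimensional ℚ E :=
  Submodule.finiteDimensional_of_le (S₁ := Subalgebra.toSubmodule E.toSubalgebra)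
    (S₂ := Subalgebra.toSubmodule N.toSubalgebra) hE

theorem mu_le (p : ℕ) [Fact p.Prime] (R : ℕ → IntermediateField ℚ Qb)
    (hR : ∀ m, FiniteDimensional ℚ (R m)) (hRn : ∀ m, IsGalois ℚ (R m)) (hd : FinDec R)
    (N : IntermediateField ℚ Qb) (hN : FiniteDimensional ℚ N) (hNn : IsGalois ℚ N)
    (h : MuZero p R N) (F : IntermediateField ℚ Qb) (hF : F ≤ N) : MuZero p R F := by
  refine field_detect p R hR hRn hd N hN hNn {N} (fun E hE => ?_) ?_ (fun E hE => ?_) F hF
  · rw [Set.mem_singleton_iff.1 hE]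
  · intro S _ _ _ τ hτ hs
    obtain ⟨v, hv⟩ := (@exists_ne S hs.1 0)
    exact ⟨N, rfl, v, hv, fun g hg => hτ g hg v⟩
  · rw [Set.mem_singleton_iff.1 hE]
    exact h

/-- a real field which is Galois over `ℚ` -/
theorem ab_of_real {k F : IntermediateField ℚ Qb} {c : Gal(Qb/ℚ)} (hk : finrank ℚ k = 2)
    (hck : ∃ x ∈ k, c x ≠ x) (hreal : ∀ x ∈ F, c x = x) (hFg : IsGalois ℚ F)
    (hab : AbOver k (F ⊔ k)) : AbOver ⊥ F := by
  have hkf : FiniteDimensional ℚ k := FiniteDimensional.of_finrank_pos (by rw [hk]; norm_num)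
  have hAi : k.fixingSubgroup.index = 2 := by
    rw [← finrank_eq_fixingSubgroup_index, hk]
  have hcA : c ∉ k.fixingSubgroup := by
    intro h
    obtain ⟨x, hx, hne⟩ := hck
    exact hne ((mem_fixingSubgroup_iff _ _).1 h x hx)
  have hgen : ∀ g, g ∈ k.fixingSubgroup ∨ c * g ∈ k.fixingSubgroup := by
    intro g
    by_cases hg : g ∈ k.fixingSubgroup
    · exact Or.inl hg
    · right
      rw [mul_mem_iff_of_index_two hAi]
      exact ⟨fun h => absurd h hcA, fun h => absurd h hg⟩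
  have hW : F.fixingSubgroup.Normal := (InfiniteGalois.normal_iff_isGalois F).2 hFg
  have hcW : QuotientGroup.mk' F.fixingSubgroup c = 1 := by
    rw [QuotientGroup.mk'_apply, QuotientGroup.eq_one_iff]
    exact (mem_fixingSubgroup_iff _ _).2 hreal
  have key : ∀ g, ∃ a ∈ k.fixingSubgroup, QuotientGroup.mk' F.fixingSubgroup g =
      QuotientGroup.mk' F.fixingSubgroup a := by
    intro g
    rcases hgen g with h | h
    · exact ⟨g, h, rfl⟩
    · exact ⟨c * g, h, by rw [map_mul, hcW, one_mul]⟩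
  have hle : (F ⊔ k : IntermediateField ℚ Qb).fixingSubgroup ≤ F.fixingSubgroup :=
    fixingSubgroup_le le_sup_left
  have hcomm : ∀ a b : Gal(Qb/ℚ), ⁅a, b⁆ ∈ F.fixingSubgroup := by
    intro a b
    obtain ⟨a', ha, h1⟩ := key a
    obtain ⟨b', hb, h2⟩ := key b
    have h3 : QuotientGroup.mk' F.fixingSubgroup ⁅a, b⁆ = 1 := by
      rw [map_commutatorElement, h1, h2, ← map_commutatorElement, QuotientGroup.mk'_apply,
        QuotientGroup.eq_one_iff]
      exact hle (hab.comm_mem a' ha b' hb)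
    rwa [QuotientGroup.mk'_apply, QuotientGroup.eq_one_iff] at h3
  rw [← InfiniteGalois.fixedField_fixingSubgroup F]
  exact abOver_fixed (by rw [fixingSubgroup_bot]; exact le_top)
    (fun a _ w hw => hW.conj_mem w hw a) (fun a _ b _ => hcomm a b)

/-- one field and its real subfield -/
theorem real_of_abOver (p : ℕ) [Fact p.Prime] (R : ℕ → IntermediateField ℚ Qb)
    (hR : ∀ m, FiniteDimensional ℚ (R m)) (hRn : ∀ m, IsGalois ℚ (R m)) (hd : FinDec R)
    (hFW : ∀ E : IntermediateField ℚ Qb, FiniteDimensional ℚ E → AbOver ⊥ E → MuZero p R E)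
    (k : IntermediateField ℚ Qb) (hk : finrank ℚ k = 2) (c : Gal(Qb/ℚ)) (hc : c * c = 1)
    (hck : ∃ x ∈ k, c x ≠ x) (K : IntermediateField ℚ Qb) (hK : FiniteDimensional ℚ K)
    (hKk : AbOver k K) :
    ∃ F : IntermediateField ℚ Qb, FiniteDimensional ℚ F ∧ (∀ x ∈ F, c x = x) ∧
      IsGalois ℚ (F ⊔ k : IntermediateField ℚ Qb) ∧ AbOver k (F ⊔ k) ∧ ¬ p ∣ finrank ℚ F ∧
      (IsGalois ℚ K → F ≤ K) ∧ (MuZero p R F → MuZero p R K) := by
  classical
  have hkf : FiniteDimensional ℚ k := FiniteDimensional.of_finrank_pos (by rw [hk]; norm_num)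
  set A := k.fixingSubgroup with hAdef
  have hAi : A.index = 2 := by
    rw [hAdef, ← finrank_eq_fixingSubgroup_index, hk]
  have hA : A.Normal := normal_of_index_eq_two hAi
  have hcA : c ∉ A := by
    intro h
    obtain ⟨x, hx, hne⟩ := hck
    exact hne ((mem_fixingSubgroup_iff _ _).1 h x hx)
  have hgen : ∀ g, g ∈ A ∨ c * g ∈ A := by
    intro g
    by_cases hg : g ∈ A
    · exact Or.inl hg
    · right
      rw [mul_mem_iff_of_index_two hAi]
      exact ⟨fun h => absurd h hcA, fun h => absurd h hg⟩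
  set U := K.fixingSubgroup with hUdef
  have hUf : U.FiniteIndex := ⟨index_ne_zero' K⟩
  set K₀ := U.normalCore with hK₀
  have hK₀n : K₀.Normal := normalCore_normal _
  have hK₀o : IsOpen (K₀ : Set Gal(Qb/ℚ)) :=
    isOpen_normalCore K.fixingSubgroup_isOpen (index_ne_zero' K)
  have hK₀f : K₀.index ≠ 0 := by
    have : K₀.FiniteIndex := U.finiteIndex_normalCore
    exact this.index_ne_zero
  have hUA : U ≤ A := fixingSubgroup_le hKk.1
  have hK₀A : K₀ ≤ A := (normalCore_le _).trans hUA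
  have hab : ∀ a ∈ A, ∀ b ∈ A, ⁅a, b⁆ ∈ K₀ := by
    intro a ha b hb g
    have h1 : g * ⁅a, b⁆ * g⁻¹ = ⁅g * a * g⁻¹, g * b * g⁻¹⁆ := by
      rw [commutatorElement_def, commutatorElement_def]
      group
    rw [h1]
    exact hKk.comm_mem _ (hA.conj_mem a ha g) _ (hA.conj_mem b hb g)
  set P := pPart p hK₀n hab with hP
  have hPn : P.Normal := pPart_normal p hK₀n hA hab
  have hKP : K₀ ≤ P := le_pPart p hK₀n hK₀A hab
  have hPA : P ≤ A := fun x hx => hx.1
  have hPo : IsOpen (P : Set Gal(Qb/ℚ)) := Subgroup.isOpen_mono hKP hK₀o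
  set H := P ⊔ zpowers c with hH
  have hPH : P ≤ H := le_sup_left
  have hcH : c ∈ H := (le_sup_right : zpowers c ≤ H) (mem_zpowers c)
  have hHo : IsOpen (H : Set Gal(Qb/ℚ)) := Subgroup.isOpen_mono hPH hPo
  have hHf : H.index ≠ 0 := fun h0 => hK₀f (by
    have h1 := index_dvd_of_le (hKP.trans hPH)
    rw [h0] at h1
    exact Nat.eq_zero_of_zero_dvd h1)
  have hcz : ∀ z ∈ zpowers c, z = 1 ∨ z = c := by
    rintro z ⟨n, rfl⟩
    have h2 : c ^ (2 : ℤ) = 1 := by
      rw [zpow_two]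
      exact hc
    rcases Int.even_or_odd' n with ⟨m, rfl | rfl⟩
    · left
      show c ^ (2 * m) = 1
      rw [zpow_mul, h2, one_zpow]
    · right
      show c ^ (2 * m + 1) = c
      rw [zpow_add, zpow_mul, h2, one_zpow, one_mul, zpow_one]
  have hHA : H ⊓ A = P := by
    apply le_antisymm
    · rintro x ⟨hx, hxA⟩
      obtain ⟨a, ha, z, hz, rfl⟩ := mem_sup_of_normal_left.1 hx
      rcases hcz z hz with rfl | rfl
      · rwa [mul_one]
      · exact absurd ((A.mul_mem_cancel_left (hPA ha)).1 hxA) hcA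
    · exact le_inf hPH hPA
  have hfixH := fix_fixed hHo
  have hfixP := fix_fixed hPo
  have hsup : (fixedField H ⊔ k : IntermediateField ℚ Qb) = fixedField P := by
    rw [← InfiniteGalois.fixedField_fixingSubgroup (fixedField H ⊔ k), fixingSubgroup_sup, hfixH,
      ← hAdef, hHA]
  have hNd := finite_fixed hK₀o hK₀f
  have hfixK := fix_fixed hK₀o
  have hKN : K ≤ fixedField K₀ := (le_iff_le _ _).2 (normalCore_le _)
  have hFd : FiniteDimensional ℚ (fixedField H) := finite_fixed hHo hHf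
  refine ⟨fixedField H, hFd, fun x hx => (mem_fixedField_iff _ _).1 hx c hcH, ?_, ?_, ?_, ?_, ?_⟩
  · rw [hsup]
    exact (InfiniteGalois.normal_iff_isGalois (fixedField P)).1 (by rw [hfixP]; exact hPn)
  · rw [hsup]
    exact abOver_fixed hPA (fun a _ w hw => hPn.conj_mem w hw a)
      (fun a ha b hb => hKP (hab a ha b hb))
  · rw [finrank_eq_fixingSubgroup_index, hfixH]
    intro hdvd
    have h1 : (H ⊓ A).relIndex H * H.index = (H ⊓ A).index := relIndex_mul_index inf_le_left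
    have h2 : (H ⊓ A).relIndex A * A.index = (H ⊓ A).index := relIndex_mul_index inf_le_right
    have h3 : (H ⊓ A).relIndex H = A.relIndex H := by rw [inf_comm, inf_relIndex_right]
    have h4 : A.relIndex H = A.relIndex (H ⊔ A) := (relIndex_sup_right H A).symm
    have h5 : H ⊔ A = ⊤ := by
      rw [eq_top_iff]
      intro g _
      rcases hgen g with hg | hg
      · exact (le_sup_right : A ≤ H ⊔ A) hg
      · have h6 : g = c⁻¹ * (c * g) := by group
        rw [h6]
        exact mul_mem ((le_sup_left : H ≤ H ⊔ A) (inv_mem hcH)) ((le_sup_right : A ≤ H ⊔ A) hg)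
    rw [h3, h4, h5, relIndex_top_right, hAi, ← h2, hAi, mul_comm,
      Nat.mul_right_cancel_iff (by norm_num)] at h1
    rw [h1, hHA] at hdvd
    exact pPart_relIndex p hK₀n hA hK₀A hK₀f hab hdvd
  · intro hKg
    have hUn : U.Normal := (InfiniteGalois.normal_iff_isGalois K).2 hKg
    have h1 : K₀ = U := normalCore_eq_self U
    have h2 : fixedField K₀ = K := by
      rw [h1]
      exact InfiniteGalois.fixedField_fixingSubgroup K
    rw [← h2]
    exact fixedField_antitone (hKP.trans hPH)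
  · intro hF
    have hNn : IsGalois ℚ (fixedField K₀) :=
      (InfiniteGalois.normal_iff_isGalois (fixedField K₀)).1 (by rw [hfixK]; exact hK₀n)
    refine field_detect p R hR hRn hd (fixedField K₀) hNd hNn
      {E | E ≤ fixedField K₀ ∧ MuZero p R E} (fun E hE => hE.1) ?_ (fun E hE => hE.2) K hKN
    intro S _ _ _ τ hτ hs
    rw [hfixK] at hτ
    rcases dichotomy hab hc hgen hτ with ⟨v, hv, hcv⟩ | hcomm
    · refine ⟨fixedField H, ⟨fixedField_antitone (hKP.trans hPH), hF⟩, v, hv, ?_⟩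
      rw [hfixH]
      have hle : H ≤ stab τ v := by
        rw [hH, sup_le_iff, zpowers_le]
        exact ⟨fun g hg => pPart_trivial p hK₀n hA hab hs hτ g hg v, hcv⟩
      exact fun g hg => hle hg
    · let J : Subgroup Gal(Qb/ℚ) :=
        { carrier := {g | ∀ x, τ g x = x}
          one_mem' := fun x => by rw [map_one]; rfl
          mul_mem' := fun {a b} ha hb x => by rw [map_mul, Module.End.mul_apply, hb, ha]
          inv_mem' := fun {a} ha x => by
            have h1 : τ a⁻¹ (τ a x) = x := by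
              rw [← Module.End.mul_apply, ← map_mul, inv_mul_cancel, map_one]
              rfl
            rwa [ha x] at h1 }
      have hKJ : K₀ ≤ J := fun g hg => hτ g hg
      have hJo : IsOpen (J : Set Gal(Qb/ℚ)) := Subgroup.isOpen_mono hKJ hK₀o
      have hle : fixedField J ≤ fixedField K₀ := fixedField_antitone hKJ
      obtain ⟨v, hv⟩ := (@exists_ne S hs.1 0)
      refine ⟨fixedField J, ⟨hle, hFW _ (finite_of_le hle hNd) ?_⟩, v, hv, ?_⟩
      · refine abOver_fixed ?_ ?_ ?_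
        · rw [fixingSubgroup_bot]
          exact le_top
        · intro a _ w hw x
          have h1 : τ (a * w * a⁻¹) x = τ a (τ w (τ a⁻¹ x)) := by
            rw [map_mul, map_mul]
            rfl
          rw [h1, hw, ← Module.End.mul_apply, ← map_mul, mul_inv_cancel, map_one]
          rfl
        · intro a _ b _ x
          have h1 : τ ⁅a, b⁆ x = τ a (τ b (τ a⁻¹ (τ b⁻¹ x))) := by
            rw [commutatorElement_def, map_mul, map_mul, map_mul]
            rfl
          rw [h1, hcomm b a⁻¹, ← Module.End.mul_apply, ← map_mul, mul_inv_cancel, map_one]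
          rw [Module.End.one_apply, ← Module.End.mul_apply, ← map_mul, mul_inv_cancel, map_one]
          rfl
      · rw [fix_fixed hJo]
        exact fun g hg => hg v

end Pool.Agent.Q60.MU
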