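import Pool.Agent.Q60.MU.Main
import Pool.Agent.Q60.MU.Coind

/-!
# The reduction to stabilizers of vectors in simple modules
-/

set_option autoImplicit false

namespace Pool.Agent.Q60.MU

open Subgroup Module

variable {𝔾 : Type} [Group 𝔾]

theorem isOpen_normalCore [TopologicalSpace 𝔾] [ContinuousMul 𝔾] {U : Subgroup 𝔾}
    (hUo : IsOpen (U : Set 𝔾)) (hUf : U.index ≠ 0) : IsOpen (U.normalCore : Set 𝔾) := by
  classical
  have hfi : U.FiniteIndex := ⟨hUf⟩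
  have hfin : Finite (𝔾 ⧸ U) := inferInstance
  have h1 : (U.normalCore : Set 𝔾) = ⋂ q : 𝔾 ⧸ U, {x | q.out⁻¹ * x * q.out ∈ U} := by
    ext x
    rw [Set.mem_iInter]
    constructor
    · intro hx q
      have h2 := hx q.out⁻¹
      rw [inv_inv] at h2
      exact h2
    · intro hx g
      obtain ⟨u, hu⟩ := QuotientGroup.mk_out_eq_mul U g⁻¹
      have h2 : ((g⁻¹ : 𝔾) : 𝔾 ⧸ U).out⁻¹ * x * ((g⁻¹ : 𝔾) : 𝔾 ⧸ U).out ∈ U := hx _
      rw [hu] at h2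
      have h3 : g * x * g⁻¹ = u * ((g⁻¹ * (u : 𝔾))⁻¹ * x * (g⁻¹ * u)) * (u : 𝔾)⁻¹ := by group
      rw [h3]
      exact U.mul_mem (U.mul_mem u.2 h2) (U.inv_mem u.2)
  rw [h1]
  refine isOpen_iInter_of_finite fun q => ?_
  exact hUo.preimage ((continuous_const.mul continuous_id).mul continuous_const)

theorem finite_ge {K : Subgroup 𝔾} (hK : K.Normal) (hKf : K.index ≠ 0) :
    {L : Subgroup 𝔾 | K ≤ L}.Finite := by
  classical
  have hfi : K.FiniteIndex := ⟨hKf⟩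
  have hfin : Finite (𝔾 ⧸ K) := inferInstance
  refine Set.Finite.of_finite_image (f := fun L : Subgroup 𝔾 => L.map (QuotientGroup.mk' K))
    (Set.toFinite _) ?_
  intro L hL M hM h
  have h1 : ∀ N : Subgroup 𝔾, K ≤ N → (N.map (QuotientGroup.mk' K)).comap (QuotientGroup.mk' K) = N := by
    intro N hN
    refine comap_map_eq_self ?_
    rw [QuotientGroup.ker_mk']
    exact hN
  rw [← h1 L hL, ← h1 M hM]
  exact congrArg (Subgroup.comap (QuotientGroup.mk' K)) h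

/-- the ranks of the layers are bounded -/
def Mu0 [TopologicalSpace 𝔾] (p : ℕ) {Ω : Type} (I : Ω → Subgroup 𝔾) (Dm : ℕ → Subgroup 𝔾)
    (U : Subgroup 𝔾) : Prop := ∃ C, ∀ m, RankLe p I (U ⊓ Dm m) C

/-- the representation is trivial on an open subgroup of finite index -/
def Smooth {k : Type} [Field k] [TopologicalSpace 𝔾] {V : Type} [AddCommGroup V] [Module k V]
    (ρ : Representation k 𝔾 V) : Prop :=
  ∃ K : Subgroup 𝔾, IsOpen (K : Set 𝔾) ∧ K.index ≠ 0 ∧ ∀ g ∈ K, ∀ x, ρ g x = x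

theorem Mu0.of_le [TopologicalSpace 𝔾] {p : ℕ} {Ω : Type} {I : Ω → Subgroup 𝔾}
    {Dm : ℕ → Subgroup 𝔾} (hDo : ∀ m, IsOpen (Dm m : Set 𝔾))
    {K U : Subgroup 𝔾} (hK : K.Normal) (hKU : K ≤ U) (hKo : IsOpen (K : Set 𝔾))
    (hKf : K.index ≠ 0) (h : Mu0 p I Dm K) : Mu0 p I Dm U := by
  obtain ⟨C, hC⟩ := h
  refine ⟨C * K.index, fun m => ?_⟩
  have h1 : (K ⊓ Dm m).relIndex (U ⊓ Dm m) = K.relIndex (U ⊓ Dm m) := by
    rw [← inf_relIndex_right, ← inf_relIndex_right K]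
    congr 1
    ext x
    simp only [mem_inf]
    tauto
  have h2 : K.relIndex (U ⊓ Dm m) ∣ K.index := relIndex_dvd_index_of_normal K _
  have h3 : (K ⊓ Dm m).relIndex (U ⊓ Dm m) ≠ 0 := by
    rw [h1]
    intro h
    rw [h] at h2
    exact hKf (Nat.eq_zero_of_zero_dvd h2)
  refine (RankLe.of_le (inf_le_inf_right _ hKU) (by
    rw [coe_inf]
    exact hKo.inter (hDo m)) h3 (hC m)).mono ?_
  rw [h1]
  exact Nat.mul_le_mul_left _ (Nat.le_of_dvd (Nat.pos_of_ne_zero hKf) h2)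

theorem RankLe.conj [TopologicalSpace 𝔾] [ContinuousMul 𝔾] {p : ℕ} {Ω : Type}
    [MulAction 𝔾 Ω] {I : Ω → Subgroup 𝔾}
    (hI : ∀ (g : 𝔾) (w : Ω), ∀ x ∈ I w, g * x * g⁻¹ ∈ I (g • w)) {K : Subgroup 𝔾} {C : ℕ}
    (h : RankLe p I K C) (g : 𝔾) : RankLe p I (K.map (MulAut.conj g).toMonoidHom) C := by
  intro W hWK hWo hWf hg
  have hc : ∀ x, (MulAut.conj g).toMonoidHom x = g * x * g⁻¹ := fun x => rfl
  have hidx := relIndex_comap W (MulAut.conj g).toMonoidHom K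
  rw [← hidx] at hWf ⊢
  refine h _ ?_ ?_ hWf ?_
  · intro x hx
    obtain ⟨y, hy, hyx⟩ := hWK hx
    rw [hc, hc] at hyx
    have h1 : y = x := mul_left_cancel (mul_right_cancel hyx)
    rw [← h1]
    exact hy
  · exact hWo.preimage ((continuous_const.mul continuous_id).mul continuous_const)
  · rintro y ((⟨a, ha, rfl⟩ | ⟨a, ha, b, hb, rfl⟩) | ⟨hx, w, hw⟩)
    · exact hg (Or.inl (Or.inl ⟨_, ⟨a, ha, rfl⟩, map_pow _ _ _⟩))
    · exact hg (Or.inl (Or.inr ⟨_, ⟨a, ha, rfl⟩, _, ⟨b, hb, rfl⟩, map_commutatorElement _ _ _⟩))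
    · exact hg (Or.inr ⟨⟨y, hx, rfl⟩, g • w, hI g w y hw⟩)

theorem Mu0.conj [TopologicalSpace 𝔾] [ContinuousMul 𝔾] {p : ℕ} {Ω : Type}
    [MulAction 𝔾 Ω] {I : Ω → Subgroup 𝔾}
    (hI : ∀ (g : 𝔾) (w : Ω), ∀ x ∈ I w, g * x * g⁻¹ ∈ I (g • w)) {Dm : ℕ → Subgroup 𝔾}
    (hDn : ∀ m, (Dm m).Normal) {L : Subgroup 𝔾} (h : Mu0 p I Dm L) (g : 𝔾) :
    Mu0 p I Dm (L.map (MulAut.conj g).toMonoidHom) := by
  obtain ⟨C, hC⟩ := h
  refine ⟨C, fun m => ?_⟩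
  have h1 := (hC m).conj hI g
  have h2 : (L ⊓ Dm m).map (MulAut.conj g).toMonoidHom =
      L.map (MulAut.conj g).toMonoidHom ⊓ Dm m := by
    ext x
    constructor
    · rintro ⟨y, ⟨hy, hyD⟩, rfl⟩
      exact ⟨⟨y, hy, rfl⟩, (hDn m).conj_mem y hyD g⟩
    · rintro ⟨⟨y, hy, rfl⟩, hyD⟩
      refine ⟨y, ⟨hy, ?_⟩, rfl⟩
      have h3 := (hDn m).conj_mem _ hyD g⁻¹
      have h4 : g⁻¹ * ((MulAut.conj g).toMonoidHom y) * g⁻¹⁻¹ = y := by
        show g⁻¹ * (g * y * g⁻¹) * g⁻¹⁻¹ = y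
        group
      rwa [h4] at h3
  rwa [h2] at h1

/-- **The reduction theorem.** -/
theorem reduction [TopologicalSpace 𝔾] [ContinuousMul 𝔾] {p : ℕ} [Fact p.Prime] {Ω : Type}
    [MulAction 𝔾 Ω] {I : Ω → Subgroup 𝔾}
    (hI : ∀ (g : 𝔾) (w : Ω), ∀ x ∈ I w, g * x * g⁻¹ ∈ I (g • w))
    {Dm : ℕ → Subgroup 𝔾} (hDn : ∀ m, (Dm m).Normal) (hDo : ∀ m, IsOpen (Dm m : Set 𝔾))
    (hDf : ∀ m, (Dm m).index ≠ 0) {K : Subgroup 𝔾} (hKn : K.Normal)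
    (hKo : IsOpen (K : Set 𝔾)) (hKf : K.index ≠ 0)
    (hram : ∃ t, ∀ m, ∃ T : Finset Ω, T.card ≤ t ∧
        ∀ w, I w ⊓ Dm m ≤ K ∨ ∃ u ∈ T, ∃ d ∈ Dm m, w = d • u)
    (hvec : ∀ (S : Type) [AddCommGroup S] [Module (ZMod p) S] [Module.Finite (ZMod p) S]
      (τ : Representation (ZMod p) 𝔾 S), (∀ g ∈ K, ∀ x, τ g x = x) → IsSimple τ →
      ∃ L, (K ≤ L ∧ Mu0 p I Dm L) ∧ ∃ v : S, v ≠ 0 ∧ L ≤ stab τ v) :
    Mu0 p I Dm K := by
  classical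
  obtain ⟨t, ht⟩ := hram
  -- the finite set of subgroups with bounded ranks
  have hfin : {L : Subgroup 𝔾 | K ≤ L ∧ Mu0 p I Dm L}.Finite :=
    (finite_ge hKn hKf).subset fun L hL => hL.1
  set 𝓛 := hfin.toFinset with h𝓛
  have hmem : ∀ L, L ∈ 𝓛 ↔ K ≤ L ∧ Mu0 p I Dm L := fun L => by
    rw [h𝓛, Set.Finite.mem_toFinset]
    rfl
  have hC : ∃ C, ∀ L ∈ 𝓛, ∀ m, RankLe p I (L ⊓ Dm m) C := by
    choose! c hc using fun L (hL : L ∈ 𝓛) => ((hmem L).1 hL).2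
    exact ⟨𝓛.sup c, fun L hL m => (hc L hL m).mono (Finset.le_sup hL)⟩
  obtain ⟨C, hC⟩ := hC
  refine ⟨(cst K.index (K.index * t) * C + 1) ^ (K.index * 𝓛.card), fun m => ?_⟩
  obtain ⟨T, hTt, hT⟩ := ht m
  have h1 : (K ⊓ Dm m).relIndex (Dm m) = K.relIndex (Dm m) := inf_relIndex_right K _
  have h2 : K.relIndex (Dm m) ∣ K.index := relIndex_dvd_index_of_normal K _
  have h3 : (K ⊓ Dm m).relIndex (Dm m) ≠ 0 := by
    rw [h1]
    intro h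
    rw [h] at h2
    exact hKf (Nat.eq_zero_of_zero_dvd h2)
  have h4 : (K ⊓ Dm m).relIndex (Dm m) ≤ K.index := by
    rw [h1]
    exact Nat.le_of_dvd (Nat.pos_of_ne_zero hKf) h2
  have hdet : Detects (ZMod p) ((K ⊓ Dm m).subgroupOf (Dm m))
      (𝓛.image fun L => L ⊓ Dm m) (fun L => L.subgroupOf (Dm m)) := by
    intro S _ _ _ σ htriv hsim
    have hnt : Nontrivial S := hsim.1
    obtain ⟨L, g, hL, hqc⟩ := exists_vector σ (hDf m) hKn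
      (fun g hg x => htriv g (by
        rw [inf_subgroupOf_right]
        exact hg) x) (fun L => K ≤ L ∧ Mu0 p I Dm L) (fun Q _ _ _ τ hτ hs => hvec Q τ hτ hs)
    have h5 : L.map (MulAut.conj g).toMonoidHom ∈ 𝓛 := by
      rw [hmem]
      refine ⟨fun x hx => ?_, hL.2.conj hI hDn g⟩
      refine ⟨g⁻¹ * x * g⁻¹⁻¹, hL.1 (hKn.conj_mem x hx g⁻¹), ?_⟩
      show g * (g⁻¹ * x * g⁻¹⁻¹) * g⁻¹ = x
      group
    refine ⟨L.map (MulAut.conj g).toMonoidHom ⊓ Dm m, Finset.mem_image.2 ⟨_, h5, rfl⟩, ?_⟩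
    show coinv σ ((L.map (MulAut.conj g).toMonoidHom ⊓ Dm m).subgroupOf (Dm m)) ≠ ⊤
    rw [inf_subgroupOf_right]
    exact hqc
  have h5 := main_ineq (p := p) hI (K := K ⊓ Dm m) (D := Dm m) inf_le_right
    (fun d hd x hx => ⟨hKn.conj_mem x hx.1 d, (Dm m).mul_mem ((Dm m).mul_mem hd hx.2)
      ((Dm m).inv_mem hd)⟩) h3 h4 (𝓛.image fun L => L ⊓ Dm m) (by
      intro L hL
      obtain ⟨M, hM, rfl⟩ := Finset.mem_image.1 hL
      exact ⟨inf_le_inf_right _ ((hmem M).1 hM).1, inf_le_right⟩) hdet T hTt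
    (fun w => (hT w).imp (fun h => le_inf h inf_le_right) id) (C := C) (by
      intro L hL
      obtain ⟨M, hM, rfl⟩ := Finset.mem_image.1 hL
      exact hC M hM m)
  refine h5.mono ?_
  refine (Nat.pow_le_pow_left (Nat.le_succ _) _).trans (Nat.pow_le_pow_right (Nat.succ_pos _) ?_)
  exact Nat.mul_le_mul_left _ Finset.card_image_le

end Pool.Agent.Q60.MU
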