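import Pool.Agent.Q60.MU.Reduction

/-!
# Residual representations and fields generated by vectors
-/

set_option autoImplicit false

namespace Pool.Agent.Q60.MU

open Subgroup Module

universe u

variable {𝔾 : Type} [Group 𝔾]

/-- `f` is a homomorphism of representations -/
def Intertwines {k : Type} [Field k] {V W : Type} [AddCommGroup V] [Module k V] [AddCommGroup W]
    [Module k W] (ρ : Representation k 𝔾 V) (τ : Representation k 𝔾 W) (f : V →ₗ[k] W) : Prop :=
  ∀ g v, f (ρ g v) = τ g (f v)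

/-- `σ` is a quotient of a subrepresentation of `ρ`. -/
def IsSubquotient {k : Type} [Field k] {V W : Type} [AddCommGroup V] [Module k V]
    [AddCommGroup W] [Module k W] (σ : Representation k 𝔾 W) (ρ : Representation k 𝔾 V) : Prop :=
  ∃ (U : Submodule k V) (hU : Stable ρ U) (f : U →ₗ[k] W), Function.Surjective f ∧
    Intertwines (sub ρ hU) σ f

/-- the permutation representation on `𝔾/H` -/
noncomputable def perm (k : Type) [Field k] (H : Subgroup 𝔾) :
    Representation k 𝔾 ((𝔾 ⧸ H) →₀ k) where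
  toFun g := Finsupp.lmapDomain k k (g • ·)
  map_one' := by
    ext x y
    simp
  map_mul' a b := by
    ext x y
    simp [mul_smul]

theorem perm_single {k : Type} [Field k] (H : Subgroup 𝔾) (g : 𝔾) (q : 𝔾 ⧸ H) (r : k) :
    perm k H g (Finsupp.single q r) = Finsupp.single (g • q) r :=
  Finsupp.mapDomain_single

theorem exists_perm {k : Type} [Field k] {V : Type} [AddCommGroup V] [Module k V]
    (ρ : Representation k 𝔾 V) {H : Subgroup 𝔾} {v : V} (hH : H ≤ stab ρ v)
    (hgen : gen ρ v = ⊤) :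
    ∃ f : ((𝔾 ⧸ H) →₀ k) →ₗ[k] V, Function.Surjective f ∧ Intertwines (perm k H) ρ f := by
  have hout : ∀ g : 𝔾, ρ ((g : 𝔾 ⧸ H).out) v = ρ g v := by
    intro g
    obtain ⟨h, hh⟩ := QuotientGroup.mk_out_eq_mul H g
    rw [hh, map_mul, Module.End.mul_apply]
    rw [mem_stab.1 (hH h.2)]
  refine ⟨Finsupp.linearCombination k fun q : 𝔾 ⧸ H => ρ q.out v, ?_, ?_⟩
  · rw [← LinearMap.range_eq_top, Finsupp.range_linearCombination, ← hgen, gen]
    congr 1
    ext x
    constructor
    · rintro ⟨q, rfl⟩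
      exact ⟨_, rfl⟩
    · rintro ⟨g, rfl⟩
      exact ⟨(g : 𝔾 ⧸ H), hout g⟩
  · intro g φ
    induction φ using Finsupp.induction_linear with
    | zero => simp
    | add a b ha hb =>
      rw [map_add, map_add, ha, hb, map_add, map_add]
    | single q r =>
      rw [perm_single, Finsupp.linearCombination_single,
        Finsupp.linearCombination_single, map_smul]
      congr 1
      obtain ⟨x, rfl⟩ := QuotientGroup.mk_surjective q
      have h1 : g • (x : 𝔾 ⧸ H) = ((g * x : 𝔾) : 𝔾 ⧸ H) := rfl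
      rw [h1, hout, hout, map_mul, Module.End.mul_apply]

/-- The data of the problem for a number field `K` with absolute Galois group `𝔾`, and `L = K`.
`H²_Iw(M) = H²_Iw(O_{K,S}, M)`; its finiteness, for finite `M`, does not depend on `S`. -/
structure Setting (p : ℕ) (𝔾 : Type) [Group 𝔾] where
  /-- `H²_Iw(M)` is finite, for a finite-dimensional representation `M` over `𝔽_p` -/
  A : ∀ (V : Type) [AddCommGroup V] [Module (ZMod p) V], Representation (ZMod p) 𝔾 V → Prop
  /-- `H²_Iw(𝔽_p)` is finite over the fixed field `F` of the subgroup, that is: Q1 holds for `ℤ_p`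
  over `F` -/
  Triv : Subgroup 𝔾 → Prop
  /-- the nonzero representations `T` of `G_K`, over all rings `𝓡` -/
  Dat : Type
  /-- `H²_Iw(T)` is torsion with `μ = 0` -/
  Good : Dat → Prop
  /-- the representation on `V` over `𝔽_p` is (isomorphic to) the reduction `T/π` -/
  Res : Dat → ∀ (V : Type) [AddCommGroup V] [Module (ZMod p) V],
    Representation (ZMod p) 𝔾 V → Prop

/-- The known facts: `p` is odd, so `H²_Iw` is right exact on finite modules and exact in the
middle; `H²_Iw(T)/π = H²_Iw(T/π)`, and a finitely generated `Λ`-module is torsion with `μ = 0` iff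
its quotient by `π` is finite. -/
structure IsSetting {p : ℕ} [Fact p.Prime] [TopologicalSpace 𝔾] (T : Setting p 𝔾) : Prop where
  /-- right exactness -/
  quot : ∀ (V W : Type) [AddCommGroup V] [Module (ZMod p) V] [Module.Finite (ZMod p) V]
    [AddCommGroup W] [Module (ZMod p) W] (ρ : Representation (ZMod p) 𝔾 V)
    (τ : Representation (ZMod p) 𝔾 W) (f : V →ₗ[ZMod p] W), Smooth ρ →
    Function.Surjective f → Intertwines ρ τ f → T.A V ρ → T.A W τ
  /-- exactness in the middle -/
  ext : ∀ (V : Type) [AddCommGroup V] [Module (ZMod p) V] [Module.Finite (ZMod p) V]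
    (ρ : Representation (ZMod p) 𝔾 V) (U : Submodule (ZMod p) V) (hU : Stable ρ U), Smooth ρ →
    T.A U (sub ρ hU) → T.A (V ⧸ U) (quo ρ hU) → T.A V ρ
  /-- Shapiro's lemma -/
  shapiro : ∀ H : Subgroup 𝔾, IsOpen (H : Set 𝔾) → H.index ≠ 0 →
    (T.Triv H ↔ T.A _ (perm (ZMod p) H))
  /-- Nakayama's lemma -/
  good : ∀ (d : T.Dat) (V : Type) [AddCommGroup V] [Module (ZMod p) V]
    (ρ : Representation (ZMod p) 𝔾 V), T.Res d V ρ → (T.Good d ↔ T.A V ρ)
  /-- reductions exist and are nonzero and continuous -/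
  res : ∀ d : T.Dat, ∃ (V : Type) (_ : AddCommGroup V) (_ : Module (ZMod p) V)
    (ρ : Representation (ZMod p) 𝔾 V), Module.Finite (ZMod p) V ∧ Nontrivial V ∧ Smooth ρ ∧
    T.Res d V ρ
  /-- induced representations -/
  induced : ∀ H : Subgroup 𝔾, IsOpen (H : Set 𝔾) → H.index ≠ 0 →
    ∃ d : T.Dat, T.Res d _ (perm (ZMod p) H)

section

set_option linter.unusedSectionVars false

variable {p : ℕ} [Fact p.Prime] [TopologicalSpace 𝔾] [ContinuousMul 𝔾] {T : Setting p 𝔾}

theorem stab_open {V : Type} [AddCommGroup V] [Module (ZMod p) V]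
    {ρ : Representation (ZMod p) 𝔾 V} (h : Smooth ρ) (v : V) :
    IsOpen (stab ρ v : Set 𝔾) ∧ (stab ρ v).index ≠ 0 := by
  obtain ⟨K, hKo, hKf, hK⟩ := h
  have hle : K ≤ stab ρ v := fun g hg => hK g hg v
  refine ⟨Subgroup.isOpen_mono hle hKo, fun h0 => hKf ?_⟩
  have h1 := index_dvd_of_le hle
  rw [h0] at h1
  exact Nat.eq_zero_of_zero_dvd h1

theorem perm_smooth {H : Subgroup 𝔾} (h1 : IsOpen (H : Set 𝔾)) (h2 : H.index ≠ 0) :
    Smooth (perm (ZMod p) H) := by
  have hfi : H.FiniteIndex := ⟨h2⟩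
  have h3 : H.normalCore.FiniteIndex := H.finiteIndex_normalCore
  refine ⟨H.normalCore, isOpen_normalCore h1 h2, h3.index_ne_zero, fun g hg x => ?_⟩
  have hq : ∀ q : 𝔾 ⧸ H, g • q = q := by
    intro q
    obtain ⟨x, rfl⟩ := QuotientGroup.mk_surjective q
    have h4 : g • (x : 𝔾 ⧸ H) = ((g * x : 𝔾) : 𝔾 ⧸ H) := rfl
    rw [h4]
    symm
    rw [QuotientGroup.eq]
    have h5 := hg x⁻¹
    rwa [inv_inv, mul_assoc] at h5
  induction x using Finsupp.induction_linear with
  | zero => rw [map_zero]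
  | add a b ha hb => rw [map_add, ha, hb]
  | single q r => rw [perm_single, hq]

theorem A_of_vector (hT : IsSetting T) {V : Type} [AddCommGroup V] [Module (ZMod p) V]
    {ρ : Representation (ZMod p) 𝔾 V} (hs : Smooth ρ) {v : V} (hgen : gen ρ v = ⊤)
    (hv : T.Triv (stab ρ v)) : T.A V ρ := by
  obtain ⟨h1, h2⟩ := stab_open hs v
  obtain ⟨f, hf, hi⟩ := exists_perm ρ (le_refl (stab ρ v)) hgen
  have hfi : (stab ρ v).FiniteIndex := ⟨h2⟩
  have hfin : Finite (𝔾 ⧸ stab ρ v) := inferInstance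
  exact hT.quot _ _ _ _ f (perm_smooth h1 h2) hf hi ((hT.shapiro _ h1 h2).1 hv)

theorem gen_eq_top {V : Type} [AddCommGroup V] [Module (ZMod p) V]
    {ρ : Representation (ZMod p) 𝔾 V} (hs : IsSimple ρ) {v : V} (hv : v ≠ 0) :
    gen ρ v = ⊤ := by
  rcases hs.2 _ (gen_stable ρ v) with h | h
  · exfalso
    apply hv
    have h1 := mem_gen ρ v
    rwa [h, Submodule.mem_bot] at h1
  · exact h

theorem exists_max {V : Type} [AddCommGroup V] [Module (ZMod p) V] [Module.Finite (ZMod p) V]
    [Nontrivial V] (ρ : Representation (ZMod p) 𝔾 V) :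
    ∃ (U : Submodule (ZMod p) V) (hU : Stable ρ U), U ≠ ⊤ ∧ IsSimple (quo ρ hU) := by
  classical
  have hex : ∃ n, ∃ U : Submodule (ZMod p) V, Stable ρ U ∧ U ≠ ⊤ ∧
      finrank (ZMod p) V - finrank (ZMod p) U = n :=
    ⟨_, ⊥, fun g x hx => by
      rw [Submodule.mem_bot] at hx ⊢
      rw [hx, map_zero], bot_ne_top, rfl⟩
  obtain ⟨U, hU, hUt, hn⟩ := Nat.find_spec hex
  have hmin := fun m hm => Nat.find_min hex (m := m) hm
  refine ⟨U, hU, hUt, Submodule.Quotient.nontrivial_iff.2 hUt, fun Q hQ => ?_⟩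
  by_cases hQt : Q = ⊤
  · exact Or.inr hQt
  left
  have h1 : Stable ρ (Q.comap U.mkQ) := fun g x hx => hQ g (U.mkQ x) hx
  have h2 : Q.comap U.mkQ ≠ ⊤ := by
    intro h
    apply hQt
    rw [← Submodule.map_comap_eq_of_surjective (Submodule.mkQ_surjective U) Q, h,
      Submodule.map_top, Submodule.range_mkQ]
  have h3 : U ≤ Q.comap U.mkQ := by
    intro x hx
    show U.mkQ x ∈ Q
    rw [Submodule.mkQ_apply, (Submodule.Quotient.mk_eq_zero U).2 hx]
    exact Q.zero_mem
  by_contra hQb
  have h4 : U < Q.comap U.mkQ := by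
    refine lt_of_le_of_ne h3 fun h => hQb ?_
    rw [← Submodule.map_comap_eq_of_surjective (Submodule.mkQ_surjective U) Q, ← h,
      Submodule.mkQ_map_self]
  have h5 := Submodule.finrank_lt_finrank_of_lt h4
  have h6 : finrank (ZMod p) (Q.comap U.mkQ : Submodule (ZMod p) V) ≤ finrank (ZMod p) V :=
    Submodule.finrank_le _
  refine hmin (finrank (ZMod p) V - finrank (ZMod p) (Q.comap U.mkQ : Submodule (ZMod p) V)) ?_
    ⟨_, h1, h2, rfl⟩
  rw [← hn]
  omega

theorem A_of_factors (hT : IsSetting T) : ∀ (n : ℕ) (V : Type) [AddCommGroup V]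
    [Module (ZMod p) V] [Module.Finite (ZMod p) V] [Nontrivial V]
    (ρ : Representation (ZMod p) 𝔾 V), finrank (ZMod p) V = n → Smooth ρ →
    (∀ (S : Type) [AddCommGroup S] [Module (ZMod p) S] [Module.Finite (ZMod p) S]
      (σ : Representation (ZMod p) 𝔾 S), IsSimple σ → IsSubquotient σ ρ →
      ∃ v : S, v ≠ 0 ∧ T.Triv (stab σ v)) → T.A V ρ := by
  intro n
  induction n using Nat.strong_induction_on with
  | _ n ih =>
    intro V _ _ _ _ ρ hn hs h
    obtain ⟨U, hU, hUt, hsim⟩ := exists_max ρ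
    have hsq : Smooth (quo ρ hU) := by
      obtain ⟨K, hKo, hKf, hK⟩ := hs
      refine ⟨K, hKo, hKf, fun g hg x => ?_⟩
      obtain ⟨y, rfl⟩ := U.mkQ_surjective x
      rw [quo_mk, hK g hg]
    have hss : Smooth (sub ρ hU) := by
      obtain ⟨K, hKo, hKf, hK⟩ := hs
      exact ⟨K, hKo, hKf, fun g hg x => Subtype.ext (hK g hg x)⟩
    have hq : T.A (V ⧸ U) (quo ρ hU) := by
      have ht : Stable ρ (⊤ : Submodule (ZMod p) V) := fun _ _ _ => Submodule.mem_top
      obtain ⟨v, hv, hvT⟩ := h (V ⧸ U) (quo ρ hU) hsim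
        ⟨⊤, ht, U.mkQ ∘ₗ (⊤ : Submodule (ZMod p) V).subtype, fun x => by
          obtain ⟨y, rfl⟩ := U.mkQ_surjective x
          exact ⟨⟨y, Submodule.mem_top⟩, rfl⟩, fun g x => rfl⟩
      exact A_of_vector hT hsq (gen_eq_top hsim hv) hvT
    by_cases hU0 : U = ⊥
    · -- `V` is simple
      subst hU0
      refine hT.quot _ _ (quo ρ hU) ρ ((⊥ : Submodule (ZMod p) V).liftQ LinearMap.id (by simp))
        hsq ?_ ?_ hq
      · intro x
        exact ⟨Submodule.mkQ _ x, rfl⟩
      · intro g x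
        obtain ⟨y, rfl⟩ := (⊥ : Submodule (ZMod p) V).mkQ_surjective x
        rw [quo_mk]
        rfl
    · have hUn : Nontrivial U := (Submodule.nontrivial_iff_ne_bot).2 hU0
      have hlt : finrank (ZMod p) U < n := by
        rw [← hn]
        exact Submodule.finrank_lt hUt
      refine hT.ext V ρ U hU hs (ih _ hlt U (sub ρ hU) rfl hss ?_) hq
      rintro S _ _ _ σ hσ ⟨W, hW, f, hf, hi⟩
      apply h S σ hσ
      refine ⟨W.map U.subtype, ?_, f ∘ₗ ((Submodule.equivMapOfInjective U.subtype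
        U.subtype_injective W).symm : W.map U.subtype →ₗ[ZMod p] W), ?_, ?_⟩
      · rintro g _ ⟨x, hx, rfl⟩
        exact ⟨_, hW g x hx, rfl⟩
      · exact hf.comp (LinearEquiv.surjective _)
      · intro g x
        obtain ⟨y, rfl⟩ := (Submodule.equivMapOfInjective U.subtype
          U.subtype_injective W).surjective x
        have h1 : sub ρ (fun g x hx => by
            obtain ⟨x, hx, rfl⟩ := hx
            exact ⟨_, hW g x hx, rfl⟩ : Stable ρ (W.map U.subtype)) g
            (Submodule.equivMapOfInjective U.subtype U.subtype_injective W y) =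
            Submodule.equivMapOfInjective U.subtype U.subtype_injective W
              (sub (sub ρ hU) hW g y) := Subtype.ext rfl
        rw [LinearMap.comp_apply, LinearMap.comp_apply, h1]
        simp only [LinearEquiv.coe_coe, LinearEquiv.symm_apply_apply]
        exact hi g y

end

end Pool.Agent.Q60.MU
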